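import Pool.Agent.K6.H81.PF.Stm

/-!
# Piece A of call81p (volunteer: helper35)

The sum of a Gaussian over a coset of a subgroup of `ℤ ^ n` is at most its sum over the subgroup.

Write `S x = ∑ exp (-t |v + x|²)` over the subgroup `L`. The form `∑ f (v + v') f (v - v')` is
nonnegative (it is the sum of the squares of the sums of `f` over the classes of `L / 2 L`). For
`f v = exp (-(t/2) |v + 2 x|²) - exp (-(t/2) |v|²)` the parallelogram identity gives
`2 S(x)² ≤ S(2 x) S(0) + S(0)²`, and so `sup S ≤ S(0)`.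
-/

set_option autoImplicit false

namespace Pool.Agent.K6.H81.PF

open scoped BigOperators

/-- The Gaussian sum over the integers converges. -/
theorem summable_int {t : ℝ} (ht : 0 < t) : Summable fun m : ℤ => Real.exp (-t * (m : ℝ) ^ 2) := by
  have h : Summable fun n : ℕ => Real.exp (-t * (n : ℝ) ^ 2) := by
    have h1 : Summable fun n : ℕ => Real.exp (n * -t) :=
      Real.summable_exp_nat_mul_iff.mpr (by linarith)
    refine h1.of_nonneg_of_le (fun n => (Real.exp_pos _).le) fun n => ?_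
    apply Real.exp_le_exp.mpr
    have h2 : (n : ℝ) ≤ (n : ℝ) ^ 2 := by
      rcases Nat.eq_zero_or_pos n with h0 | h0
      · simp [h0]
      · have : (1 : ℝ) ≤ n := by exact_mod_cast h0
        nlinarith
    nlinarith
  refine Summable.of_nat_of_neg (by simpa using h) ?_
  simpa using h

theorem norm_toE_sq {n : ℕ} (v : V n) : ‖toE n v‖ ^ 2 = ∑ i, (v i : ℝ) ^ 2 := by
  rw [EuclideanSpace.norm_sq_eq]
  simp

/-- The Gaussian sum over `ℤ ^ n` converges. -/
theorem summable_V (n : ℕ) {t : ℝ} (ht : 0 < t) :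
    Summable fun v : V n => Real.exp (-t * ‖toE n v‖ ^ 2) := by
  have h1 := summable_int ht
  refine summable_of_sum_le (c := (∑' m : ℤ, Real.exp (-t * (m : ℝ) ^ 2)) ^ n)
    (fun v => (Real.exp_pos _).le) fun s => ?_
  have hR : ∃ R : ℕ, s ⊆ Box n R := by
    induction s using Finset.induction_on with
    | empty => exact ⟨0, by simp⟩
    | insert a s _ ih =>
      obtain ⟨R, hR⟩ := ih
      refine ⟨R + ∑ i, (a i).natAbs, ?_⟩
      intro x hx
      rw [mem_Box]
      intro i
      rcases Finset.mem_insert.mp hx with rfl | hx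
      · have h2 : (x i).natAbs ≤ ∑ i, (x i).natAbs :=
          Finset.single_le_sum (f := fun i => (x i).natAbs) (fun _ _ => Nat.zero_le _)
            (Finset.mem_univ i)
        have h3 : |x i| = ((x i).natAbs : ℤ) := Int.abs_eq_natAbs _
        rw [h3]
        push_cast
        have h4 : (((x i).natAbs : ℕ) : ℤ) ≤ ((∑ i, (x i).natAbs : ℕ) : ℤ) := by exact_mod_cast h2
        push_cast at h4
        omega
      · have h2 := mem_Box.mp (hR hx) i
        push_cast
        have h3 : (0 : ℤ) ≤ ∑ i, |a i| := Finset.sum_nonneg fun _ _ => abs_nonneg _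
        have h4 : (∑ i, (((a i).natAbs : ℕ) : ℤ)) = ∑ i, |a i| := by simp
        linarith
  obtain ⟨R, hR⟩ := hR
  calc ∑ v ∈ s, Real.exp (-t * ‖toE n v‖ ^ 2) ≤ ∑ v ∈ Box n R, Real.exp (-t * ‖toE n v‖ ^ 2) :=
        Finset.sum_le_sum_of_subset_of_nonneg hR fun _ _ _ => (Real.exp_pos _).le
    _ = ∑ v ∈ Box n R, ∏ i, Real.exp (-t * (v i : ℝ) ^ 2) := by
        refine Finset.sum_congr rfl fun v _ => ?_
        rw [norm_toE_sq, Finset.mul_sum, Real.exp_sum]
    _ = ∏ _i : Fin n, ∑ m ∈ Finset.Icc (-(R : ℤ)) R, Real.exp (-t * (m : ℝ) ^ 2) := by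
        rw [Box, Finset.prod_univ_sum]
    _ ≤ ∏ _i : Fin n, ∑' m : ℤ, Real.exp (-t * (m : ℝ) ^ 2) := by
        refine Finset.prod_le_prod (fun _ _ => Finset.sum_nonneg fun _ _ => (Real.exp_pos _).le)
          fun _ _ => ?_
        exact h1.sum_le_tsum _ fun _ _ => (Real.exp_pos _).le
    _ = _ := by simp

theorem gauss_le {F : Type} [NormedAddCommGroup F] {t : ℝ} (ht : 0 < t) (v x : F) :
    Real.exp (-t * ‖v + x‖ ^ 2) ≤ Real.exp (t * ‖x‖ ^ 2) * Real.exp (-(t / 2) * ‖v‖ ^ 2) := by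
  rw [← Real.exp_add]
  apply Real.exp_le_exp.mpr
  have h1 : ‖v‖ ≤ ‖v + x‖ + ‖x‖ := by
    have := norm_sub_le (v + x) x
    simpa using this
  have h2 : ‖v‖ ^ 2 ≤ 2 * ‖v + x‖ ^ 2 + 2 * ‖x‖ ^ 2 := by
    have h3 : ‖v‖ ^ 2 ≤ (‖v + x‖ + ‖x‖) ^ 2 := by
      apply pow_le_pow_left₀ (norm_nonneg _) h1
    nlinarith [sq_nonneg (‖v + x‖ - ‖x‖)]
  nlinarith

/-- Shifted Gaussian sums over `ℤ ^ n` converge. -/
theorem summable_Vx (n : ℕ) {t : ℝ} (ht : 0 < t) (x : E n) :
    Summable fun v : V n => Real.exp (-t * ‖toE n v + x‖ ^ 2) :=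
  ((summable_V n (half_pos ht)).mul_left (Real.exp (t * ‖x‖ ^ 2))).of_nonneg_of_le
    (fun _ => (Real.exp_pos _).le) fun _ => gauss_le ht _ _

theorem summable_L {n : ℕ} (L : AddSubgroup (V n)) {t : ℝ} (ht : 0 < t) (x : E n) :
    Summable fun v : L => Real.exp (-t * ‖toE n (v : V n) + x‖ ^ 2) :=
  (summable_Vx n ht x).comp_injective Subtype.val_injective

/-- The shifted Gaussian sums are bounded, uniformly in the shift. -/
theorem TH_bdd {n : ℕ} (L : AddSubgroup (V n)) {t : ℝ} (ht : 0 < t) :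
    ∃ C : ℝ, ∀ x : E n, TH L t x ≤ C := by
  refine ⟨Real.exp (t * n) * ∑' v : V n, Real.exp (-(t / 2) * ‖toE n v‖ ^ 2), fun x => ?_⟩
  have h1 : TH L t x ≤ ∑' v : V n, Real.exp (-t * ‖toE n v + x‖ ^ 2) :=
    tsum_comp_le_tsum_of_inj (summable_Vx n ht x) (fun _ => (Real.exp_pos _).le)
      (Subtype.val_injective (p := fun v => v ∈ L))
  refine h1.trans ?_
  let m : V n := fun i => ⌊x i⌋
  let y : E n := x - toE n m
  have hy : ‖y‖ ^ 2 ≤ n := by
    rw [EuclideanSpace.norm_sq_eq]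
    calc ∑ i, ‖y i‖ ^ 2 ≤ ∑ _i : Fin n, (1 : ℝ) := by
          refine Finset.sum_le_sum fun i _ => ?_
          have h2 : y i = x i - ⌊x i⌋ := by simp [y, m]
          rw [h2, Real.norm_eq_abs, sq_abs]
          have h3 := Int.floor_le (x i)
          have h4 := Int.lt_floor_add_one (x i)
          nlinarith
      _ = n := by simp
  have h2 : ∑' v : V n, Real.exp (-t * ‖toE n v + x‖ ^ 2) =
      ∑' v : V n, Real.exp (-t * ‖toE n v + y‖ ^ 2) := by
    rw [← (Equiv.addRight m).tsum_eq (fun v : V n => Real.exp (-t * ‖toE n v + y‖ ^ 2))]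
    refine tsum_congr fun v => ?_
    have h3 : toE n (Equiv.addRight m v) + y = toE n v + x := by
      simp only [Equiv.coe_addRight, map_add, y]
      abel
    rw [h3]
  rw [h2, ← tsum_mul_left]
  refine Summable.tsum_le_tsum (fun v => ?_) (summable_Vx n ht y)
    ((summable_V n (half_pos ht)).mul_left _)
  refine (gauss_le ht _ _).trans ?_
  refine mul_le_mul_of_nonneg_right ?_ (Real.exp_pos _).le
  exact Real.exp_le_exp.mpr (mul_le_mul_of_nonneg_left hy ht.le)

/-- The bijection `(q, a, b) ↦ (q + a + b, b - a)`. -/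
theorem phi_bij {Λ : Type} [AddCommGroup Λ] (h2 : Function.Injective fun a : Λ => a + a)
    (H : AddSubgroup Λ) (hH : ∀ x, x ∈ H ↔ ∃ a, a + a = x) :
    Function.Bijective fun p : (Λ ⧸ H) × Λ × Λ => (p.1.out + p.2.1 + p.2.2, p.2.2 - p.2.1) := by
  constructor
  · rintro ⟨q, a, b⟩ ⟨q', a', b'⟩ h
    simp only [Prod.mk.injEq] at h
    obtain ⟨h3, h4⟩ := h
    have h5 : q.out + (a + a) = q'.out + (a' + a') := by
      have : q.out + a + b - (b - a) = q'.out + a' + b' - (b' - a') := by rw [h3, h4]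
      calc q.out + (a + a) = q.out + a + b - (b - a) := by abel
        _ = q'.out + a' + b' - (b' - a') := this
        _ = q'.out + (a' + a') := by abel
    have h6 : q = q' := by
      rw [← QuotientAddGroup.out_eq' q, ← QuotientAddGroup.out_eq' q']
      rw [QuotientAddGroup.eq]
      rw [hH]
      refine ⟨a - a', ?_⟩
      have : -q.out + q'.out = (q.out + (a + a)) - q.out - (a' + a') := by
        rw [h5]
        abel
      rw [this]
      abel
    subst h6
    have h7 : a = a' := h2 (by simpa using h5)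
    subst h7
    simpa using h4
  · rintro ⟨v, v'⟩
    have h3 : v - v' - (QuotientAddGroup.mk (s := H) (v - v')).out ∈ H := by
      have h4 := QuotientAddGroup.out_eq' (QuotientAddGroup.mk (s := H) (v - v'))
      rw [QuotientAddGroup.eq] at h4
      have h5 : v - v' - (QuotientAddGroup.mk (s := H) (v - v')).out =
        -(QuotientAddGroup.mk (s := H) (v - v')).out + (v - v') := by abel
      rw [h5]
      exact h4
    obtain ⟨a, ha⟩ := (hH _).mp h3
    refine ⟨(QuotientAddGroup.mk (v - v'), a, a + v'), ?_⟩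
    simp only [Prod.mk.injEq]
    constructor
    · calc (QuotientAddGroup.mk (s := H) (v - v')).out + a + (a + v') =
          (QuotientAddGroup.mk (s := H) (v - v')).out + (a + a) + v' := by abel
        _ = v := by rw [ha]; abel
    · abel

/-- The reindexed form is a sum of squares. -/
theorem form_nonneg_aux {Λ : Type} [AddCommGroup Λ] (h2 : Function.Injective fun a : Λ => a + a)
    (H : AddSubgroup Λ) (hH : ∀ x, x ∈ H ↔ ∃ a, a + a = x) {f : Λ → ℝ} (hf : Summable f)
    (hsum : Summable fun p : Λ × Λ => f (p.1 + p.2) * f (p.1 - p.2)) :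
    0 ≤ ∑' p : Λ × Λ, f (p.1 + p.2) * f (p.1 - p.2) := by
  obtain ⟨Φ, hΦ⟩ : ∃ Φ : (Λ ⧸ H) × Λ × Λ ≃ Λ × Λ, ∀ q a b, Φ (q, a, b) = (q.out + a + b, b - a) :=
    ⟨Equiv.ofBijective _ (phi_bij h2 H hH), fun _ _ _ => rfl⟩
  let k : (Λ ⧸ H) → Λ → ℝ := fun q a => f (q.out + (a + a))
  have hval : ∀ p : (Λ ⧸ H) × Λ × Λ, f ((Φ p).1 + (Φ p).2) * f ((Φ p).1 - (Φ p).2) =
      k p.1 p.2.2 * k p.1 p.2.1 := by
    rintro ⟨q, a, b⟩
    rw [hΦ]
    have h3 : q.out + a + b + (b - a) = q.out + (b + b) := by abel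
    have h4 : q.out + a + b - (b - a) = q.out + (a + a) := by abel
    simp only [k]
    rw [h3, h4]
  have hsum2 : Summable fun p : (Λ ⧸ H) × Λ × Λ => k p.1 p.2.2 * k p.1 p.2.1 := by
    have hsum' := (Φ.summable_iff (f := fun p : Λ × Λ => f (p.1 + p.2) * f (p.1 - p.2))).mpr hsum
    exact hsum'.congr fun p => (hval p)
  have h5 : ∑' p : Λ × Λ, f (p.1 + p.2) * f (p.1 - p.2) =
      ∑' p : (Λ ⧸ H) × Λ × Λ, k p.1 p.2.2 * k p.1 p.2.1 := by
    rw [← Φ.tsum_eq (fun p : Λ × Λ => f (p.1 + p.2) * f (p.1 - p.2))]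
    exact tsum_congr hval
  have hq : ∀ q, Summable (k q) := by
    intro q
    refine hf.comp_injective (i := fun a : Λ => q.out + (a + a)) ?_
    intro a a' h
    exact h2 (by simpa using h)
  have h6 : ∀ q, ∑' p : Λ × Λ, k q p.2 * k q p.1 = (∑' a, k q a) * ∑' a, k q a := by
    intro q
    rw [tsum_mul_tsum_of_summable_norm (hq q).norm (hq q).norm]
    exact tsum_congr fun p => mul_comm _ _
  rw [h5, hsum2.tsum_prod]
  exact tsum_nonneg fun q => (h6 q).symm ▸ mul_self_nonneg _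

/-- The subgroup of the doubles. -/
def dbl (Λ : Type) [AddCommGroup Λ] : AddSubgroup Λ where
  carrier := {x | ∃ a, a + a = x}
  zero_mem' := ⟨0, add_zero 0⟩
  add_mem' := by
    rintro x y ⟨a, rfl⟩ ⟨b, rfl⟩
    exact ⟨a + b, by abel⟩
  neg_mem' := by
    rintro x ⟨a, rfl⟩
    exact ⟨-a, by abel⟩

theorem mem_dbl {Λ : Type} [AddCommGroup Λ] (x : Λ) : x ∈ dbl Λ ↔ ∃ a, a + a = x := Iff.rfl

theorem pair_inj {Λ : Type} [AddCommGroup Λ] (h2 : Function.Injective fun a : Λ => a + a) :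
    Function.Injective fun p : Λ × Λ => (p.1 + p.2, p.1 - p.2) := by
  rintro ⟨a, b⟩ ⟨a', b'⟩ h
  simp only [Prod.mk.injEq] at h
  obtain ⟨h3, h4⟩ := h
  have h6 : a + a = a' + a' := by
    calc a + a = (a + b) + (a - b) := by abel
      _ = (a' + b') + (a' - b') := by rw [h3, h4]
      _ = a' + a' := by abel
  have h5 : a = a' := h2 h6
  subst h5
  have h7 : b = b' := by simpa using h3
  rw [h7]

/-- The form `∑ f (v + v') f (v - v')` is nonnegative. -/
theorem form_nonneg {Λ : Type} [AddCommGroup Λ] (h2 : Function.Injective fun a : Λ => a + a)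
    {f : Λ → ℝ} (hf : Summable f) : 0 ≤ ∑' p : Λ × Λ, f (p.1 + p.2) * f (p.1 - p.2) := by
  have hprod : Summable fun p : Λ × Λ => f p.1 * f p.2 :=
    summable_mul_of_summable_norm hf.norm hf.norm
  have hsum := hprod.comp_injective (pair_inj h2)
  exact form_nonneg_aux h2 (dbl Λ) mem_dbl hf hsum

theorem half_par {F : Type} [NormedAddCommGroup F] [InnerProductSpace ℝ F] (t : ℝ) (a b : F) :
    Real.exp (-(t / 2) * ‖a + b‖ ^ 2) * Real.exp (-(t / 2) * ‖a - b‖ ^ 2) =
      Real.exp (-t * ‖a‖ ^ 2) * Real.exp (-t * ‖b‖ ^ 2) := by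
  rw [← Real.exp_add, ← Real.exp_add]
  congr 1
  have h := parallelogram_law_with_norm ℝ a b
  linear_combination (-(t / 2)) * h

theorem TH_neg {n : ℕ} (L : AddSubgroup (V n)) (t : ℝ) (x : E n) : TH L t (-x) = TH L t x := by
  unfold TH
  rw [← (Equiv.neg L).tsum_eq]
  refine tsum_congr fun v => ?_
  have h : toE n ((Equiv.neg L v : L) : V n) + -x = -(toE n (v : V n) + x) := by
    simp only [Equiv.neg_apply, AddSubgroup.coe_neg, map_neg]
    abel
  rw [h, norm_neg]

/-- The inequality `2 S(x)² ≤ S(2 x) S(0) + S(0)²`. -/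
theorem TH_key {n : ℕ} (L : AddSubgroup (V n)) {t : ℝ} (ht : 0 < t) (x : E n) :
    2 * TH L t x ^ 2 ≤ TH L t (x + x) * TH L t 0 + TH L t 0 ^ 2 := by
  have h2 : Function.Injective fun a : L => a + a := by
    intro a b h
    apply Subtype.ext
    funext i
    have h3 : ((a + a : L) : V n) i = ((b + b : L) : V n) i := by
      have h4 : (a + a : L) = b + b := h
      rw [h4]
    simp only [AddSubgroup.coe_add, Pi.add_apply] at h3
    omega
  let g : E n → L → ℝ := fun y v => Real.exp (-(t / 2) * ‖toE n (v : V n) + y‖ ^ 2)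
  let G : E n → L → ℝ := fun y v => Real.exp (-t * ‖toE n (v : V n) + y‖ ^ 2)
  have hg : ∀ y, Summable (g y) := fun y => summable_L L (half_pos ht) y
  have hG : ∀ y, Summable (G y) := fun y => summable_L L ht y
  have hmul : ∀ y z, HasSum (fun p : L × L => G y p.1 * G z p.2) (TH L t y * TH L t z) := by
    intro y z
    have h3 := (hG y).norm
    have h4 := (hG z).norm
    have h5 := summable_mul_of_summable_norm h3 h4
    have h6 := tsum_mul_tsum_of_summable_norm h3 h4
    have h7 := h5.hasSum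
    rw [← h6] at h7
    exact h7
  have hf : Summable fun v => g (x + x) v - g 0 v := (hg _).sub (hg _)
  have h4 := form_nonneg h2 hf
  have h5 := (((hmul (x + x) 0).sub (hmul x x)).sub (hmul x (-x))).add (hmul 0 0)
  have h6 : ∀ p : L × L, (g (x + x) (p.1 + p.2) - g 0 (p.1 + p.2)) *
      (g (x + x) (p.1 - p.2) - g 0 (p.1 - p.2)) =
      G (x + x) p.1 * G 0 p.2 - G x p.1 * G x p.2 - G x p.1 * G (-x) p.2 + G 0 p.1 * G 0 p.2 := by
    rintro ⟨v, w⟩
    have e1 : g (x + x) (v + w) * g (x + x) (v - w) = G (x + x) v * G 0 w := by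
      have := half_par t (toE n (v : V n) + (x + x)) (toE n (w : V n) + 0)
      simp only [g, G]
      rw [← this]
      congr 4 <;> simp only [AddSubgroup.coe_add, AddSubgroup.coe_sub, map_add, map_sub] <;> abel_nf
    have e2 : g (x + x) (v + w) * g 0 (v - w) = G x v * G x w := by
      have := half_par t (toE n (v : V n) + x) (toE n (w : V n) + x)
      simp only [g, G]
      rw [← this]
      congr 4 <;> simp only [AddSubgroup.coe_add, AddSubgroup.coe_sub, map_add, map_sub] <;> abel_nf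
    have e3 : g 0 (v + w) * g (x + x) (v - w) = G x v * G (-x) w := by
      have := half_par t (toE n (v : V n) + x) (toE n (w : V n) + -x)
      simp only [g, G]
      rw [← this]
      congr 4 <;> simp only [AddSubgroup.coe_add, AddSubgroup.coe_sub, map_add, map_sub] <;> abel_nf
    have e4 : g 0 (v + w) * g 0 (v - w) = G 0 v * G 0 w := by
      have := half_par t (toE n (v : V n) + 0) (toE n (w : V n) + 0)
      simp only [g, G]
      rw [← this]
      congr 4 <;> simp only [AddSubgroup.coe_add, AddSubgroup.coe_sub, map_add, map_sub] <;> abel_nf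
    calc _ = g (x + x) (v + w) * g (x + x) (v - w) - g (x + x) (v + w) * g 0 (v - w) -
          g 0 (v + w) * g (x + x) (v - w) + g 0 (v + w) * g 0 (v - w) := by ring
      _ = _ := by rw [e1, e2, e3, e4]
  have h7 : ∑' p : L × L, (g (x + x) (p.1 + p.2) - g 0 (p.1 + p.2)) *
      (g (x + x) (p.1 - p.2) - g 0 (p.1 - p.2)) =
      TH L t (x + x) * TH L t 0 - TH L t x * TH L t x - TH L t x * TH L t (-x) +
        TH L t 0 * TH L t 0 := by
    rw [← h5.tsum_eq]
    exact tsum_congr h6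
  rw [h7, TH_neg] at h4
  nlinarith

/-- Piece A. -/
theorem pieceA : S_A := by
  intro n L t ht
  refine ⟨fun x => summable_L L ht x, fun x => ?_⟩
  obtain ⟨C, hC⟩ := TH_bdd L ht
  have hbdd : BddAbove (Set.range fun y : E n => TH L t y) := ⟨C, by rintro _ ⟨y, rfl⟩; exact hC y⟩
  have hnn : ∀ y : E n, 0 ≤ TH L t y := fun y => tsum_nonneg fun _ => (Real.exp_pos _).le
  set M := ⨆ y : E n, TH L t y with hM
  have hle : ∀ y, TH L t y ≤ M := fun y => le_ciSup hbdd y
  have h1 : ∀ y, TH L t y ≤ √((M * TH L t 0 + TH L t 0 ^ 2) / 2) := by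
    intro y
    apply Real.le_sqrt_of_sq_le
    have h2 := TH_key L ht y
    have h3 : TH L t (y + y) * TH L t 0 ≤ M * TH L t 0 :=
      mul_le_mul_of_nonneg_right (hle _) (hnn 0)
    linarith
  have h2 : M ≤ √((M * TH L t 0 + TH L t 0 ^ 2) / 2) := ciSup_le h1
  have hM0 : 0 ≤ M := (hnn 0).trans (hle 0)
  have h3 : M ^ 2 ≤ (M * TH L t 0 + TH L t 0 ^ 2) / 2 := by
    have h4 : 0 ≤ (M * TH L t 0 + TH L t 0 ^ 2) / 2 := by
      have := mul_nonneg hM0 (hnn 0)
      positivity
    calc M ^ 2 ≤ √((M * TH L t 0 + TH L t 0 ^ 2) / 2) ^ 2 := pow_le_pow_left₀ hM0 h2 2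
      _ = _ := Real.sq_sqrt h4
  have h4 : M ≤ TH L t 0 := by
    by_contra h5
    push Not at h5
    nlinarith [hnn 0]
  exact (hle x).trans h4

end Pool.Agent.K6.H81.PF
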