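import Pool.Agent.K6.H81.PF.Stm

set_option autoImplicit false

namespace Pool.Agent.K6.H81.PF

theorem norm_id_B {n : ℕ} (l b : E n) :
    2 * (‖l - b‖ ^ 2 + ‖b‖ ^ 2) = ‖l‖ ^ 2 + 4 * ‖b + (-(1 / 2 : ℝ)) • l‖ ^ 2 := by
  have h1 : ‖l - b‖ ^ 2 = ‖l‖ ^ 2 - 2 * inner ℝ l b + ‖b‖ ^ 2 := norm_sub_sq_real l b
  have h2 : ‖b + (-(1 / 2 : ℝ)) • l‖ ^ 2 =
      ‖b‖ ^ 2 + 2 * inner ℝ b ((-(1 / 2 : ℝ)) • l) + ‖(-(1 / 2 : ℝ)) • l‖ ^ 2 :=
    norm_add_sq_real _ _
  rw [inner_smul_right, norm_smul, real_inner_comm] at h2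
  rw [h1, h2]
  simp only [norm_neg, Real.norm_eq_abs]
  rw [abs_of_pos (by norm_num : (0 : ℝ) < 1 / 2)]
  ring

/-- Piece B. -/
theorem pieceB (hA : S_A) : S_B := by
  intro n L t ht
  obtain ⟨hs1, hb1⟩ := hA n L t ht
  obtain ⟨hs2, hb2⟩ := hA n L (2 * t) (by positivity)
  obtain ⟨hs4, hb4⟩ := hA n L (4 * t) (by positivity)
  set f : L → ℝ := fun v => Real.exp (-(2 * t) * ‖toE n (v : V n) + 0‖ ^ 2) with hf
  have hfs : Summable f := hs2 0
  have hfn : Summable fun v => ‖f v‖ := hfs.norm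
  have hprod : Summable fun p : L × L => f p.1 * f p.2 :=
    summable_mul_of_summable_norm hfn hfn
  have h0 : TH L (2 * t) 0 ^ 2 = ∑' p : L × L, f p.1 * f p.2 := by
    have : TH L (2 * t) 0 = ∑' v, f v := rfl
    rw [this, sq]
    exact tsum_mul_tsum_of_summable_norm hfn hfn
  -- the change of variables
  let e : L × L ≃ L × L :=
    { toFun := fun p => (p.1 - p.2, p.2)
      invFun := fun p => (p.1 + p.2, p.2)
      left_inv := fun p => by simp
      right_inv := fun p => by simp }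
  set g : L → ℝ := fun v => Real.exp (-t * ‖toE n (v : V n) + 0‖ ^ 2) with hg
  set h : L → L → ℝ := fun l b =>
    Real.exp (-(4 * t) * ‖toE n (b : V n) + (-(1 / 2 : ℝ)) • toE n (l : V n)‖ ^ 2) with hh
  have key : ∀ p : L × L, f (e p).1 * f (e p).2 = g p.1 * h p.1 p.2 := by
    intro p
    simp only [hf, hg, hh, e, Equiv.coe_fn_mk, ← Real.exp_add]
    congr 1
    have := norm_id_B (toE n (p.1 : V n)) (toE n (p.2 : V n))
    simp only [AddSubgroup.coe_sub, map_sub, add_zero]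
    linear_combination (-t) * this
  have hprod2 : Summable fun p : L × L => g p.1 * h p.1 p.2 := by
    have := (e.summable_iff).2 hprod
    refine this.congr ?_
    intro p
    exact key p
  have h1 : ∑' p : L × L, f p.1 * f p.2 = ∑' p : L × L, g p.1 * h p.1 p.2 := by
    rw [← e.tsum_eq]
    exact tsum_congr key
  have h2 : ∑' p : L × L, g p.1 * h p.1 p.2 = ∑' l : L, g l * ∑' b : L, h l b := by
    rw [hprod2.tsum_prod]
    refine tsum_congr fun l => ?_
    exact tsum_mul_left (f := fun b : L => h l b) (a := g l)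
  rw [h0, h1, h2]
  have hle : ∀ l : L, ∑' b : L, h l b ≤ TH L (4 * t) 0 := fun l => hb4 _
  have hnn : 0 ≤ TH L (4 * t) 0 := tsum_nonneg fun v => (Real.exp_pos _).le
  have hgs : Summable g := hs1 0
  have hR : Summable fun l => g l * TH L (4 * t) 0 := hgs.mul_right _
  have hL : Summable fun l => g l * ∑' b : L, h l b := by
    refine Summable.of_nonneg_of_le (fun l => ?_) (fun l => ?_) hR
    · exact mul_nonneg (Real.exp_pos _).le (tsum_nonneg fun v => (Real.exp_pos _).le)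
    · exact mul_le_mul_of_nonneg_left (hle l) (Real.exp_pos _).le
  calc ∑' l : L, g l * ∑' b : L, h l b ≤ ∑' l : L, g l * TH L (4 * t) 0 :=
        hL.tsum_le_tsum (fun l => mul_le_mul_of_nonneg_left (hle l) (Real.exp_pos _).le) hR
    _ = TH L t 0 * TH L (4 * t) 0 := by
        rw [tsum_mul_right]
        rfl

end Pool.Agent.K6.H81.PF
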