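import Pool.Agent.K6.H81.PF.Stm

/-! Piece C for MP_86f7a7_co: adding one integer vector to a subspace spanned by integer vectors. -/

set_option autoImplicit false

namespace Pool.Agent.K6.H81.PF

open scoped BigOperators InnerProductSpace
open MeasureTheory

namespace PC

lemma gauss_nat (a : ℝ) (ha : 0 < a) (N : ℕ) :
    ∑ i ∈ Finset.range N, Real.exp (-a * ((i : ℝ) + 1) ^ 2) ≤ √(Real.pi / a) / 2 := by
  have h1 : ∑ i ∈ Finset.range N, Real.exp (-a * ((i : ℝ) + 1) ^ 2) ≤
      ∫ x in (0:ℝ)..(N:ℝ), Real.exp (-a * x ^ 2) := by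
    have h := AntitoneOn.sum_le_integral (f := fun x : ℝ => Real.exp (-a * x ^ 2))
      (x₀ := 0) (a := N) (by
        intro x hx y hy hxy
        apply Real.exp_le_exp.mpr
        have h0 : 0 ≤ x := hx.1
        have : x ^ 2 ≤ y ^ 2 := by gcongr
        nlinarith)
    simpa using h
  refine h1.trans ?_
  rw [intervalIntegral.integral_of_le (Nat.cast_nonneg N), ← integral_gaussian_Ioi]
  refine setIntegral_mono_set (integrable_exp_neg_mul_sq ha).integrableOn ?_ ?_
  · exact Filter.Eventually.of_forall fun x => (Real.exp_pos _).le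
  · exact Filter.Eventually.of_forall fun x hx => hx.1

lemma gauss_int (a : ℝ) (ha : 0 < a) :
    (Summable fun m : ℤ => Real.exp (-a * (m : ℝ) ^ 2)) ∧
      ∑' m : ℤ, Real.exp (-a * (m : ℝ) ^ 2) ≤ 1 + √(Real.pi / a) := by
  set g : ℕ → ℝ := fun i => Real.exp (-a * ((i : ℝ) + 1) ^ 2) with hg
  have hg0 : ∀ i, 0 ≤ g i := fun i => (Real.exp_pos _).le
  have hs : Summable g := summable_of_sum_range_le hg0 (gauss_nat a ha)
  have hle : ∑' i, g i ≤ √(Real.pi / a) / 2 :=
    Real.tsum_le_of_sum_range_le hg0 (gauss_nat a ha)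
  have h1 : HasSum (fun i : ℕ => Real.exp (-a * ((i : ℤ) : ℝ) ^ 2)) (1 + ∑' i, g i) := by
    rw [← hasSum_nat_add_iff' 1]
    simpa [hg] using hs.hasSum
  have h2 : HasSum (fun i : ℕ => Real.exp (-a * ((-((i : ℤ) + 1) : ℤ) : ℝ) ^ 2)) (∑' i, g i) := by
    have : (fun i : ℕ => Real.exp (-a * ((-((i : ℤ) + 1) : ℤ) : ℝ) ^ 2)) = g := by
      funext i
      simp only [hg]
      congr 2
      push_cast
      ring
    rw [this]
    exact hs.hasSum
  have h3 := HasSum.of_nat_of_neg_add_one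
    (f := fun m : ℤ => Real.exp (-a * (m : ℝ) ^ 2)) h1 h2
  refine ⟨h3.summable, ?_⟩
  rw [h3.tsum_eq]
  linarith

variable {n k : ℕ}

lemma dd_eq (U : Submodule ℝ (E n)) {u : E n} (hu : u ∈ U) (x : E n) :
    (u + x) - U.starProjection (u + x) = x - U.starProjection x := by
  rw [map_add, Submodule.starProjection_eq_self_iff.mpr hu]
  abel

/-- The functional. -/
noncomputable def ph (U : Submodule ℝ (E n)) (e : E n) : E n →ₗ[ℝ] ℝ :=
  (‖e - U.starProjection e‖ ^ 2)⁻¹ • (innerₛₗ ℝ (e - U.starProjection e))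

lemma ph_apply (U : Submodule ℝ (E n)) (e x : E n) :
    ph U e x = (‖e - U.starProjection e‖ ^ 2)⁻¹ * ⟪e - U.starProjection e, x⟫_ℝ := by
  simp only [ph, LinearMap.smul_apply, innerₛₗ_apply_apply, smul_eq_mul]

lemma ph_mem (U : Submodule ℝ (E n)) (e : E n) {u : E n} (hu : u ∈ U) : ph U e u = 0 := by
  rw [ph_apply]
  have : ⟪e - U.starProjection e, u⟫_ℝ = 0 := by
    apply Submodule.inner_left_of_mem_orthogonal hu
    exact Submodule.sub_starProjection_mem_orthogonal e
  rw [this, mul_zero]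

lemma pos_of_notMem (U : Submodule ℝ (E n)) {e : E n} (he : e ∉ U) :
    0 < ‖e - U.starProjection e‖ := by
  rw [norm_pos_iff]
  intro h
  apply he
  rw [sub_eq_zero] at h
  rw [h]
  exact Submodule.starProjection_apply_mem U e

lemma ph_self (U : Submodule ℝ (E n)) {e : E n} (he : e ∉ U) : ph U e e = 1 := by
  rw [ph_apply]
  have h0 := pos_of_notMem U he
  have h1 : ⟪e - U.starProjection e, e⟫_ℝ = ‖e - U.starProjection e‖ ^ 2 := by
    have h2 : ⟪e - U.starProjection e, U.starProjection e⟫_ℝ = 0 := by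
      apply Submodule.inner_left_of_mem_orthogonal (Submodule.starProjection_apply_mem U e)
      exact Submodule.sub_starProjection_mem_orthogonal e
    have h3 : ⟪e - U.starProjection e, e - U.starProjection e⟫_ℝ =
        ‖e - U.starProjection e‖ ^ 2 := real_inner_self_eq_norm_sq _
    rw [inner_sub_right, h2, sub_zero] at h3
    exact h3
  rw [h1]
  field_simp

lemma decomp (U : Submodule ℝ (E n)) {e : E n} (he : e ∉ U) {x : E n}
    (hx : x ∈ U ⊔ Submodule.span ℝ {e}) : x - ph U e x • e ∈ U := by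
  obtain ⟨u, hu, z, hz, rfl⟩ := Submodule.mem_sup.mp hx
  obtain ⟨r, rfl⟩ := Submodule.mem_span_singleton.mp hz
  rw [map_add, ph_mem U e hu, map_smul, ph_self U he]
  simpa using hu

/-- Finiteness. -/
lemma fin_set (w : Fin k → V n) (y : V n) (hy : toE n y ∉ Sp w) :
    {g : ℝ | (∃ z ∈ LL (Sp w ⊔ Submodule.span ℝ {toE n y}), ph (Sp w) (toE n y) (toE n z) = g) ∧
      0 < g ∧ g ≤ 1}.Finite := by
  set B : V n := fun j => ∑ i, |w i j| + |y j| with hB
  refine ((Set.finite_Icc (-B) B).image fun z => ph (Sp w) (toE n y) (toE n z)).subset ?_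
  rintro g ⟨⟨z, hz, rfl⟩, h0, h1⟩
  have hu := decomp (Sp w) hy (mem_LL.mp hz)
  set g := ph (Sp w) (toE n y) (toE n z) with hg
  obtain ⟨a, ha⟩ := (Submodule.mem_span_range_iff_exists_fun ℝ).mp hu
  have hz' : toE n (z - ∑ i, ⌊a i⌋ • w i) = ∑ i, Int.fract (a i) • toE n (w i) + g • toE n y := by
    rw [map_sub, map_sum]
    have h2 : toE n z = ∑ i, a i • toE n (w i) + g • toE n y := by
      rw [ha]; abel
    rw [h2, add_sub_right_comm, ← Finset.sum_sub_distrib]
    congr 1
    apply Finset.sum_congr rfl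
    intro i _
    rw [map_zsmul, ← Int.cast_smul_eq_zsmul ℝ, ← sub_smul]
    rfl
  refine ⟨z - ∑ i, ⌊a i⌋ • w i, ?_, ?_⟩
  · have key : ∀ j, |(z - ∑ i, ⌊a i⌋ • w i) j| ≤ B j := by
      intro j
      have h3 : (((z - ∑ i, ⌊a i⌋ • w i) j : ℤ) : ℝ) =
          ∑ i, Int.fract (a i) * (w i j : ℝ) + g * (y j : ℝ) := by
        have := congrArg (fun x : E n => x j) hz'
        simpa using this
      have h4 : ((|(z - ∑ i, ⌊a i⌋ • w i) j| : ℤ) : ℝ) ≤ ((B j : ℤ) : ℝ) := by
        rw [Int.cast_abs, h3, hB]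
        push_cast
        refine (abs_add_le _ _).trans (add_le_add ?_ ?_)
        · refine (Finset.abs_sum_le_sum_abs _ _).trans (Finset.sum_le_sum fun i _ => ?_)
          rw [abs_mul, abs_of_nonneg (Int.fract_nonneg _)]
          exact mul_le_of_le_one_left (abs_nonneg _) (Int.fract_lt_one _).le
        · rw [abs_mul, abs_of_pos h0]
          exact mul_le_of_le_one_left (abs_nonneg _) h1
      exact_mod_cast h4
    constructor
    · intro j
      exact (abs_le.mp (key j)).1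
    · intro j
      exact (abs_le.mp (key j)).2
  · simp only
    rw [hz', map_add, map_smul, ph_self _ hy, ph_mem]
    · simp
    · exact Submodule.sum_mem _ fun i _ => Submodule.smul_mem _ _
        (Submodule.subset_span ⟨i, rfl⟩)

lemma le_sup_LL (U W : Submodule ℝ (E n)) {x : V n} (hx : x ∈ LL U) : x ∈ LL (U ⊔ W) :=
  mem_LL.mpr (Submodule.mem_sup_left (mem_LL.mp hx))

/-- The generator. -/
lemma gen (w : Fin k → V n) (y : V n) (hy : toE n y ∉ Sp w) :
    ∃ (c : ℕ) (z : V n), 1 ≤ c ∧ z ∈ LL (Sp w ⊔ Submodule.span ℝ {toE n y}) ∧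
      ph (Sp w) (toE n y) (toE n z) = 1 / c ∧
      ∀ x ∈ LL (Sp w ⊔ Submodule.span ℝ {toE n y}), ∃ m : ℤ,
        ph (Sp w) (toE n y) (toE n x) = m * (1 / c) := by
  set L' := LL (Sp w ⊔ Submodule.span ℝ {toE n y}) with hL'
  set S : AddSubgroup ℝ :=
    L'.map (((ph (Sp w) (toE n y)) : E n →ₗ[ℝ] ℝ).toAddMonoidHom.comp (toE n)) with hS
  have hSmem : ∀ g, g ∈ S ↔ ∃ z ∈ L', ph (Sp w) (toE n y) (toE n z) = g := by
    intro g
    simp [hS, AddSubgroup.mem_map]
  have hyL : y ∈ L' := mem_LL.mpr (Submodule.mem_sup_right (Submodule.mem_span_singleton_self _))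
  have h1S : (1 : ℝ) ∈ S := (hSmem 1).mpr ⟨y, hyL, ph_self _ hy⟩
  have hfin : {g : ℝ | g ∈ S ∧ 0 < g ∧ g ≤ 1}.Finite := by
    have := fin_set w y hy
    refine this.subset ?_
    rintro g ⟨h1, h2, h3⟩
    exact ⟨(hSmem g).mp h1, h2, h3⟩
  obtain ⟨a, ha, hmin⟩ := Set.exists_min_image _ id hfin ⟨1, h1S, one_pos, le_rfl⟩
  have hleast : IsLeast {g : ℝ | g ∈ S ∧ 0 < g} a := by
    refine ⟨⟨ha.1, ha.2.1⟩, ?_⟩
    rintro g ⟨h1, h2⟩
    rcases le_or_gt g 1 with h | h
    · exact hmin g ⟨h1, h2, h⟩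
    · exact ha.2.2.trans h.le
  have hcl := AddSubgroup.cyclic_of_min hleast
  have hmem : ∀ g ∈ S, ∃ m : ℤ, g = m * a := by
    intro g hg
    rw [hcl, AddSubgroup.mem_closure_singleton] at hg
    obtain ⟨m, hm⟩ := hg
    exact ⟨m, by rw [← hm, zsmul_eq_mul]⟩
  obtain ⟨m, hm⟩ := hmem 1 h1S
  have ha0 : 0 < a := ha.2.1
  have hm0 : 0 < m := by
    by_contra hcon
    push Not at hcon
    have : (m : ℝ) ≤ 0 := by exact_mod_cast hcon
    nlinarith
  obtain ⟨c, rfl⟩ := Int.eq_ofNat_of_zero_le hm0.le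
  have hc : 1 ≤ c := by omega
  have hc0 : (0 : ℝ) < c := by exact_mod_cast hc
  have hac : a = 1 / c := by
    rw [eq_div_iff hc0.ne', hm]
    push_cast
    ring
  obtain ⟨z, hz, hza⟩ := (hSmem a).mp ha.1
  refine ⟨c, z, hc, hz, by rw [hza, hac], ?_⟩
  intro x hx
  obtain ⟨m, hm⟩ := hmem _ ((hSmem _).mpr ⟨x, hx, rfl⟩)
  exact ⟨m, by rw [hm, hac]⟩

end PC

open PC in
theorem pieceC (hA : S_A) : S_C := by
  intro n k w y hy
  obtain ⟨c, z, hc, hz, hzc, hall⟩ := gen w y hy
  set U := Sp w with hU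
  set e := toE n y with he
  set L := LL U with hL
  set L' := LL (U ⊔ Submodule.span ℝ {e}) with hL'
  have hc0 : (0 : ℝ) < c := by exact_mod_cast hc
  have hyL : y ∈ L' := mem_LL.mpr (Submodule.mem_sup_right (Submodule.mem_span_singleton_self _))
  have hker : ∀ x ∈ L', ph U e (toE n x) = 0 → x ∈ L := by
    intro x hx h0
    have := decomp U hy (mem_LL.mp hx)
    rw [h0, zero_smul, sub_zero] at this
    exact mem_LL.mpr this
  have hd := pos_of_notMem U hy
  refine ⟨c, z, y - c • z, hc, ?_, by abel, ?_⟩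
  · apply hker
    · exact sub_mem hyL (AddSubgroup.nsmul_mem _ hz c)
    · rw [map_sub, map_nsmul, map_sub, map_nsmul, hzc, ph_self _ hy]
      simp only [nsmul_eq_mul]
      field_simp
      simp
  intro t ht
  -- the bijection
  let f : ℤ × L → L' := fun p => ⟨p.1 • z + (p.2 : V n),
    add_mem (AddSubgroup.zsmul_mem _ hz p.1) (le_sup_LL _ _ p.2.2)⟩
  have hphL : ∀ v : L, ph U e (toE n (v : V n)) = 0 := fun v => ph_mem U e (mem_LL.mp v.2)
  have hf : Function.Bijective f := by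
    constructor
    · rintro ⟨m, v⟩ ⟨m', v'⟩ h
      have h1 : m • z + (v : V n) = m' • z + (v' : V n) := congrArg Subtype.val h
      have h2 := congrArg (fun x => ph U e (toE n x)) h1
      simp only [map_add, map_zsmul, hphL, hzc, add_zero] at h2
      rw [zsmul_eq_mul, zsmul_eq_mul] at h2
      have h3 : (m : ℝ) = m' := mul_right_cancel₀ (by positivity) h2
      have h4 : m = m' := by exact_mod_cast h3
      subst h4
      have h5 : v = v' := Subtype.ext (add_left_cancel h1)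
      rw [h5]
    · rintro ⟨x, hx⟩
      obtain ⟨m, hm⟩ := hall x hx
      have hv : x - m • z ∈ L := by
        apply hker
        · exact sub_mem hx (AddSubgroup.zsmul_mem _ hz m)
        · rw [map_sub, map_zsmul, map_sub, map_zsmul, hzc, hm, zsmul_eq_mul, sub_self]
      refine ⟨⟨m, ⟨_, hv⟩⟩, ?_⟩
      apply Subtype.ext
      simp [f]
  let eq := Equiv.ofBijective f hf
  -- the orthogonal decomposition
  have hzq : toE n z - U.starProjection (toE n z) = (1 / c : ℝ) • (e - U.starProjection e) := by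
    have h1 := decomp U hy (mem_LL.mp hz)
    rw [hzc] at h1
    have h2 : toE n z = (toE n z - (1 / c : ℝ) • e) + (1 / c : ℝ) • e := by abel
    rw [h2, dd_eq U h1, map_smul, smul_sub]
  have hnorm : ∀ (m : ℤ) (v : L), ‖toE n (m • z + (v : V n)) + 0‖ ^ 2 =
      ‖toE n (v : V n) + U.starProjection (m • toE n z)‖ ^ 2 +
        (m : ℝ) ^ 2 * (‖e - U.starProjection e‖ / c) ^ 2 := by
    intro m v
    have h1 : toE n (m • z + (v : V n)) + 0 =
        (toE n (v : V n) + U.starProjection (m • toE n z)) +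
          (m : ℝ) • ((1 / c : ℝ) • (e - U.starProjection e)) := by
      rw [← hzq, smul_sub, map_add, map_zsmul, map_zsmul, Int.cast_smul_eq_zsmul,
        Int.cast_smul_eq_zsmul]
      abel
    have h2 : ⟪toE n (v : V n) + U.starProjection (m • toE n z),
        (m : ℝ) • ((1 / c : ℝ) • (e - U.starProjection e))⟫_ℝ = 0 := by
      apply Submodule.inner_right_of_mem_orthogonal
        (add_mem (mem_LL.mp v.2) (Submodule.starProjection_apply_mem U _))
      apply Submodule.smul_mem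
      apply Submodule.smul_mem
      exact Submodule.sub_starProjection_mem_orthogonal e
    have h3 := norm_add_sq_eq_norm_sq_add_norm_sq_real h2
    rw [h1, sq, h3, norm_smul, norm_smul]
    simp only [Real.norm_eq_abs]
    rw [abs_of_pos (show (0 : ℝ) < 1 / c by positivity)]
    have : |(m : ℝ)| * |(m : ℝ)| = (m : ℝ) ^ 2 := by rw [← sq, sq_abs]
    field_simp
    rw [sq_abs]
    ring
  set b := ‖e - U.starProjection e‖ / c with hb
  have hb0 : 0 < b := by positivity
  obtain ⟨hgs, hgle⟩ := gauss_int (t * b ^ 2) (by positivity)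
  have hsum : Summable fun p : ℤ × L => Real.exp (-t * ‖toE n ((f p : L') : V n) + 0‖ ^ 2) :=
    (eq.summable_iff).mpr ((hA n L' t ht).1 0)
  have hterm : ∀ (m : ℤ) (v : L), Real.exp (-t * ‖toE n ((f (m, v) : L') : V n) + 0‖ ^ 2) =
      Real.exp (-(t * b ^ 2) * (m : ℝ) ^ 2) *
        Real.exp (-t * ‖toE n (v : V n) + U.starProjection (m • toE n z)‖ ^ 2) := by
    intro m v
    rw [← Real.exp_add]
    congr 1
    have := hnorm m v
    simp only [f]
    rw [this]
    ring
  have hT : TH L' t 0 = ∑' m : ℤ, Real.exp (-(t * b ^ 2) * (m : ℝ) ^ 2) *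
      TH L t (U.starProjection (m • toE n z)) := by
    unfold TH
    rw [← eq.tsum_eq]
    have h1 : ∑' p : ℤ × L, Real.exp (-t * ‖toE n ((eq p : L') : V n) + 0‖ ^ 2) =
        ∑' (m : ℤ) (v : L), Real.exp (-t * ‖toE n ((f (m, v) : L') : V n) + 0‖ ^ 2) :=
      hsum.tsum_prod
    rw [h1]
    apply tsum_congr
    intro m
    rw [← tsum_mul_left]
    exact tsum_congr fun v => hterm m v
  have hTH0 : 0 ≤ TH L t 0 := tsum_nonneg fun v => (Real.exp_pos _).le
  have hTHx : ∀ x, 0 ≤ TH L t x := fun x => tsum_nonneg fun v => (Real.exp_pos _).le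
  have hle1 : TH L' t 0 ≤ ∑' m : ℤ, Real.exp (-(t * b ^ 2) * (m : ℝ) ^ 2) * TH L t 0 := by
    rw [hT]
    have hle : ∀ m : ℤ, Real.exp (-(t * b ^ 2) * (m : ℝ) ^ 2) *
        TH L t (U.starProjection (m • toE n z)) ≤
          Real.exp (-(t * b ^ 2) * (m : ℝ) ^ 2) * TH L t 0 := fun m =>
      mul_le_mul_of_nonneg_left ((hA n L t ht).2 _) (Real.exp_pos _).le
    have hs2 : Summable fun m : ℤ => Real.exp (-(t * b ^ 2) * (m : ℝ) ^ 2) * TH L t 0 :=
      hgs.mul_right _
    exact Summable.tsum_le_tsum hle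
      (Summable.of_nonneg_of_le (fun m => mul_nonneg (Real.exp_pos _).le (hTHx _)) hle hs2) hs2
  rw [tsum_mul_right] at hle1
  refine hle1.trans ?_
  rw [mul_comm]
  apply mul_le_mul_of_nonneg_left _ hTH0
  refine hgle.trans (le_of_eq ?_)
  congr 1
  rw [show Real.pi / (t * b ^ 2) = (Real.pi / t) / b ^ 2 by field_simp,
    Real.sqrt_div (by positivity), Real.sqrt_sq hb0.le, hb]
  unfold dd
  field_simp

end Pool.Agent.K6.H81.PF
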