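import Pool.Agent.K6.H81.PF.Stm

set_option autoImplicit false

namespace Pool.Agent.K6.H81.PF

theorem dd_add_mem_E {n : ℕ} (U : Submodule ℝ (E n)) (x u : E n) (hu : u ∈ U) :
    dd U (x + u) = dd U x := by
  have h : U.starProjection u = u := Submodule.starProjection_eq_self_iff.2 hu
  rw [dd, dd, map_add, h, add_sub_add_right_eq_sub]

theorem dd_smul_E {n : ℕ} (U : Submodule ℝ (E n)) (x : E n) (c : ℝ) (hc : 0 ≤ c) :
    dd U (c • x) = c * dd U x := by
  rw [dd, dd, map_smul, ← smul_sub, norm_smul, Real.norm_eq_abs, abs_of_nonneg hc]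

theorem dd_mem_E {n : ℕ} (U : Submodule ℝ (E n)) (x : E n) (hx : x ∈ U) : dd U x = 0 := by
  have h : U.starProjection x = x := Submodule.starProjection_eq_self_iff.2 hx
  rw [dd, h, sub_self, norm_zero]

theorem dd_le_norm_E {n : ℕ} (U : Submodule ℝ (E n)) (x : E n) : dd U x ≤ ‖x‖ := by
  have h : x - U.starProjection x = Uᗮ.starProjection x := by
    rw [Submodule.starProjection_orthogonal_val]
  rw [dd, h]
  exact Submodule.norm_starProjection_apply_le _ _

theorem norm_box_E {n R : ℕ} {x : V n} (hx : x ∈ Box n R) : ‖toE n x‖ ≤ R * √n := by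
  rw [mem_Box] at hx
  rw [EuclideanSpace.norm_eq]
  have h1 : ∑ i, ‖(toE n x) i‖ ^ 2 ≤ (R : ℝ) ^ 2 * n := by
    calc ∑ i, ‖(toE n x) i‖ ^ 2 ≤ ∑ _i : Fin n, (R : ℝ) ^ 2 := by
          refine Finset.sum_le_sum fun i _ => ?_
          refine pow_le_pow_left₀ (norm_nonneg _) ?_ 2
          rw [toE_apply, Real.norm_eq_abs]
          have := hx i
          exact_mod_cast this
      _ = (R : ℝ) ^ 2 * n := by
          rw [Finset.sum_const, Finset.card_univ, Fintype.card_fin, nsmul_eq_mul]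
          ring
  calc √(∑ i, ‖(toE n x) i‖ ^ 2) ≤ √((R : ℝ) ^ 2 * n) := Real.sqrt_le_sqrt h1
    _ = R * √n := by rw [Real.sqrt_mul (by positivity), Real.sqrt_sq (by positivity)]

theorem box_of_norm_E {n S : ℕ} {x : V n} (hx : ‖toE n x‖ ≤ S) : x ∈ Box n S := by
  rw [mem_Box]
  intro i
  have h1 : ‖(toE n x) i‖ ≤ ‖toE n x‖ := PiLp.norm_apply_le _ i
  rw [toE_apply, Real.norm_eq_abs] at h1
  have h2 : |((x i : ℤ) : ℝ)| ≤ S := h1.trans hx
  exact_mod_cast h2

theorem finrank_Sp_E {n k : ℕ} (w : Fin k → V n) : Module.finrank ℝ (Sp w) ≤ k := by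
  have h := finrank_range_le_card (R := ℝ) (fun i => toE n (w i))
  rw [Fintype.card_fin] at h
  exact h

theorem Sp_cons_E {n k : ℕ} (y : V n) (w : Fin k → V n) :
    Sp (Fin.cons y w : Fin (k + 1) → V n) = Sp w ⊔ Submodule.span ℝ {toE n y} := by
  have h : (Set.range fun i => toE n ((Fin.cons y w : Fin (k + 1) → V n) i)) =
      insert (toE n y) (Set.range fun i => toE n (w i)) := by
    have : (fun i => toE n ((Fin.cons y w : Fin (k + 1) → V n) i)) =
        (Fin.cons (toE n y) (fun i => toE n (w i)) : Fin (k + 1) → E n) := by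
      funext i
      refine Fin.cases ?_ (fun j => ?_) i <;> simp
    rw [this, Fin.range_cons]
  rw [Sp, h, Submodule.span_insert, sup_comm]
  rfl

/-- Reduction of an integer vector modulo the vectors `w`. -/
theorem reduce_E {n k R : ℕ} (w : Fin k → V n) (hw : ∀ i, w i ∈ Box n R) (z : V n) :
    ∃ z0 : V n, toE n z - toE n z0 ∈ Sp w ∧ ‖toE n z0‖ ≤ dd (Sp w) (toE n z) + k * (R * √n) := by
  have hP : (Sp w).starProjection (toE n z) ∈ Sp w := Submodule.starProjection_apply_mem _ _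
  have hP' : (Sp w).starProjection (toE n z) ∈
      Submodule.span ℝ (Set.range fun i => toE n (w i)) := hP
  rw [Submodule.mem_span_range_iff_exists_fun] at hP'
  obtain ⟨c, hc⟩ := hP'
  refine ⟨z - ∑ i, ⌊c i⌋ • w i, ?_, ?_⟩
  · rw [map_sub, sub_sub_cancel, map_sum]
    refine Submodule.sum_mem _ fun i _ => ?_
    rw [map_zsmul]
    have hi : toE n (w i) ∈ Sp w := Submodule.subset_span ⟨i, rfl⟩
    exact zsmul_mem hi _
  · have h1 : toE n (z - ∑ i, ⌊c i⌋ • w i) =
        (toE n z - (Sp w).starProjection (toE n z)) + ∑ i, (Int.fract (c i)) • toE n (w i) := by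
      rw [map_sub, map_sum, ← hc]
      have : ∑ i, c i • toE n (w i) = ∑ i, toE n (⌊c i⌋ • w i) +
          ∑ i, (Int.fract (c i)) • toE n (w i) := by
        rw [← Finset.sum_add_distrib]
        refine Finset.sum_congr rfl fun i _ => ?_
        rw [map_zsmul, ← Int.cast_smul_eq_zsmul ℝ, ← add_smul, Int.floor_add_fract]
      rw [this]
      abel
    rw [h1]
    refine (norm_add_le _ _).trans (add_le_add le_rfl ?_)
    calc ‖∑ i, (Int.fract (c i)) • toE n (w i)‖ ≤ ∑ i, ‖(Int.fract (c i)) • toE n (w i)‖ :=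
          norm_sum_le _ _
      _ ≤ ∑ _i : Fin k, (R * √n) := by
          refine Finset.sum_le_sum fun i _ => ?_
          rw [norm_smul, Real.norm_eq_abs, abs_of_nonneg (Int.fract_nonneg _)]
          calc Int.fract (c i) * ‖toE n (w i)‖ ≤ 1 * (R * √n) :=
                mul_le_mul (Int.fract_lt_one _).le (norm_box_E (hw i)) (norm_nonneg _) zero_le_one
            _ = R * √n := one_mul _
      _ = k * (R * √n) := by
          rw [Finset.sum_const, Finset.card_univ, Fintype.card_fin, nsmul_eq_mul]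

open Classical in
/-- The integer vectors of the box at distance at most `√n` from a subspace of dimension at most
`m`. -/
theorem near_E (hD : S_D) (n R m : ℕ) (hn : 1 ≤ n) (hR : 1 ≤ R) (U : Submodule ℝ (E n))
    (hU : Module.finrank ℝ U ≤ m) :
    (((Box n (4 * R)).filter fun y => dd U (toE n y) ≤ √n).card : ℝ) ≤
      Real.exp (55 * n) * (R : ℝ) ^ m := by
  have h := hD n R hn hR U (√n) le_rfl
  have hn0 : √(n : ℝ) ≠ 0 := by
    have : (0 : ℝ) < n := by exact_mod_cast hn
    exact (Real.sqrt_pos.2 this).ne'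
  rw [div_self hn0, one_pow, mul_one] at h
  refine h.trans ?_
  refine mul_le_mul_of_nonneg_left ?_ (Real.exp_pos _).le
  exact pow_le_pow_right₀ (by exact_mod_cast hR) hU

/-- Piece E. -/
theorem pieceE (hD : S_D) : S_E := by
  classical
  intro n k hnk
  refine ⟨Real.exp (55 * n) + Real.exp (55 * n) * ((((k + 1) * n : ℕ) : ℝ)) ^ k *
    Real.exp (55 * n), fun R hR w hw => ?_⟩
  have hn : 1 ≤ n := by omega
  have hR1 : (1 : ℝ) ≤ R := by exact_mod_cast hR
  have hn1 : (1 : ℝ) ≤ n := by exact_mod_cast hn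
  have hsn : 1 ≤ √(n : ℝ) := by
    rw [Real.one_le_sqrt]
    exact hn1
  have hsn2 : √(n : ℝ) ≤ n := by
    rw [Real.sqrt_le_left (by positivity)]
    nlinarith
  set R' : ℕ := R * ((k + 1) * n) with hR'
  have hR'1 : 1 ≤ R' := by
    rw [hR']
    exact Nat.one_le_iff_ne_zero.2 (by positivity)
  set Z : Finset (V n) := (Box n (4 * R')).filter fun y => dd (Sp w) (toE n y) ≤ √n with hZ
  set N : (V n) → Finset (V n) := fun z0 => (Box n (4 * R)).filter fun y =>
    dd (Sp (Fin.cons z0 w : Fin (k + 1) → V n)) (toE n y) ≤ √n with hN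
  have hsub : ((Box n (4 * R)).filter fun y => toE n y ∉ Sp w ∧ (dd (Sp w) (toE n y) < √n ∨
      ∃ (c : ℕ) (z l : V n), 8 * R < c ∧ l ∈ LL (Sp w) ∧ y = c • z + l)) ⊆
      ((Box n (4 * R)).filter fun y => dd (Sp w) (toE n y) ≤ √n) ∪ Z.biUnion N := by
    intro y hy
    rw [Finset.mem_filter] at hy
    obtain ⟨hbox, hyU, h | ⟨c, z, l, hc, hl, hyc⟩⟩ := hy
    · exact Finset.mem_union_left _ (Finset.mem_filter.2 ⟨hbox, h.le⟩)
    · refine Finset.mem_union_right _ ?_
      rw [Finset.mem_biUnion]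
      have hc0 : (8 * R : ℝ) < c := by exact_mod_cast hc
      have hcpos : (0 : ℝ) < c := by linarith
      have hy1 : toE n y = (c : ℝ) • toE n z + toE n l := by
        rw [hyc, map_add, map_nsmul, ← Nat.cast_smul_eq_nsmul ℝ]
      have hdy : dd (Sp w) (toE n y) = c * dd (Sp w) (toE n z) := by
        rw [hy1, dd_add_mem_E _ _ _ hl, dd_smul_E _ _ _ hcpos.le]
      have hdle : dd (Sp w) (toE n y) ≤ 4 * R * √n := by
        refine (dd_le_norm_E _ _).trans ?_
        have := norm_box_E hbox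
        push_cast at this
        exact this
      have hdz : dd (Sp w) (toE n z) ≤ √n := by
        by_contra hcon
        push Not at hcon
        have h1 : (8 * R : ℝ) * √n < c * dd (Sp w) (toE n z) :=
          mul_lt_mul'' hc0 hcon (by positivity) (by positivity)
        rw [← hdy] at h1
        have h2 : (0 : ℝ) < R * √n := by positivity
        nlinarith
      obtain ⟨z0, hz0, hz0n⟩ := reduce_E w hw z
      refine ⟨z0, ?_, ?_⟩
      · rw [hZ, Finset.mem_filter]
        refine ⟨box_of_norm_E ?_, ?_⟩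
        · refine hz0n.trans ?_
          rw [hR']
          push_cast
          calc dd (Sp w) (toE n z) + k * (4 * R * √n) ≤ √n + k * (4 * R * √n) := by linarith
            _ ≤ 4 * R * √n + k * (4 * R * √n) := by nlinarith
            _ = 4 * (R * ((k + 1) * √n)) := by ring
            _ ≤ 4 * (R * ((k + 1) * n)) := by gcongr
        · have : toE n z0 = toE n z + -(toE n z - toE n z0) := by abel
          rw [this, dd_add_mem_E _ _ _ (neg_mem hz0)]
          exact hdz
      · rw [hN]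
        simp only [Finset.mem_filter]
        refine ⟨hbox, ?_⟩
        rw [dd_mem_E]
        · positivity
        · rw [Sp_cons_E, hy1]
          have h1 : toE n z0 ∈ Sp w ⊔ Submodule.span ℝ {toE n z0} :=
            Submodule.mem_sup_right (Submodule.mem_span_singleton_self _)
          have h2 : toE n z - toE n z0 ∈ Sp w ⊔ Submodule.span ℝ {toE n z0} :=
            Submodule.mem_sup_left hz0
          have h3 : toE n l ∈ Sp w ⊔ Submodule.span ℝ {toE n z0} :=
            Submodule.mem_sup_left hl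
          have h4 : toE n z = toE n z0 + (toE n z - toE n z0) := by abel
          rw [h4]
          exact add_mem (Submodule.smul_mem _ _ (add_mem h1 h2)) h3
  have hc1 : (((Box n (4 * R)).filter fun y => toE n y ∉ Sp w ∧ (dd (Sp w) (toE n y) < √n ∨
      ∃ (c : ℕ) (z l : V n), 8 * R < c ∧ l ∈ LL (Sp w) ∧ y = c • z + l)).card : ℝ) ≤
      ((Box n (4 * R)).filter fun y => dd (Sp w) (toE n y) ≤ √n).card +
        ∑ z0 ∈ Z, ((N z0).card : ℝ) := by
    have h1 := (Finset.card_le_card hsub).trans (Finset.card_union_le _ _)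
    have h2 : (Z.biUnion N).card ≤ ∑ z0 ∈ Z, (N z0).card := Finset.card_biUnion_le
    have h3 := h1.trans (Nat.add_le_add_left h2 _)
    exact_mod_cast h3
  have hc2 : (((Box n (4 * R)).filter fun y => dd (Sp w) (toE n y) ≤ √n).card : ℝ) ≤
      Real.exp (55 * n) * (R : ℝ) ^ (n - 1) :=
    near_E hD n R (n - 1) hn hR _ ((finrank_Sp_E w).trans (by omega))
  have hc3 : (Z.card : ℝ) ≤ Real.exp (55 * n) * (R' : ℝ) ^ k :=
    near_E hD n R' k hn hR'1 _ (finrank_Sp_E w)
  have hc4 : ∑ z0 ∈ Z, ((N z0).card : ℝ) ≤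
      (Real.exp (55 * n) * (R' : ℝ) ^ k) * (Real.exp (55 * n) * (R : ℝ) ^ (k + 1)) := by
    calc ∑ z0 ∈ Z, ((N z0).card : ℝ) ≤ ∑ _z0 ∈ Z, Real.exp (55 * n) * (R : ℝ) ^ (k + 1) :=
          Finset.sum_le_sum fun z0 _ => near_E hD n R (k + 1) hn hR _ (finrank_Sp_E _)
      _ = (Z.card : ℝ) * (Real.exp (55 * n) * (R : ℝ) ^ (k + 1)) := by
          rw [Finset.sum_const, nsmul_eq_mul]
      _ ≤ _ := mul_le_mul_of_nonneg_right hc3 (by positivity)
  have hR'e : (R' : ℝ) ^ k = (R : ℝ) ^ k * ((((k + 1) * n : ℕ) : ℝ)) ^ k := by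
    rw [hR', Nat.cast_mul, mul_pow]
  have hpow : (R : ℝ) ^ k * (R : ℝ) ^ (k + 1) ≤ (R : ℝ) ^ (n - 1) := by
    rw [← pow_add]
    exact pow_le_pow_right₀ hR1 (by omega)
  calc _ ≤ _ := hc1
    _ ≤ Real.exp (55 * n) * (R : ℝ) ^ (n - 1) +
        (Real.exp (55 * n) * (R' : ℝ) ^ k) * (Real.exp (55 * n) * (R : ℝ) ^ (k + 1)) :=
        add_le_add hc2 hc4
    _ = Real.exp (55 * n) * (R : ℝ) ^ (n - 1) +
        Real.exp (55 * n) * ((((k + 1) * n : ℕ) : ℝ)) ^ k * Real.exp (55 * n) *
          ((R : ℝ) ^ k * (R : ℝ) ^ (k + 1)) := by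
        rw [hR'e]
        ring
    _ ≤ Real.exp (55 * n) * (R : ℝ) ^ (n - 1) +
        Real.exp (55 * n) * ((((k + 1) * n : ℕ) : ℝ)) ^ k * Real.exp (55 * n) *
          (R : ℝ) ^ (n - 1) := by
        gcongr
    _ = _ := by ring

end Pool.Agent.K6.H81.PF
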