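import Pool.Agent.K6.H81.PF.Stm

/-! Piece F: there are few integer vectors in the box that are in `c Z^n + LL (Sp w)` (helper30). -/

set_option autoImplicit false

namespace Pool.Agent.K6.H81.PF

open Finset

/-- A subspace has a set of at most `dim U` coordinates that separate its points. -/
theorem exists_coords {n : ℕ} : ∀ (d : ℕ) (U : Submodule ℝ (E n)), Module.finrank ℝ U ≤ d →
    ∃ J : Finset (Fin n), J.card ≤ d ∧ ∀ x ∈ U, (∀ j ∈ J, x j = 0) → x = 0 := by
  classical
  intro d
  induction d with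
  | zero =>
    intro U hU
    refine ⟨∅, le_refl _, fun x hx _ => ?_⟩
    have h1 : U = ⊥ := Submodule.finrank_eq_zero.1 (Nat.le_zero.1 hU)
    rwa [h1, Submodule.mem_bot] at hx
  | succ d ih =>
    intro U hU
    by_cases h : ∀ x ∈ U, x = 0
    · exact ⟨∅, Nat.zero_le _, fun x hx _ => h x hx⟩
    · push Not at h
      obtain ⟨x0, hx0, hx1⟩ := h
      obtain ⟨j, hj⟩ : ∃ j, x0 j ≠ 0 := by
        by_contra hcon
        push Not at hcon
        exact hx1 (by ext j; simpa using hcon j)
      let e : E n →ₗ[ℝ] ℝ :=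
        { toFun := fun x => x j
          map_add' := fun x y => rfl
          map_smul' := fun c x => rfl }
      have hlt : U ⊓ LinearMap.ker e < U := by
        refine lt_of_le_of_ne inf_le_left fun h => ?_
        have : x0 ∈ U ⊓ LinearMap.ker e := by rw [h]; exact hx0
        exact hj this.2
      have hfin : Module.finrank ℝ (U ⊓ LinearMap.ker e : Submodule ℝ (E n)) < Module.finrank ℝ U :=
        Submodule.finrank_lt_finrank_of_lt hlt
      obtain ⟨J, hJ, hJ1⟩ := ih (U ⊓ LinearMap.ker e) (by omega)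
      refine ⟨insert j J, (card_insert_le _ _).trans (by omega), fun x hx hxJ => ?_⟩
      refine hJ1 x ⟨hx, ?_⟩ fun i hi => hxJ i (mem_insert_of_mem hi)
      exact hxJ j (mem_insert_self _ _)

/-- the dimension of the span -/
theorem finrank_Sp {n k : ℕ} (w : Fin k → V n) : Module.finrank ℝ (Sp w) ≤ k := by
  have h := finrank_range_le_card (R := ℝ) (fun i => toE n (w i))
  rwa [Fintype.card_fin] at h

/-- the integer vectors in a subspace form a group with few generators -/
theorem exists_gens {n k : ℕ} (w : Fin k → V n) : ∃ (r : ℕ) (b : Fin r → V n), r ≤ k ∧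
    ∀ x ∈ LL (Sp w), ∃ a : Fin r → ℤ, x = ∑ i, a i • b i := by
  classical
  obtain ⟨J, hJ, hJ1⟩ := exists_coords k (Sp w) (finrank_Sp w)
  let L : Submodule ℤ (Fin n → ℤ) := AddSubgroup.toIntSubmodule (LL (Sp w))
  let π : L →ₗ[ℤ] (J → ℤ) :=
    { toFun := fun x j => (x : Fin n → ℤ) j
      map_add' := fun x y => rfl
      map_smul' := fun c x => rfl }
  have hπ : Function.Injective π := by
    rw [← LinearMap.ker_eq_bot, LinearMap.ker_eq_bot']
    intro x hx
    have h1 : toE n (x : V n) = 0 := by
      refine hJ1 _ x.2 fun j hj => ?_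
      have h2 : (x : Fin n → ℤ) j = 0 := congrFun hx ⟨j, hj⟩
      rw [toE_apply, h2, Int.cast_zero]
    apply Subtype.ext
    funext j
    have h3 : toE n (x : V n) j = 0 := by rw [h1]; rfl
    rw [toE_apply] at h3
    change (x : Fin n → ℤ) j = 0
    exact Int.cast_eq_zero.1 h3
  have hr : Module.finrank ℤ L ≤ k := by
    refine (LinearMap.finrank_le_finrank_of_injective hπ).trans ?_
    rw [Module.finrank_fintype_fun_eq_card, Fintype.card_coe]
    exact hJ
  let b := Module.finBasis ℤ L
  refine ⟨Module.finrank ℤ L, fun i => (b i : V n), hr, fun x hx => ?_⟩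
  refine ⟨fun i => b.repr ⟨x, hx⟩ i, ?_⟩
  have h4 := congrArg (Subtype.val : L → V n) (b.sum_repr ⟨x, hx⟩)
  simp only [Submodule.coe_sum, Submodule.coe_smul] at h4
  exact h4.symm

/-- the number of the integers of an interval in a residue class -/
theorem card_class (c R : ℕ) (hc : 1 ≤ c) (a : ZMod c) :
    ((Icc (-(4 * R : ℤ)) (4 * R)).filter fun x : ℤ => (x : ZMod c) = a).card ≤ 8 * R / c + 1 := by
  obtain ⟨S, hS⟩ : ∃ S, S = (Icc (-(4 * R : ℤ)) (4 * R)).filter fun x : ℤ => (x : ZMod c) = a :=
    ⟨_, rfl⟩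
  rw [← hS]
  rcases S.eq_empty_or_nonempty with h | h
  · rw [h, card_empty]
    exact Nat.zero_le _
  · have hc0 : (0 : ℤ) < c := by exact_mod_cast hc
    have h0 := S.min'_mem h
    obtain ⟨x0, hx0⟩ : ∃ x0, x0 = S.min' h := ⟨_, rfl⟩
    rw [← hx0] at h0
    have hdvd : ∀ x ∈ S, (c : ℤ) ∣ x - x0 := by
      intro x hx
      rw [hS, mem_filter] at hx h0
      rw [← ZMod.intCast_zmod_eq_zero_iff_dvd, Int.cast_sub, hx.2, h0.2, sub_self]
    have hle : ∀ x ∈ S, 0 ≤ x - x0 := by
      intro x hx
      rw [hx0]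
      linarith [S.min'_le x hx]
    have hle2 : ∀ x ∈ S, x - x0 ≤ 8 * R := by
      intro x hx
      rw [hS, mem_filter, mem_Icc] at hx h0
      linarith [hx.1.2, h0.1.1]
    rw [← card_range (8 * R / c + 1)]
    refine card_le_card_of_injOn (fun x => ((x - x0) / c).toNat) ?_ ?_
    · intro x hx
      rw [mem_coe] at hx
      rw [mem_coe, mem_range, Nat.lt_add_one_iff]
      have h1 : (x - x0) / c ≤ ((8 * R / c : ℕ) : ℤ) := by
        push_cast
        exact Int.ediv_le_ediv hc0 (hle2 x hx)
      show ((x - x0) / c).toNat ≤ 8 * R / c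
      generalize 8 * R / c = q at h1 ⊢
      omega
    · intro x hx y hy hxy
      rw [mem_coe] at hx hy
      obtain ⟨s, hs⟩ := hdvd x hx
      obtain ⟨t, ht⟩ := hdvd y hy
      have h1 := hle x hx
      have h2 := hle y hy
      have e1 : (x - x0) / c = s := by rw [hs]; exact Int.mul_ediv_cancel_left _ hc0.ne'
      have e2 : (y - x0) / c = t := by rw [ht]; exact Int.mul_ediv_cancel_left _ hc0.ne'
      change ((x - x0) / c).toNat = ((y - x0) / c).toNat at hxy
      rw [e1, e2] at hxy
      have hs0 : 0 ≤ s := by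
        rw [hs] at h1
        exact nonneg_of_mul_nonneg_right h1 hc0
      have ht0 : 0 ≤ t := by
        rw [ht] at h2
        exact nonneg_of_mul_nonneg_right h2 hc0
      have : s = t := by omega
      rw [this] at hs
      linarith

open Classical in
theorem pieceF : S_F := by
  intro n R k c hk hc hcR w
  obtain ⟨r, b, hr, hb⟩ := exists_gens w
  have : NeZero c := ⟨by omega⟩
  -- the residue classes
  let red : V n → (Fin n → ZMod c) := fun x j => (x j : ZMod c)
  let g : (Fin r → ZMod c) → (Fin n → ZMod c) := fun a => ∑ i, a i • red (b i)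
  let Y := (Box n (4 * R)).filter fun y => ∃ z l : V n, l ∈ LL (Sp w) ∧ y = c • z + l
  have h1 : ∀ y ∈ Y, red y ∈ (univ : Finset (Fin r → ZMod c)).image g := by
    intro y hy
    obtain ⟨-, z, l, hl, hyz⟩ := mem_filter.1 hy
    obtain ⟨a, ha⟩ := hb l hl
    refine mem_image.2 ⟨fun i => (a i : ZMod c), mem_univ _, ?_⟩
    funext j
    have h2 : y j = c * z j + ∑ i, a i * b i j := by
      rw [hyz, ha]
      simp [Finset.sum_apply]
    show (∑ i, ((a i : ℤ) : ZMod c) • red (b i)) j = ((y j : ℤ) : ZMod c)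
    rw [h2, Finset.sum_apply]
    push_cast
    simp [red]
  have h2 : ∀ t ∈ (univ : Finset (Fin r → ZMod c)).image g,
      (Y.filter fun y => red y = t).card ≤ (8 * R / c + 1) ^ n := by
    intro t _
    have h3 : (Y.filter fun y => red y = t) ⊆ Fintype.piFinset fun j =>
        (Icc (-(4 * R : ℤ)) (4 * R)).filter fun x : ℤ => (x : ZMod c) = t j := by
      intro y hy
      obtain ⟨hyY, hyt⟩ := mem_filter.1 hy
      obtain ⟨hyB, -⟩ := mem_filter.1 hyY
      rw [Fintype.mem_piFinset]
      intro j
      rw [mem_filter, mem_Icc]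
      have h4 := mem_Box.1 hyB j
      rw [abs_le] at h4
      push_cast at h4
      exact ⟨h4, congrFun hyt j⟩
    refine (card_le_card h3).trans ?_
    rw [Fintype.card_piFinset]
    refine (prod_le_prod' fun j _ => card_class c R hc (t j)).trans ?_
    rw [prod_const, card_univ, Fintype.card_fin]
  have h3 : Y.card ≤ c ^ k * (8 * R / c + 1) ^ n := by
    rw [card_eq_sum_card_fiberwise (f := red) h1]
    refine (sum_le_card_nsmul _ _ _ h2).trans ?_
    rw [smul_eq_mul]
    refine Nat.mul_le_mul_right _ ?_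
    refine card_image_le.trans ?_
    rw [card_univ, Fintype.card_fun, ZMod.card, Fintype.card_fin]
    exact Nat.pow_le_pow_right hc hr
  calc Y.card * c ^ (n - k) ≤ (c ^ k * (8 * R / c + 1) ^ n) * c ^ (n - k) :=
        Nat.mul_le_mul_right _ h3
    _ = (c * (8 * R / c + 1)) ^ n := by
        have : c ^ k * c ^ (n - k) = c ^ n := by rw [← pow_add]; congr 1; omega
        rw [mul_pow, ← this]
        ring
    _ ≤ (16 * R) ^ n := by
        refine Nat.pow_le_pow_left ?_ n
        rw [mul_add, mul_one]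
        have := Nat.mul_div_le (8 * R) c
        omega

end Pool.Agent.K6.H81.PF
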