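import Pool.Agent.K6.H81.PF.Stm

/-! Piece G: the moment. -/

set_option autoImplicit false

namespace Pool.Agent.K6.H81.PF

open scoped BigOperators

namespace G

theorem norm_toE_le {n R : ℕ} {y : V n} (hy : y ∈ Box n (4 * R)) :
    ‖toE n y‖ ≤ 4 * R * √n := by
  have h := mem_Box.mp hy
  rw [EuclideanSpace.norm_eq]
  have h1 : ∑ i, ‖(toE n y) i‖ ^ 2 ≤ (4 * R * √n) ^ 2 := by
    have h2 : ∀ i ∈ (Finset.univ : Finset (Fin n)), ‖(toE n y) i‖ ^ 2 ≤ (4 * (R : ℝ)) ^ 2 := by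
      intro i _
      have h3 : |(y i : ℝ)| ≤ 4 * R := by
        have := h i
        exact_mod_cast this
      rw [toE_apply, Real.norm_eq_abs]
      gcongr
    calc ∑ i, ‖(toE n y) i‖ ^ 2 ≤ ∑ i : Fin n, (4 * (R : ℝ)) ^ 2 := Finset.sum_le_sum h2
      _ = (4 * R * √n) ^ 2 := by
        rw [Finset.sum_const, Finset.card_univ, Fintype.card_fin, nsmul_eq_mul, mul_pow _ (√n),
          Real.sq_sqrt (by positivity)]
        ring
  calc √(∑ i, ‖(toE n y) i‖ ^ 2) ≤ √((4 * R * √n) ^ 2) := Real.sqrt_le_sqrt h1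
    _ = 4 * R * √n := Real.sqrt_sq (by positivity)

theorem dd_le {n : ℕ} (U : Submodule ℝ (E n)) (x : E n) : dd U x ≤ ‖x‖ := by
  unfold dd
  have h := Submodule.norm_sq_eq_add_norm_sq_starProjection x U
  have h2 : Uᗮ.starProjection x = x - U.starProjection x := by
    have := Submodule.starProjection_add_starProjection_orthogonal (K := U) x
    rw [← this]
    simp
  rw [h2] at h
  have h3 : ‖x - U.starProjection x‖ ^ 2 ≤ ‖x‖ ^ 2 := by nlinarith [sq_nonneg ‖U.starProjection x‖]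
  exact le_of_sq_le_sq h3 (norm_nonneg _)

theorem sum_inv_sq (N : ℕ) : ∑ j ∈ Finset.Icc 1 N, (1 : ℝ) / (j : ℝ) ^ 2 ≤ 2 := by
  have key : ∀ N : ℕ, ∑ j ∈ Finset.Icc 1 (N + 1), (1 : ℝ) / (j : ℝ) ^ 2 ≤ 2 - 1 / (N + 1 : ℝ) := by
    intro N
    induction N with
    | zero => norm_num
    | succ N ih =>
      rw [Finset.sum_Icc_succ_top (by omega)]
      have h1 : (1 : ℝ) / ((N + 1 + 1 : ℕ) : ℝ) ^ 2 ≤ 1 / (N + 1 : ℝ) - 1 / (N + 2 : ℝ) := by
        rw [div_sub_div _ _ (by positivity) (by positivity), div_le_div_iff₀ (by positivity)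
          (by positivity)]
        push_cast
        nlinarith
      push_cast at h1 ⊢
      have h2 : (N : ℝ) + 1 + 1 = N + 2 := by ring
      rw [h2] at h1 ⊢
      linarith
  rcases N with _ | N
  · simp
  · refine (key N).trans ?_
    have : 0 ≤ 1 / (N + 1 : ℝ) := by positivity
    linarith

theorem sum_inv_pow (N : ℕ) : ∑ j ∈ Finset.range N, (1 : ℝ) / 2 ^ j ≤ 2 := by
  have key : ∀ N : ℕ, ∑ j ∈ Finset.range N, (1 : ℝ) / 2 ^ j = 2 - 2 / 2 ^ N := by
    intro N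
    induction N with
    | zero => norm_num
    | succ N ih =>
      rw [Finset.sum_range_succ, ih, pow_succ]
      field_simp
      ring
  rw [key]
  have : 0 ≤ 2 / (2 : ℝ) ^ N := by positivity
  linarith

/-- Elementary inequality for one term. -/
theorem term_le {X A B : ℝ} (α : ℕ) (_ : 0 ≤ A) (_ : 0 ≤ B) (hX : X = A * B)
    (h : 1 ≤ 4 * X) :
    (1 + X) ^ α ≤ 5 ^ α / 2 * (A ^ (2 * α) + B ^ (2 * α)) := by
  have h1 : (1 + X) ^ α ≤ (5 * X) ^ α := by
    apply pow_le_pow_left₀ <;> linarith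
  refine h1.trans ?_
  rw [mul_pow, hX, mul_pow]
  have h2 : A ^ α * B ^ α ≤ (A ^ (2 * α) + B ^ (2 * α)) / 2 := by
    have := sq_nonneg (A ^ α - B ^ α)
    rw [mul_comm 2 α, pow_mul, pow_mul]
    nlinarith
  have h3 : (0 : ℝ) ≤ 5 ^ α := by positivity
  calc 5 ^ α * (A ^ α * B ^ α) ≤ 5 ^ α * ((A ^ (2 * α) + B ^ (2 * α)) / 2) := by gcongr
    _ = _ := by ring

open Classical in
/-- The first sum. -/
theorem sum_one (hF : S_F) {n k R α : ℕ} (hn : n = 8 * α) (hα : 1 ≤ α) (hk : 8 * k ≤ n)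
    (w : Fin k → V n) (c : V n → ℕ) (S : Finset (V n)) (hS : S ⊆ Box n (4 * R))
    (hc : ∀ y ∈ S, 1 ≤ c y ∧ c y ≤ 8 * R ∧ ∃ z l : V n, l ∈ LL (Sp w) ∧ y = c y • z + l) :
    ∑ y ∈ S, (c y : ℝ) ^ (2 * α) ≤ 2 * (16 * (R : ℝ)) ^ n := by
  have hmaps : ∀ y ∈ S, c y ∈ Finset.Icc 1 (8 * R) := fun y hy =>
    Finset.mem_Icc.mpr ⟨(hc y hy).1, (hc y hy).2.1⟩
  rw [← Finset.sum_fiberwise_of_maps_to hmaps]
  have h1 : ∀ j ∈ Finset.Icc 1 (8 * R), ∑ y ∈ S with c y = j, (c y : ℝ) ^ (2 * α) ≤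
      (16 * (R : ℝ)) ^ n * (1 / (j : ℝ) ^ 2) := by
    intro j hj
    rw [Finset.mem_Icc] at hj
    have h2 : ∑ y ∈ S with c y = j, (c y : ℝ) ^ (2 * α) =
        ((S.filter fun y => c y = j).card : ℝ) * (j : ℝ) ^ (2 * α) := by
      rw [Finset.sum_congr rfl (g := fun _ => (j : ℝ) ^ (2 * α))]
      · rw [Finset.sum_const, nsmul_eq_mul]
      · intro y hy
        rw [(Finset.mem_filter.mp hy).2]
    rw [h2]
    have h3 := hF n R k j (by omega) hj.1 hj.2 w
    have h4 : (S.filter fun y => c y = j).card ≤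
        ((Box n (4 * R)).filter fun y => ∃ z l : V n, l ∈ LL (Sp w) ∧ y = j • z + l).card := by
      apply Finset.card_le_card
      intro y hy
      obtain ⟨hyS, hyj⟩ := Finset.mem_filter.mp hy
      refine Finset.mem_filter.mpr ⟨hS hyS, ?_⟩
      have := (hc y hyS).2.2
      rwa [hyj] at this
    have hj0 : (1 : ℝ) ≤ j := by exact_mod_cast hj.1
    have h5 : ((S.filter fun y => c y = j).card : ℝ) * (j : ℝ) ^ (n - k) ≤ (16 * (R : ℝ)) ^ n := by
      have : (S.filter fun y => c y = j).card * j ^ (n - k) ≤ (16 * R) ^ n :=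
        (Nat.mul_le_mul_right _ h4).trans h3
      exact_mod_cast this
    have h6 : (j : ℝ) ^ (2 * α) * (j : ℝ) ^ 2 ≤ (j : ℝ) ^ (n - k) := by
      rw [← pow_add]
      exact pow_le_pow_right₀ hj0 (by omega)
    rw [mul_one_div, le_div_iff₀ (by positivity)]
    calc ((S.filter fun y => c y = j).card : ℝ) * (j : ℝ) ^ (2 * α) * (j : ℝ) ^ 2
        = ((S.filter fun y => c y = j).card : ℝ) * ((j : ℝ) ^ (2 * α) * (j : ℝ) ^ 2) := by ring
      _ ≤ ((S.filter fun y => c y = j).card : ℝ) * (j : ℝ) ^ (n - k) := by gcongr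
      _ ≤ _ := h5
  refine (Finset.sum_le_sum h1).trans ?_
  rw [← Finset.mul_sum]
  have := sum_inv_sq (8 * R)
  have h7 : (0 : ℝ) ≤ (16 * (R : ℝ)) ^ n := by positivity
  nlinarith

open Classical in
/-- The second sum. -/
theorem sum_two (hD : S_D) {n k R α : ℕ} (hn : n = 8 * α) (hα : 1 ≤ α) (hk : 8 * k ≤ n)
    (hR : 1 ≤ R) (w : Fin k → V n) (hw : LinearIndependent ℝ (fun i => toE n (w i)))
    (S : Finset (V n)) (hS : S ⊆ Box n (4 * R))
    (hd : ∀ y ∈ S, √n ≤ dd (Sp w) (toE n y)) :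
    ∑ y ∈ S, (R * √n / dd (Sp w) (toE n y)) ^ (2 * α) ≤ 2 * (Real.exp (55 * n) * (4 * R) ^ n) := by
  have hn0 : (0 : ℝ) < √n := Real.sqrt_pos.mpr (by exact_mod_cast (by omega : 0 < n))
  have hR0 : (1 : ℝ) ≤ R := by exact_mod_cast hR
  have hfin : Module.finrank ℝ (Sp w) = k := by
    unfold Sp
    rw [finrank_span_eq_card hw, Fintype.card_fin]
  set J : Finset ℕ := (Finset.range (4 * R + 1)).filter fun j => 2 ^ j ≤ 4 * R with hJ
  set Gj : ℕ → Finset (V n) := fun j =>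
    (Box n (4 * R)).filter fun y => dd (Sp w) (toE n y) ≤ 4 * R * √n / 2 ^ j with hGj
  -- each term
  have hterm : ∀ y ∈ S, (R * √n / dd (Sp w) (toE n y)) ^ (2 * α) ≤
      ∑ j ∈ J, if y ∈ Gj j then ((2 : ℝ) ^ j) ^ (2 * α) else 0 := by
    intro y hy
    have hd1 := hd y hy
    have hd0 : 0 < dd (Sp w) (toE n y) := hn0.trans_le hd1
    have hd2 : dd (Sp w) (toE n y) ≤ 4 * R * √n := (dd_le _ _).trans (norm_toE_le (hS hy))
    have hx : 1 ≤ 4 * (R * √n / dd (Sp w) (toE n y)) := by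
      rw [← mul_div_assoc, le_div_iff₀ hd0]
      linarith
    obtain ⟨j, hj1, hj2⟩ := exists_nat_pow_near hx (by norm_num : (1 : ℝ) < 2)
    have hj3 : (2 : ℝ) ^ j ≤ 4 * R := by
      refine hj1.trans ?_
      rw [← mul_div_assoc, div_le_iff₀ hd0]
      nlinarith
    have hj4 : 2 ^ j ≤ 4 * R := by exact_mod_cast hj3
    have hj5 : j < 4 * R + 1 := by
      have : j < 2 ^ j := Nat.lt_two_pow_self
      omega
    have hjJ : j ∈ J := Finset.mem_filter.mpr ⟨Finset.mem_range.mpr hj5, hj4⟩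
    have hyG : y ∈ Gj j := by
      refine Finset.mem_filter.mpr ⟨hS hy, ?_⟩
      rw [le_div_iff₀ (by positivity)]
      rw [← mul_div_assoc, le_div_iff₀ hd0] at hj1
      nlinarith
    have h1 : (R * √n / dd (Sp w) (toE n y)) ^ (2 * α) ≤ ((2 : ℝ) ^ j) ^ (2 * α) := by
      apply pow_le_pow_left₀ (by positivity)
      rw [pow_succ] at hj2
      have : (0 : ℝ) < 2 ^ j := by positivity
      linarith
    refine h1.trans ?_
    have h2 : ((2 : ℝ) ^ j) ^ (2 * α) = if y ∈ Gj j then ((2 : ℝ) ^ j) ^ (2 * α) else 0 := by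
      rw [if_pos hyG]
    rw [h2]
    exact Finset.single_le_sum (f := fun j => if y ∈ Gj j then ((2 : ℝ) ^ j) ^ (2 * α) else 0)
      (fun i _ => by positivity) hjJ
  refine (Finset.sum_le_sum hterm).trans ?_
  rw [Finset.sum_comm]
  have hj : ∀ j ∈ J, ∑ y ∈ S, (if y ∈ Gj j then ((2 : ℝ) ^ j) ^ (2 * α) else 0) ≤
      Real.exp (55 * n) * (4 * R) ^ n * (1 / 2 ^ j) := by
    intro j hj
    have hj4 := (Finset.mem_filter.mp hj).2
    have hj3 : (2 : ℝ) ^ j ≤ 4 * R := by exact_mod_cast hj4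
    have h1 : ∑ y ∈ S, (if y ∈ Gj j then ((2 : ℝ) ^ j) ^ (2 * α) else 0) ≤
        ((Gj j).card : ℝ) * ((2 : ℝ) ^ j) ^ (2 * α) := by
      rw [← Finset.sum_filter, Finset.sum_const, nsmul_eq_mul]
      gcongr
      intro y hy
      exact (Finset.mem_filter.mp hy).2
    refine h1.trans ?_
    have h2 : √n ≤ 4 * R * √n / 2 ^ j := by
      rw [le_div_iff₀ (by positivity)]
      nlinarith
    have h3 := hD n R (by omega) hR (Sp w) (4 * R * √n / 2 ^ j) h2
    rw [hfin] at h3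
    have h4 : 4 * R * √n / 2 ^ j / √n = 4 * R / 2 ^ j := by
      field_simp
    rw [h4] at h3
    have h5 : (1 : ℝ) ≤ 2 ^ j := one_le_pow₀ (by norm_num)
    have h6 : (R : ℝ) ^ k * (4 * R / 2 ^ j) ^ (n - k) * ((2 : ℝ) ^ j) ^ (2 * α) ≤
        (4 * R) ^ n * (1 / 2 ^ j) := by
      have h7 : (R : ℝ) ^ k ≤ (4 * R) ^ k := by
        apply pow_le_pow_left₀ <;> linarith
      have h8 : (4 * R : ℝ) ^ n = (4 * R) ^ k * (4 * R) ^ (n - k) := by
        rw [← pow_add]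
        congr 1
        omega
      have h9 : ((2 : ℝ) ^ j) ^ (2 * α) * 2 ^ j ≤ ((2 : ℝ) ^ j) ^ (n - k) := by
        rw [← pow_succ]
        exact pow_le_pow_right₀ h5 (by omega)
      rw [mul_one_div, le_div_iff₀ (by positivity), h8, div_pow]
      have h10 : (R : ℝ) ^ k * ((4 * R) ^ (n - k) / (2 ^ j) ^ (n - k)) * (2 ^ j) ^ (2 * α) * 2 ^ j
          = (R : ℝ) ^ k * (4 * R) ^ (n - k) *
            (((2 ^ j) ^ (2 * α) * 2 ^ j) / (2 ^ j) ^ (n - k)) := by
        field_simp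
      rw [h10]
      have h11 : (((2 : ℝ) ^ j) ^ (2 * α) * 2 ^ j) / (2 ^ j) ^ (n - k) ≤ 1 := by
        rw [div_le_one (by positivity)]
        exact h9
      calc (R : ℝ) ^ k * (4 * R) ^ (n - k) * (((2 ^ j) ^ (2 * α) * 2 ^ j) / (2 ^ j) ^ (n - k))
          ≤ (4 * R : ℝ) ^ k * (4 * R) ^ (n - k) * 1 := by gcongr
        _ = _ := mul_one _
    calc ((Gj j).card : ℝ) * ((2 : ℝ) ^ j) ^ (2 * α)
        ≤ (Real.exp (55 * n) * (R : ℝ) ^ k * (4 * R / 2 ^ j) ^ (n - k)) *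
          ((2 : ℝ) ^ j) ^ (2 * α) := by gcongr
      _ = Real.exp (55 * n) * ((R : ℝ) ^ k * (4 * R / 2 ^ j) ^ (n - k) *
          ((2 : ℝ) ^ j) ^ (2 * α)) := by ring
      _ ≤ Real.exp (55 * n) * ((4 * R) ^ n * (1 / 2 ^ j)) := by gcongr
      _ = _ := by ring
  refine (Finset.sum_le_sum hj).trans ?_
  rw [← Finset.mul_sum]
  have h1 : ∑ j ∈ J, (1 : ℝ) / 2 ^ j ≤ 2 := by
    refine le_trans ?_ (sum_inv_pow (4 * R + 1))
    apply Finset.sum_le_sum_of_subset_of_nonneg (Finset.filter_subset _ _)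
    intro i _ _
    positivity
  have h2 : (0 : ℝ) ≤ Real.exp (55 * n) * (4 * R) ^ n := by positivity
  nlinarith

end G

open Classical in
theorem pieceG (hD : S_D) (hF : S_F) : S_G := by
  intro n k R hn8 hdvd hk hR w hw c hc
  obtain ⟨α, hα⟩ := hdvd
  have hα1 : 1 ≤ α := by omega
  have hn0 : (0 : ℝ) < √n := Real.sqrt_pos.mpr (by exact_mod_cast (by omega : 0 < n))
  have hR0 : (1 : ℝ) ≤ R := by exact_mod_cast hR
  have hdiv : n / 8 = α := by omega
  rw [hdiv]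
  set S := (Box n (4 * R)).filter fun y => toE n y ∉ Sp w ∧ √n ≤ dd (Sp w) (toE n y) ∧
      c y ≤ 8 * R with hSdef
  have hS : S ⊆ Box n (4 * R) := Finset.filter_subset _ _
  have hmem : ∀ y ∈ S, toE n y ∉ Sp w ∧ √n ≤ dd (Sp w) (toE n y) ∧ c y ≤ 8 * R := fun y hy =>
    (Finset.mem_filter.mp hy).2
  have h1 : ∀ y ∈ S, (1 + R * √n * c y / dd (Sp w) (toE n y)) ^ α ≤
      5 ^ α / 2 * ((c y : ℝ) ^ (2 * α) + (R * √n / dd (Sp w) (toE n y)) ^ (2 * α)) := by
    intro y hy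
    obtain ⟨hy1, hy2, hy3⟩ := hmem y hy
    have hd0 : 0 < dd (Sp w) (toE n y) := hn0.trans_le hy2
    have hd2 : dd (Sp w) (toE n y) ≤ 4 * R * √n :=
      (G.dd_le _ _).trans (G.norm_toE_le (hS hy))
    have hc1 : (1 : ℝ) ≤ c y := by exact_mod_cast (hc y hy1).1
    apply G.term_le α (by positivity) (by positivity)
    · ring
    · rw [← mul_div_assoc, le_div_iff₀ hd0]
      have : 0 ≤ 4 * (R : ℝ) * √n := by positivity
      nlinarith
  refine (Finset.sum_le_sum h1).trans ?_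
  rw [← Finset.mul_sum, Finset.sum_add_distrib]
  have h2 := G.sum_one hF hα hα1 hk w c S hS (fun y hy => by
    obtain ⟨hy1, hy2, hy3⟩ := hmem y hy
    exact ⟨(hc y hy1).1, hy3, (hc y hy1).2⟩)
  have h3 := G.sum_two hD hα hα1 hk hR w hw S hS (fun y hy => (hmem y hy).2.1)
  have h4 : (16 * (R : ℝ)) ^ n ≤ Real.exp (55 * n) * (4 * R) ^ n := by
    have : (16 : ℝ) * R = 4 * (4 * R) := by ring
    rw [this, mul_pow]
    gcongr
    have h5 : Real.exp (55 * n) = Real.exp 55 ^ n := by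
      rw [mul_comm, Real.exp_nat_mul]
    rw [h5]
    apply pow_le_pow_left₀ (by norm_num)
    have := Real.add_one_le_exp (55 : ℝ)
    linarith
  have h6 : (5 : ℝ) ^ α ≤ (5 / 4) ^ n := by
    rw [hα, pow_mul]
    apply pow_le_pow_left₀ (by norm_num)
    norm_num
  have h7 : (2 : ℝ) ≤ 2 ^ n := by
    calc (2 : ℝ) = 2 ^ 1 := (pow_one _).symm
      _ ≤ 2 ^ n := pow_le_pow_right₀ (by norm_num) (by omega)
  have h8 : (0 : ℝ) ≤ Real.exp (55 * n) * (4 * R) ^ n := by positivity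
  calc (5 : ℝ) ^ α / 2 * (∑ y ∈ S, (c y : ℝ) ^ (2 * α) +
        ∑ y ∈ S, (R * √n / dd (Sp w) (toE n y)) ^ (2 * α))
      ≤ 5 ^ α / 2 * (2 * (Real.exp (55 * n) * (4 * R) ^ n) +
        2 * (Real.exp (55 * n) * (4 * R) ^ n)) := by
        gcongr
        exact h2.trans (by linarith)
    _ = 5 ^ α * 2 * (Real.exp (55 * n) * (4 * R) ^ n) := by ring
    _ ≤ (5 / 4) ^ n * 2 ^ n * (Real.exp (55 * n) * (4 * R) ^ n) := by gcongr
    _ = (10 * (Real.exp 55 * R)) ^ n := by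
        have h5 : Real.exp (55 * n) = Real.exp 55 ^ n := by
          rw [mul_comm, Real.exp_nat_mul]
        rw [h5, ← mul_pow, ← mul_pow, ← mul_pow]
        congr 1
        ring
    _ ≤ (Real.exp 58 * R) ^ n := by
        apply pow_le_pow_left₀ (by positivity)
        have h9 : Real.exp 58 = Real.exp 3 * Real.exp 55 := by
          rw [← Real.exp_add]
          norm_num
        have h10 : (10 : ℝ) ≤ Real.exp 3 := by
          have h11 : Real.exp 3 = Real.exp 1 ^ 3 := by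
            rw [← Real.exp_nat_mul]
            norm_num
          rw [h11]
          have h12 := Real.exp_one_gt_d9
          calc (10 : ℝ) ≤ 2.7182818283 ^ 3 := by norm_num
            _ ≤ Real.exp 1 ^ 3 := by gcongr
        rw [h9, mul_assoc]
        gcongr

end Pool.Agent.K6.H81.PF
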