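import Pool.Agent.K6.H81.PF.PieceF

/-! Piece H: the number of the `u` modulo `p` orthogonal to linearly independent short vectors
(helper30). -/

set_option autoImplicit false

namespace Pool.Agent.K6.H81.PF

open Finset

/-- `k` linearly independent integer vectors have a nonzero minor -/
theorem exists_minor {n k : ℕ} (w : Fin k → V n)
    (hw : LinearIndependent ℝ (fun i => toE n (w i))) :
    ∃ f : Fin k → Fin n, Function.Injective f ∧
      (Matrix.of fun i j => w i (f j)).det ≠ 0 := by
  classical
  have hrk : Module.finrank ℝ (Sp w) = k := by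
    have := finrank_span_eq_card hw
    rwa [Fintype.card_fin] at this
  obtain ⟨J, hJ, hJ1⟩ := exists_coords k (Sp w) hrk.le
  -- the restriction to the coordinates in `J`
  let T : (Fin k → ℝ) →ₗ[ℝ] (J → ℝ) :=
    { toFun := fun a j => ∑ i, a i * (w i j : ℝ)
      map_add' := fun a b => by
        funext j
        simp [add_mul, sum_add_distrib]
      map_smul' := fun c a => by
        funext j
        simp [mul_sum, mul_assoc] }
  have hT : Function.Injective T := by
    rw [← LinearMap.ker_eq_bot, LinearMap.ker_eq_bot']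
    intro a ha
    have h1 : ∑ i, a i • toE n (w i) = 0 := by
      refine hJ1 _ ?_ ?_
      · exact Submodule.sum_mem _ fun i _ => Submodule.smul_mem _ _
          (Submodule.subset_span ⟨i, rfl⟩)
      · intro j hj
        have h2 := congrFun ha ⟨j, hj⟩
        change ∑ i, a i * (w i j : ℝ) = 0 at h2
        rw [← h2]
        simp
    exact funext fun i => Fintype.linearIndependent_iff.1 hw a h1 i
  have hcard : J.card = k := by
    refine le_antisymm hJ ?_
    have h1 := LinearMap.finrank_le_finrank_of_injective hT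
    rwa [Module.finrank_fintype_fun_eq_card, Module.finrank_fintype_fun_eq_card, Fintype.card_fin,
      Fintype.card_coe] at h1
  let e : Fin k ≃ J := (J.equivFinOfCardEq hcard).symm
  refine ⟨fun i => (e i : Fin n), fun x y hxy => e.injective (Subtype.ext hxy), ?_⟩
  intro h0
  have h1 : (Matrix.of fun i j => (w i (e j) : ℝ)).det = 0 := by
    have h2 := congrArg (Int.cast : ℤ → ℝ) h0
    rw [Int.cast_zero] at h2
    rw [← h2]
    have := (Int.castRingHom ℝ).map_det (Matrix.of fun i j => w i (e j : Fin n))
    rw [eq_intCast] at this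
    rw [this]
    congr 1
  obtain ⟨a, ha0, ha⟩ := Matrix.exists_vecMul_eq_zero_iff.2 h1
  apply ha0
  apply hT
  rw [map_zero]
  funext j
  have h3 := congrFun ha (e.symm j)
  simp only [Matrix.vecMul, dotProduct, Matrix.of_apply, Equiv.apply_symm_apply,
    Pi.zero_apply] at h3
  exact h3

open Classical in
theorem pieceH : S_H := by
  intro n k R p _ hk hp w hw hli
  obtain ⟨f, hf, hdet⟩ := exists_minor w hli
  -- the minor is nonzero modulo `p`
  have habs : |(Matrix.of fun i j => w i (f j)).det| ≤ k.factorial * (R : ℤ) ^ k := by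
    rw [Matrix.det_apply]
    refine (abs_sum_le_sum_abs _ _).trans ?_
    have h1 : ∀ σ ∈ (univ : Finset (Equiv.Perm (Fin k))),
        |Equiv.Perm.sign σ • ∏ i, (Matrix.of fun i j => w i (f j)) (σ i) i| ≤ (R : ℤ) ^ k := by
      intro σ _
      rw [Units.smul_def, smul_eq_mul, abs_mul, Int.isUnit_iff_abs_eq.1 (Units.isUnit _), one_mul,
        abs_prod]
      calc ∏ i, |(Matrix.of fun i j => w i (f j)) (σ i) i| ≤ ∏ _i : Fin k, (R : ℤ) :=
            prod_le_prod (fun _ _ => abs_nonneg _) fun i _ => (mem_Box.1 (hw (σ i))) (f i)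
        _ = (R : ℤ) ^ k := by rw [prod_const, card_univ, Fintype.card_fin]
    refine (sum_le_card_nsmul _ _ _ h1).trans (le_of_eq ?_)
    rw [card_univ, Fintype.card_perm, Fintype.card_fin, nsmul_eq_mul]
  have hdp : (Matrix.of fun i j => (w i (f j) : ZMod p)).det ≠ 0 := by
    have h1 : (Matrix.of fun i j => (w i (f j) : ZMod p)).det =
        (((Matrix.of fun i j => w i (f j)).det : ℤ) : ZMod p) := by
      have := (Int.castRingHom (ZMod p)).map_det (Matrix.of fun i j => w i (f j))
      rw [eq_intCast] at this
      rw [this]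
      congr 1
    rw [h1, Ne, ZMod.intCast_zmod_eq_zero_iff_dvd]
    intro hdvd
    have h2 := Int.le_of_dvd (abs_pos.2 hdet) ((dvd_abs _ _).2 hdvd)
    have h3 : ((k.factorial * R ^ k : ℕ) : ℤ) < p := by exact_mod_cast hp
    push_cast at h3
    linarith
  -- the linear map
  let φ : (Fin n → ZMod p) →ₗ[ZMod p] (Fin k → ZMod p) :=
    { toFun := fun u i => ∑ j, u j * (w i j : ZMod p)
      map_add' := fun a b => by
        funext j
        simp [add_mul, sum_add_distrib]
      map_smul' := fun c a => by
        funext j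
        simp [mul_sum, mul_assoc] }
  have hφ : Function.Surjective φ := by
    intro t
    obtain ⟨a, ha⟩ : ∃ a, (Matrix.of fun i j => (w i (f j) : ZMod p)).mulVec a = t := by
      refine ⟨(Matrix.of fun i j => (w i (f j) : ZMod p))⁻¹.mulVec t, ?_⟩
      rw [Matrix.mulVec_mulVec, Matrix.mul_nonsing_inv _ (isUnit_iff_ne_zero.2 hdp),
        Matrix.one_mulVec]
    refine ⟨fun j => ∑ i, if f i = j then a i else 0, ?_⟩
    funext i
    change ∑ j, (∑ l, if f l = j then a l else 0) * (w i j : ZMod p) = t i
    rw [← ha]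
    change _ = ∑ l, (w i (f l) : ZMod p) * a l
    rw [sum_congr rfl fun j _ => sum_mul _ _ _, sum_comm]
    refine sum_congr rfl fun l _ => ?_
    rw [sum_eq_single (f l)]
    · rw [if_pos rfl, mul_comm]
    · intro j _ hj
      rw [if_neg (Ne.symm hj), zero_mul]
    · intro h
      exact absurd (mem_univ _) h
  have h1 : (univ.filter fun u : Fin n → ZMod p => ∀ i, ∑ j, u j * (w i j : ZMod p) = 0).card =
      Nat.card (LinearMap.ker φ) := by
    rw [← Fintype.card_coe, ← Nat.card_eq_fintype_card]
    refine Nat.card_congr (Equiv.subtypeEquivRight fun u => ?_)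
    rw [mem_filter, LinearMap.mem_ker]
    exact ⟨fun h => funext h.2, fun h => ⟨mem_univ _, fun i => congrFun h i⟩⟩
  rw [h1]
  have h2 := Submodule.card_eq_card_quotient_mul_card (LinearMap.ker φ)
  have h3 : Nat.card ((Fin n → ZMod p) ⧸ LinearMap.ker φ) = p ^ k := by
    rw [Nat.card_congr (φ.quotKerEquivOfSurjective hφ).toEquiv]
    simp
  have h4 : Nat.card (Fin n → ZMod p) = p ^ n := by simp
  rw [h3, h4] at h2
  rw [h2, mul_comm]

end Pool.Agent.K6.H81.PF
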