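import Pool.Agent.K6.H81.PF.PieceC

/-! Piece I for MP_86f7a7_co: the mean of the Gaussian sum over the lattices modulo `p`. -/

set_option autoImplicit false

namespace Pool.Agent.K6.H81.PF

open scoped BigOperators

namespace PI

theorem hasSum_pi {f : ℤ → ℝ} {s : ℝ} (hf0 : ∀ m, 0 ≤ f m) (hf : HasSum f s) (n : ℕ) :
    HasSum (fun x : Fin n → ℤ => ∏ i, f (x i)) (s ^ n) := by
  induction n with
  | zero =>
    rw [pow_zero]
    have h := hasSum_unique (fun x : Fin 0 → ℤ => ∏ i, f (x i))
    rwa [Finset.univ_eq_empty, Finset.prod_empty] at h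
  | succ n ih =>
    let F : (Fin n → ℤ) → ℝ := fun x => ∏ i, f (x i)
    have hF0 : ∀ x, 0 ≤ F x := fun x => Finset.prod_nonneg fun i _ => hf0 _
    have hF : HasSum F (s ^ n) := ih
    have h1 : Summable fun x : ℤ × (Fin n → ℤ) => f x.1 * F x.2 :=
      Summable.mul_of_nonneg hf.summable hF.summable hf0 hF0
    have h2 : HasSum (fun x : ℤ × (Fin n → ℤ) => f x.1 * F x.2) (s * s ^ n) :=
      HasSum.mul hf hF h1
    have h3 : (fun x : ℤ × (Fin n → ℤ) => f x.1 * F x.2) =
        (fun x : Fin (n + 1) → ℤ => ∏ i, f (x i)) ∘ (Fin.consEquiv fun _ => ℤ) := by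
      funext x
      simp [F, Fin.prod_univ_succ, Fin.consEquiv]
    rw [h3, Equiv.hasSum_iff] at h2
    rw [pow_succ, mul_comm]
    exact h2

theorem gauss_prod {n : ℕ} (t : ℝ) (x : V n) :
    Real.exp (-t * ‖toE n x‖ ^ 2) = ∏ i, Real.exp (-t * (x i : ℝ) ^ 2) := by
  rw [← Real.exp_sum, EuclideanSpace.norm_sq_eq, Finset.mul_sum]
  congr 1
  refine Finset.sum_congr rfl fun i _ => ?_
  rw [toE_apply, Real.norm_eq_abs, sq_abs]

theorem gauss_all {n : ℕ} (t : ℝ) (ht : 0 < t) :
    Summable (fun x : V n => Real.exp (-t * ‖toE n x‖ ^ 2)) ∧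
      ∑' x : V n, Real.exp (-t * ‖toE n x‖ ^ 2) ≤ (1 + √(Real.pi / t)) ^ n := by
  obtain ⟨h1, h2⟩ := PC.gauss_int t ht
  have h3 := hasSum_pi (fun m => (Real.exp_pos _).le) h1.hasSum n
  simp only [gauss_prod]
  refine ⟨h3.summable, ?_⟩
  rw [h3.tsum_eq]
  exact pow_le_pow_left₀ (tsum_nonneg fun m => (Real.exp_pos _).le) h2 n

open Classical in
theorem card_orth {n p : ℕ} [Fact p.Prime] (x : V n) (hx : ¬ ∀ i, (p : ℤ) ∣ x i) :
    (Finset.univ.filter fun u : Fin n → ZMod p => x ∈ Lu u).card ≤ p ^ (n - 1) := by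
  push Not at hx
  obtain ⟨j, hj⟩ := hx
  have hj0 : (x j : ZMod p) ≠ 0 := fun h => hj ((ZMod.intCast_zmod_eq_zero_iff_dvd _ _).1 h)
  have h1 : Fintype.card ({i : Fin n // i ≠ j} → ZMod p) = p ^ (n - 1) := by
    rw [Fintype.card_fun, ZMod.card, Fintype.card_subtype_compl, Fintype.card_fin,
      Fintype.card_subtype_eq]
  rw [← h1, ← Finset.card_univ]
  refine Finset.card_le_card_of_injOn (fun u i => u i.1) (fun _ _ => Finset.mem_coe.2
    (Finset.mem_univ _)) ?_
  intro u hu u' hu' huu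
  have hu1 : ∑ i, u i * (x i : ZMod p) = 0 := (Finset.mem_filter.1 (Finset.mem_coe.1 hu)).2
  have hu1' : ∑ i, u' i * (x i : ZMod p) = 0 := (Finset.mem_filter.1 (Finset.mem_coe.1 hu')).2
  have hoff : ∀ i, i ≠ j → u i = u' i := fun i hi => congrFun huu ⟨i, hi⟩
  have h2 : ∑ i, (u i - u' i) * (x i : ZMod p) = 0 := by
    simp only [sub_mul, Finset.sum_sub_distrib]
    rw [hu1, hu1', sub_self]
  rw [Finset.sum_eq_single j (fun i _ hi => by rw [hoff i hi, sub_self, zero_mul])
    (fun h => absurd (Finset.mem_univ j) h)] at h2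
  have h3 : u j = u' j := sub_eq_zero.1 ((mul_eq_zero.1 h2).resolve_right hj0)
  funext i
  by_cases hi : i = j
  · rw [hi, h3]
  · exact hoff i hi

end PI

open Classical in
theorem pieceI : S_I := by
  intro n p _ t ht
  have hp0 : (0 : ℝ) < p := Nat.cast_pos.2 (Fact.out : p.Prime).pos
  set g : V n → ℝ := fun x => Real.exp (-t * ‖toE n x‖ ^ 2) with hg
  have hg0 : ∀ x, 0 ≤ g x := fun x => (Real.exp_pos _).le
  obtain ⟨hgs, hgb⟩ := PI.gauss_all (n := n) t ht
  obtain ⟨hgs', hgb'⟩ := PI.gauss_all (n := n) (t * (p : ℝ) ^ 2) (by positivity)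
  -- the sum over the multiples of `p`
  set P : Set (V n) := {x | ∀ i, (p : ℤ) ∣ x i} with hP
  have hinj : Function.Injective fun y : V n => (p : ℤ) • y := by
    intro y y' h
    funext i
    have h1 := congrFun h i
    simp only [Pi.smul_apply, smul_eq_mul] at h1
    exact mul_left_cancel₀ (by exact_mod_cast (Fact.out : p.Prime).ne_zero) h1
  have hPg : ∑' x, P.indicator g x ≤ (1 + √(Real.pi / t) / p) ^ n := by
    have h1 : Function.support (P.indicator g) ⊆ Set.range fun y : V n => (p : ℤ) • y := by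
      intro x hx
      have hxP : x ∈ P := by
        by_contra h
        exact hx (Set.indicator_of_notMem h _)
      choose y hy using hxP
      exact ⟨y, by funext i; simp [hy i]⟩
    rw [← hinj.tsum_eq h1]
    have h2 : ∀ y : V n, P.indicator g ((p : ℤ) • y) =
        Real.exp (-(t * (p : ℝ) ^ 2) * ‖toE n y‖ ^ 2) := by
      intro y
      rw [Set.indicator_of_mem (show (p : ℤ) • y ∈ P from fun i => ⟨y i, by simp⟩)]
      simp only [hg]
      rw [map_zsmul, ← Int.cast_smul_eq_zsmul ℝ, norm_smul, mul_pow]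
      congr 1
      simp
      ring
    simp only [h2]
    refine hgb'.trans (le_of_eq ?_)
    congr 2
    rw [← div_div, Real.sqrt_div' _ (by positivity), Real.sqrt_sq hp0.le]
  -- exchange of the sums
  have h1 : ∀ u : Fin n → ZMod p, TH (Lu u) t 0 = ∑' x, (Lu u : Set (V n)).indicator g x := by
    intro u
    rw [← tsum_subtype]
    unfold TH
    simp only [add_zero]
    rfl
  have h2 : ∀ u : Fin n → ZMod p, Summable ((Lu u : Set (V n)).indicator g) := fun u =>
    hgs.indicator _
  rw [Finset.sum_congr rfl fun u _ => h1 u, ← Summable.tsum_finsetSum fun u _ => h2 u]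
  have h3 : ∀ x, ∑ u : Fin n → ZMod p, (Lu u : Set (V n)).indicator g x ≤
      (p : ℝ) ^ n * P.indicator g x + (p : ℝ) ^ (n - 1) * g x := by
    intro x
    have h4 : ∑ u : Fin n → ZMod p, (Lu u : Set (V n)).indicator g x =
        ((Finset.univ.filter fun u : Fin n → ZMod p => x ∈ Lu u).card : ℝ) * g x := by
      rw [Finset.card_filter]
      push_cast
      rw [Finset.sum_mul]
      refine Finset.sum_congr rfl fun u _ => ?_
      rw [Set.indicator_apply]
      by_cases h : x ∈ Lu u
      · simp [h]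
      · simp [h]
    rw [h4]
    by_cases hx : x ∈ P
    · rw [Set.indicator_of_mem hx]
      have h5 : ((Finset.univ.filter fun u : Fin n → ZMod p => x ∈ Lu u).card : ℝ) ≤
          (p : ℝ) ^ n := by
        have h6 := Finset.card_filter_le (Finset.univ : Finset (Fin n → ZMod p))
          (fun u => x ∈ Lu u)
        rw [Finset.card_univ, Fintype.card_fun, ZMod.card, Fintype.card_fin] at h6
        exact_mod_cast h6
      have h7 := mul_le_mul_of_nonneg_right h5 (hg0 x)
      have h8 : 0 ≤ (p : ℝ) ^ (n - 1) * g x := mul_nonneg (by positivity) (hg0 x)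
      linarith
    · rw [Set.indicator_of_notMem hx, mul_zero, zero_add]
      refine mul_le_mul_of_nonneg_right ?_ (hg0 x)
      exact_mod_cast PI.card_orth x hx
  have hs1 : Summable fun x => (p : ℝ) ^ n * P.indicator g x := (hgs.indicator P).mul_left _
  have hs2 : Summable fun x => (p : ℝ) ^ (n - 1) * g x := hgs.mul_left _
  refine ((summable_sum fun u _ => h2 u).tsum_le_tsum h3 (hs1.add hs2)).trans ?_
  rw [hs1.tsum_add hs2, tsum_mul_left, tsum_mul_left]
  exact add_le_add (mul_le_mul_of_nonneg_left hPg (by positivity))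
    (mul_le_mul_of_nonneg_left hgb (by positivity))

end Pool.Agent.K6.H81.PF
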