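import Pool.Agent.K6.H81.PF.Stm

/-! Piece K1: Hölder's inequality in the group algebra, by repeated Cauchy-Schwarz. -/

set_option autoImplicit false

namespace Pool.Agent.K6.H81.PF

open scoped BigOperators

namespace K1

theorem pow_two_pow_succ (x : ℝ) (l : ℕ) : x ^ 2 ^ (l + 1) = (x ^ 2) ^ 2 ^ l := by
  rw [← pow_mul, pow_succ, mul_comm]

variable {G : Type} [AddCommGroup G] [DecidableEq G]

omit [DecidableEq G] in
theorem rev_coeff (μ : AddMonoidAlgebra ℝ G) (x : G) : (rev μ).coeff x = μ.coeff (-x) := by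
  unfold rev
  have h : (fun x : G => -x) (-x) = x := neg_neg x
  conv_lhs => rw [← h]
  rw [AddMonoidAlgebra.coeff_mapDomain, Finsupp.mapDomain_apply neg_injective]

omit [DecidableEq G] in
theorem rev_rev (μ : AddMonoidAlgebra ℝ G) : rev (rev μ) = μ := by
  ext x
  rw [rev_coeff, rev_coeff, neg_neg]

omit [DecidableEq G] in
theorem rev_mul (μ ν : AddMonoidAlgebra ℝ G) : rev (μ * ν) = rev μ * rev ν := by
  unfold rev
  exact AddMonoidAlgebra.mapDomain_mul (negAddMonoidHom : G →+ G) μ ν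

omit [DecidableEq G] in
theorem rev_one : rev (1 : AddMonoidAlgebra ℝ G) = 1 := by
  unfold rev
  exact AddMonoidAlgebra.mapDomain_one (negAddMonoidHom : G →+ G)

omit [DecidableEq G] in
theorem rev_single (t : G) (r : ℝ) : rev (AddMonoidAlgebra.single t r) =
    AddMonoidAlgebra.single (-t) r := by
  unfold rev
  exact AddMonoidAlgebra.mapDomain_single

omit [DecidableEq G] in
theorem rev_prod {ι : Type} (s : Finset ι) (f : ι → AddMonoidAlgebra ℝ G) :
    rev (∏ i ∈ s, f i) = ∏ i ∈ s, rev (f i) := by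
  classical
  induction s using Finset.induction_on with
  | empty => simp [rev_one]
  | insert a s ha ih => rw [Finset.prod_insert ha, Finset.prod_insert ha, rev_mul, ih]

omit [DecidableEq G] in
theorem coeff_zero_mul (f g : AddMonoidAlgebra ℝ G) :
    (f * g).coeff 0 = ∑ h ∈ f.coeff.support, f.coeff h * g.coeff (-h) := by
  rw [AddMonoidAlgebra.coeff_mul_apply_left, Finsupp.sum]
  simp

omit [DecidableEq G] in
theorem coeff_zero_mul_rev (f : AddMonoidAlgebra ℝ G) :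
    (f * rev f).coeff 0 = ∑ h ∈ f.coeff.support, f.coeff h ^ 2 := by
  rw [coeff_zero_mul]
  refine Finset.sum_congr rfl fun h _ => ?_
  rw [rev_coeff, neg_neg, sq]

omit [DecidableEq G] in
theorem cs (f g : AddMonoidAlgebra ℝ G) :
    (f * g).coeff 0 ^ 2 ≤ (f * rev f).coeff 0 * (g * rev g).coeff 0 := by
  classical
  rw [coeff_zero_mul, coeff_zero_mul_rev, coeff_zero_mul_rev]
  refine (Finset.sum_mul_sq_le_sq_mul_sq _ _ _).trans ?_
  apply mul_le_mul_of_nonneg_left _ (Finset.sum_nonneg fun _ _ => sq_nonneg _)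
  have h1 : ∑ i ∈ f.coeff.support, g.coeff (-i) ^ 2 =
      ∑ y ∈ f.coeff.support.image (fun x => -x), g.coeff y ^ 2 := by
    rw [Finset.sum_image (fun a _ b _ h => neg_injective h)]
  rw [h1]
  rw [← Finset.sum_filter_add_sum_filter_not (f.coeff.support.image (fun x => -x))
    (fun y => y ∈ g.coeff.support)]
  have h2 : ∑ y ∈ (f.coeff.support.image (fun x => -x)).filter (fun y => y ∉ g.coeff.support),
      g.coeff y ^ 2 = 0 := by
    apply Finset.sum_eq_zero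
    intro y hy
    have := (Finset.mem_filter.mp hy).2
    rw [Finsupp.notMem_support_iff] at this
    rw [this]
    simp
  rw [h2, add_zero]
  apply Finset.sum_le_sum_of_subset_of_nonneg
  · intro y hy
    exact (Finset.mem_filter.mp hy).2
  · intro i _ _
    positivity

/-- The sum over `B`. -/
noncomputable def be (B : Finset G) : AddMonoidAlgebra ℝ G := ∑ b ∈ B, AddMonoidAlgebra.single b 1

omit [AddCommGroup G] in
theorem be_coeff (B : Finset G) (x : G) : (be B).coeff x = if x ∈ B then 1 else 0 := by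
  unfold be
  rw [AddMonoidAlgebra.coeff_sum, Finsupp.finsetSum_apply]
  simp [AddMonoidAlgebra.coeff_single, Finsupp.single_apply]

theorem be_rev_coeff (B : Finset G) (h : G) :
    (be B * rev (be B)).coeff (-h) = ((B.filter fun b => h + b ∈ B).card : ℝ) := by
  conv_lhs => rw [show be B * rev (be B) = ∑ b ∈ B, AddMonoidAlgebra.single b 1 * rev (be B) by
    rw [← Finset.sum_mul]; rfl]
  rw [AddMonoidAlgebra.coeff_sum, Finsupp.finsetSum_apply]
  have h1 : ∀ b ∈ B, (AddMonoidAlgebra.single b 1 * rev (be B)).coeff (-h) =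
      if h + b ∈ B then (1 : ℝ) else 0 := by
    intro b _
    rw [AddMonoidAlgebra.coeff_single_mul_apply, rev_coeff, be_coeff]
    simp
  rw [Finset.sum_congr rfl h1]
  simp

theorem TB_eq (B : Finset G) (μ : AddMonoidAlgebra ℝ G) :
    TB B μ = (μ * (be B * rev (be B))).coeff 0 := by
  rw [coeff_zero_mul]
  unfold TB
  rw [Finsupp.sum]
  refine Finset.sum_congr rfl fun h _ => ?_
  rw [be_rev_coeff]

theorem TB_rev_nonneg (B : Finset G) (μ : AddMonoidAlgebra ℝ G) : 0 ≤ TB B (μ * rev μ) := by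
  rw [TB_eq]
  have : μ * rev μ * (be B * rev (be B)) = (μ * be B) * rev (μ * be B) := by
    rw [rev_mul]
    ring
  rw [this, coeff_zero_mul_rev]
  positivity

/-- Cauchy-Schwarz. -/
theorem TB_cs (B : Finset G) (μ ν : AddMonoidAlgebra ℝ G) (t : G) :
    TB B (μ * ν * AddMonoidAlgebra.single t 1) ^ 2 ≤ TB B (μ * rev μ) * TB B (ν * rev ν) := by
  rw [TB_eq, TB_eq, TB_eq]
  have h0 : (AddMonoidAlgebra.single t 1 : AddMonoidAlgebra ℝ G) *
      AddMonoidAlgebra.single (-t) 1 = 1 := by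
    rw [AddMonoidAlgebra.single_mul_single]
    simp [AddMonoidAlgebra.one_def]
  have h1 : μ * ν * AddMonoidAlgebra.single t 1 * (be B * rev (be B)) =
      (μ * be B) * (ν * AddMonoidAlgebra.single t 1 * rev (be B)) := by ring
  have h2 : μ * rev μ * (be B * rev (be B)) = (μ * be B) * rev (μ * be B) := by
    rw [rev_mul]
    ring
  have h3 : ν * rev ν * (be B * rev (be B)) = (ν * AddMonoidAlgebra.single t 1 * rev (be B)) *
      rev (ν * AddMonoidAlgebra.single t 1 * rev (be B)) := by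
    rw [rev_mul, rev_mul, rev_rev, rev_single]
    calc ν * rev ν * (be B * rev (be B)) = ν * rev ν * (be B * rev (be B)) * 1 := by rw [mul_one]
      _ = _ := by rw [← h0]; ring
  rw [h1, h2, h3]
  exact cs _ _

theorem TB_cs' (B : Finset G) (μ ν : AddMonoidAlgebra ℝ G) :
    TB B (μ * ν) ^ 2 ≤ TB B (μ * rev μ) * TB B (ν * rev ν) := by
  have := TB_cs B μ ν 0
  rwa [show (AddMonoidAlgebra.single 0 1 : AddMonoidAlgebra ℝ G) = 1 from rfl, mul_one] at this

/-- The symmetric case. -/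
theorem sym {ι : Type} (B : Finset G) (l : ℕ) : ∀ (ν : ι → AddMonoidAlgebra ℝ G) (s : Finset ι),
    (∀ j ∈ s, rev (ν j) = ν j) → s.card = 2 ^ l → 0 ≤ TB B (∏ j ∈ s, ν j) →
    TB B (∏ j ∈ s, ν j) ^ (2 ^ l) ≤ ∏ j ∈ s, TB B (ν j ^ (2 ^ l)) := by
  classical
  induction l with
  | zero =>
    intro ν s _ hs _
    obtain ⟨a, rfl⟩ := Finset.card_eq_one.mp hs
    simp
  | succ l ih =>
    intro ν s hν hs _
    obtain ⟨s₁, hs₁, hc₁⟩ := Finset.exists_subset_card_eq (s := s) (n := 2 ^ l) (by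
      rw [hs]
      exact Nat.pow_le_pow_right (by norm_num) (by omega))
    have hc₂ : (s \ s₁).card = 2 ^ l := by
      rw [Finset.card_sdiff_of_subset hs₁, hs, hc₁, pow_succ]
      omega
    have key : ∀ s' ⊆ s, s'.card = 2 ^ l →
        0 ≤ TB B ((∏ j ∈ s', ν j) * rev (∏ j ∈ s', ν j)) ∧
        TB B ((∏ j ∈ s', ν j) * rev (∏ j ∈ s', ν j)) ^ (2 ^ l) ≤
          ∏ j ∈ s', TB B (ν j ^ (2 ^ (l + 1))) := by
      intro s' hs' hc
      have h1 : (∏ j ∈ s', ν j) * rev (∏ j ∈ s', ν j) = ∏ j ∈ s', ν j ^ 2 := by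
        rw [rev_prod, ← Finset.prod_mul_distrib]
        refine Finset.prod_congr rfl fun j hj => ?_
        rw [hν j (hs' hj), sq]
      have h0 := TB_rev_nonneg B (∏ j ∈ s', ν j)
      refine ⟨h0, ?_⟩
      rw [h1] at h0 ⊢
      refine (ih (fun j => ν j ^ 2) s' (fun j hj => ?_) hc h0).trans (le_of_eq ?_)
      · rw [sq, rev_mul, hν j (hs' hj)]
      · refine Finset.prod_congr rfl fun j _ => ?_
        rw [← pow_mul, pow_succ, mul_comm]
    have k1 := key s₁ hs₁ hc₁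
    have k2 := key (s \ s₁) Finset.sdiff_subset hc₂
    rw [← Finset.prod_sdiff hs₁, ← Finset.prod_sdiff hs₁]
    have h2 := TB_cs' B (∏ j ∈ s \ s₁, ν j) (∏ j ∈ s₁, ν j)
    calc TB B ((∏ j ∈ s \ s₁, ν j) * ∏ j ∈ s₁, ν j) ^ 2 ^ (l + 1)
        = (TB B ((∏ j ∈ s \ s₁, ν j) * ∏ j ∈ s₁, ν j) ^ 2) ^ 2 ^ l :=
          pow_two_pow_succ _ _
      _ ≤ (TB B ((∏ j ∈ s \ s₁, ν j) * rev (∏ j ∈ s \ s₁, ν j)) *
          TB B ((∏ j ∈ s₁, ν j) * rev (∏ j ∈ s₁, ν j))) ^ 2 ^ l :=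
          pow_le_pow_left₀ (sq_nonneg _) h2 _
      _ = TB B ((∏ j ∈ s \ s₁, ν j) * rev (∏ j ∈ s \ s₁, ν j)) ^ 2 ^ l *
          TB B ((∏ j ∈ s₁, ν j) * rev (∏ j ∈ s₁, ν j)) ^ 2 ^ l := mul_pow _ _ _
      _ ≤ _ := mul_le_mul k2.2 k1.2 (pow_nonneg k1.1 _) ((pow_nonneg k2.1 _).trans k2.2)

end K1

theorem pieceK1 : S_K1 := by
  intro G _ _ B l t μ _
  classical
  obtain ⟨s₁, hs₁, hc₁⟩ := Finset.exists_subset_card_eq
    (s := (Finset.univ : Finset (Fin (2 ^ (l + 1))))) (n := 2 ^ l) (by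
      rw [Finset.card_univ, Fintype.card_fin]
      exact Nat.pow_le_pow_right (by norm_num) (by omega))
  have hc₂ : ((Finset.univ : Finset (Fin (2 ^ (l + 1)))) \ s₁).card = 2 ^ l := by
    rw [Finset.card_sdiff_of_subset hs₁, hc₁, Finset.card_univ, Fintype.card_fin, pow_succ]
    omega
  have key : ∀ s' : Finset (Fin (2 ^ (l + 1))), s'.card = 2 ^ l →
      0 ≤ TB B ((∏ j ∈ s', μ j) * rev (∏ j ∈ s', μ j)) ∧
      TB B ((∏ j ∈ s', μ j) * rev (∏ j ∈ s', μ j)) ^ (2 ^ l) ≤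
        ∏ j ∈ s', TB B ((μ j * rev (μ j)) ^ (2 ^ l)) := by
    intro s' hc
    have h0 := K1.TB_rev_nonneg B (∏ j ∈ s', μ j)
    refine ⟨h0, ?_⟩
    have h1 : (∏ j ∈ s', μ j) * rev (∏ j ∈ s', μ j) = ∏ j ∈ s', (μ j * rev (μ j)) := by
      rw [K1.rev_prod, ← Finset.prod_mul_distrib]
    rw [h1] at h0 ⊢
    refine K1.sym B l (fun j => μ j * rev (μ j)) s' (fun j _ => ?_) hc h0
    rw [K1.rev_mul, K1.rev_rev, mul_comm]
  have k1 := key s₁ hc₁
  have k2 := key _ hc₂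
  have h2 := K1.TB_cs B (∏ j ∈ Finset.univ \ s₁, μ j) (∏ j ∈ s₁, μ j) t
  rw [← Finset.prod_sdiff hs₁, ← Finset.prod_sdiff hs₁]
  calc TB B ((∏ j ∈ Finset.univ \ s₁, μ j) * (∏ j ∈ s₁, μ j) *
        AddMonoidAlgebra.single t 1) ^ 2 ^ (l + 1)
      = (TB B ((∏ j ∈ Finset.univ \ s₁, μ j) * (∏ j ∈ s₁, μ j) *
        AddMonoidAlgebra.single t 1) ^ 2) ^ 2 ^ l :=
        K1.pow_two_pow_succ _ _
    _ ≤ (TB B ((∏ j ∈ Finset.univ \ s₁, μ j) * rev (∏ j ∈ Finset.univ \ s₁, μ j)) *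
        TB B ((∏ j ∈ s₁, μ j) * rev (∏ j ∈ s₁, μ j))) ^ 2 ^ l :=
        pow_le_pow_left₀ (sq_nonneg _) h2 _
    _ = TB B ((∏ j ∈ Finset.univ \ s₁, μ j) * rev (∏ j ∈ Finset.univ \ s₁, μ j)) ^ 2 ^ l *
        TB B ((∏ j ∈ s₁, μ j) * rev (∏ j ∈ s₁, μ j)) ^ 2 ^ l := mul_pow _ _ _
    _ ≤ _ := mul_le_mul k2.2 k1.2 (pow_nonneg k1.1 _) ((pow_nonneg k2.1 _).trans k2.2)

end Pool.Agent.K6.H81.PF
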