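import Pool.Agent.K6.H81.PF.Stm

/-! Piece K2 for MP_86f7a7_co: the coefficients of powers of `(1 + X) (1 + X⁻¹) / 4` in
independent directions. -/

set_option autoImplicit false

namespace Pool.Agent.K6.H81.PF

open scoped BigOperators
open AddMonoidAlgebra

namespace PK2

variable {G : Type} [AddCommGroup G]

lemma factor (v : G) (N : ℕ) :
    (((1 / 2 : ℝ) • (single 0 1 + single v 1) : AddMonoidAlgebra ℝ G) *
      ((1 / 2 : ℝ) • (single 0 1 + single (-v) 1) : AddMonoidAlgebra ℝ G)) ^ N =
    ∑ j ∈ Finset.range (2 * N + 1), (single (((j : ℤ) - N) • v) (((2 * N).choose j : ℝ) / 4 ^ N) :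
      AddMonoidAlgebra ℝ G) := by
  have e1 : (single (-v) 1 : AddMonoidAlgebra ℝ G) * (single v 1) = 1 := by
    rw [single_mul_single, one_def]; simp
  have e2 : ((1 / 2 : ℝ) • (single 0 1 + single v 1) : AddMonoidAlgebra ℝ G) *
      ((1 / 2 : ℝ) • (single 0 1 + single (-v) 1) : AddMonoidAlgebra ℝ G) =
      (1 / 4 : ℝ) • (single (-v) 1 * (single v 1 + 1) ^ 2) := by
    rw [smul_mul_smul_comm, ← one_def]
    congr 1
    · norm_num
    · have : (single (-v) 1 * (single v 1 + 1) ^ 2 : AddMonoidAlgebra ℝ G) =
          (single (-v) 1 * single v 1) * (single v 1 + 1) + (single (-v) 1 * single v 1)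
            + single (-v) 1 := by ring
      rw [this, e1]
      have : (1 + single v 1) * (1 + single (-v) 1) =
          (1 + single v 1 + single (-v) 1 + single (-v) 1 * single v 1 :
            AddMonoidAlgebra ℝ G) := by ring
      rw [this, e1]
      ring
  rw [e2, smul_pow, mul_pow, ← pow_mul, add_pow, Finset.mul_sum, Finset.smul_sum]
  apply Finset.sum_congr rfl
  intro j hj
  rw [single_pow, single_pow, one_pow, one_pow, one_pow, mul_one]
  have e3 : (((2 * N).choose j : ℕ) : AddMonoidAlgebra ℝ G) =
      single 0 (((2 * N).choose j : ℕ) : ℝ) := by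
    rw [natCast_def]
  rw [e3, single_mul_single, single_mul_single, smul_single]
  congr 1
  · rw [add_zero, sub_smul, smul_neg]
    simp only [natCast_zsmul]
    abel
  · simp only [smul_eq_mul, one_div, inv_pow]
    ring

lemma rev_hom (μ : AddMonoidAlgebra ℝ G) :
    rev μ = mapDomainRingHom ℝ (negAddMonoidHom : G →+ G) μ := rfl

end PK2

open PK2 in
theorem pieceK2 : S_K2 := by
  intro G _ _ r l v hv μ hμ x
  classical
  set N := 2 ^ l with hN
  have hrev : rev μ = ∏ i, ((1 / 2 : ℝ) • (single 0 1 + single (-(v i)) 1) :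
      AddMonoidAlgebra ℝ G) := by
    rw [rev_hom, hμ, map_prod]
    apply Finset.prod_congr rfl
    intro i _
    rw [smul_add, smul_add, smul_single, smul_single, map_add]
    simp only [mapDomainRingHom_apply, mapDomain_single]
    simp [smul_single]
  have hexp : (μ * rev μ) ^ N = ∑ p ∈ Fintype.piFinset fun _ : Fin r => Finset.range (2 * N + 1),
      (single (∑ i, ((p i : ℤ) - N) • v i) (∏ i, (((2 * N).choose (p i) : ℝ) / 4 ^ N)) :
        AddMonoidAlgebra ℝ G) := by
    rw [hrev, hμ, ← Finset.prod_mul_distrib, ← Finset.prod_pow]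
    rw [Finset.prod_congr rfl fun i _ => factor (v i) N, Finset.prod_univ_sum]
    apply Finset.sum_congr rfl
    intro p _
    rw [prod_single]
  rw [hexp, coeff_sum, Finset.sum_apply']
  have hbound : ∀ p : Fin r → ℕ, ∏ i, (((2 * N).choose (p i) : ℝ) / 4 ^ N) ≤
      ((N.centralBinom : ℝ) / 4 ^ N) ^ r := by
    intro p
    refine (Finset.prod_le_prod (fun i _ => by positivity) (g := fun _ => (N.centralBinom : ℝ) / 4 ^ N)
      fun i _ => ?_).trans ?_
    · gcongr
      exact_mod_cast Nat.choose_le_centralBinom (p i) N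
    · rw [Finset.prod_const, Finset.card_univ, Fintype.card_fin]
  by_cases hex : ∃ p ∈ Fintype.piFinset fun _ : Fin r => Finset.range (2 * N + 1),
      ∑ i, ((p i : ℤ) - N) • v i = x
  · obtain ⟨p, hp, hpx⟩ := hex
    rw [Finset.sum_eq_single p]
    · rw [coeff_single, hpx, Finsupp.single_eq_same]
      exact hbound p
    · intro q _ hqp
      rw [coeff_single, Finsupp.single_eq_of_ne]
      intro h
      apply hqp
      have h1 : ∑ i, ((q i : ℝ) - p i) • v i = 0 := by
        have h2 : ∑ i, (((q i : ℤ) - N) • v i - ((p i : ℤ) - N) • v i) = 0 := by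
          rw [Finset.sum_sub_distrib, hpx]
          simp [h]
        rw [← h2]
        apply Finset.sum_congr rfl
        intro i _
        rw [← sub_smul, ← Int.cast_smul_eq_zsmul ℝ]
        congr 1
        push_cast
        ring
      have h3 := Fintype.linearIndependent_iff.mp hv _ h1
      funext i
      have := h3 i
      exact_mod_cast sub_eq_zero.mp this
    · intro h
      exact absurd hp h
  · push Not at hex
    rw [Finset.sum_eq_zero]
    · positivity
    · intro p hp
      rw [coeff_single, Finsupp.single_eq_of_ne]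
      exact fun h => hex p hp h.symm

end Pool.Agent.K6.H81.PF
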