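import Pool.Agent.K6.H81.PF.Stm

/-! Piece K4: extraction of disjoint independent subsets (helper30). -/

set_option autoImplicit false

namespace Pool.Agent.K6.H81.PF

open Finset

/-- a family whose span has dimension at least `r` has `r` linearly independent members -/
theorem exists_indep {G : Type} [AddCommGroup G] [Module ℝ G] {d : ℕ} (r : ℕ) (v : Fin d → G)
    (S : Finset (Fin d)) (h : r ≤ Module.finrank ℝ (Submodule.span ℝ (v '' (S : Set (Fin d))))) :
    ∃ I ⊆ S, I.card = r ∧ LinearIndependent ℝ (fun i : I => v i) := by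
  classical
  obtain ⟨b, hb1, hb2, hb3⟩ := exists_linearIndependent ℝ (v '' (S : Set (Fin d)))
  have hfin : (v '' (S : Set (Fin d))).Finite := (S.finite_toSet).image v
  have hbf : b.Finite := hfin.subset hb1
  have hcard : Module.finrank ℝ (Submodule.span ℝ (v '' (S : Set (Fin d)))) = hbf.toFinset.card := by
    rw [← hb2]
    have := hbf.fintype
    rw [finrank_span_set_eq_card hb3]
    congr 1
    ext x
    simp
  rw [hcard] at h
  obtain ⟨B, hB1, hB2⟩ := exists_subset_card_eq h
  have hBb : ∀ x ∈ B, x ∈ b := fun x hx => hbf.mem_toFinset.1 (hB1 hx)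
  have hch : ∀ x : B, ∃ i ∈ S, v i = x := fun x => by
    obtain ⟨i, hi, hix⟩ := hb1 (hBb x x.2)
    exact ⟨i, hi, hix⟩
  choose f hf1 hf2 using hch
  have hfinj : Function.Injective f := fun x y hxy => Subtype.ext (by rw [← hf2 x, ← hf2 y, hxy])
  refine ⟨univ.image f, ?_, ?_, ?_⟩
  · intro i hi
    obtain ⟨x, -, rfl⟩ := mem_image.1 hi
    exact hf1 x
  · rw [card_image_of_injective _ hfinj, card_univ, Fintype.card_coe, hB2]
  · -- the members
    have hmem : ∀ i : (univ.image f : Finset (Fin d)), v i ∈ b := by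
      rintro ⟨i, hi⟩
      obtain ⟨x, -, rfl⟩ := mem_image.1 hi
      rw [hf2]
      exact hBb x x.2
    have h1 : (fun i : (univ.image f : Finset (Fin d)) => v i) =
        (fun x : b => (x : G)) ∘ (fun i : (univ.image f : Finset (Fin d)) =>
          (⟨v i, hmem i⟩ : b)) := rfl
    rw [h1]
    refine hb3.comp _ ?_
    rintro ⟨i, hi⟩ ⟨j, hj⟩ hij
    obtain ⟨x, -, rfl⟩ := mem_image.1 hi
    obtain ⟨y, -, rfl⟩ := mem_image.1 hj
    have h2 : v (f x) = v (f y) := congrArg Subtype.val hij
    rw [hf2, hf2] at h2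
    have : x = y := Subtype.ext h2
    subst this
    rfl

open Classical in
theorem pieceK4 : S_K4 := by
  intro G _ _ d r J v S hr
  suffices h : ∀ J : ℕ, (∃ I : Fin J → Finset (Fin d), (∀ j, I j ⊆ S ∧ (I j).card = r ∧
      LinearIndependent ℝ (fun i : I j => v i)) ∧ Pairwise fun j j' => Disjoint (I j) (I j')) ∨
      ∃ T ⊆ S, T.card ≤ J * r ∧ Module.finrank ℝ
        (Submodule.span ℝ (v '' ((S \ T : Finset (Fin d)) : Set (Fin d)))) < r from h J
  intro J
  induction J with
  | zero => exact Or.inl ⟨Fin.elim0, fun j => j.elim0, fun j => j.elim0⟩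
  | succ J ih =>
    rcases ih with ⟨I, hI, hd⟩ | ⟨T, hT, hTc, hTf⟩
    · obtain ⟨T, hT⟩ : ∃ T, T = univ.biUnion I := ⟨_, rfl⟩
      by_cases hlt : Module.finrank ℝ
        (Submodule.span ℝ (v '' ((S \ T : Finset (Fin d)) : Set (Fin d)))) < r
      · refine Or.inr ⟨T, ?_, ?_, hlt⟩
        · rw [hT]
          exact biUnion_subset.2 fun j _ => (hI j).1
        · rw [hT]
          refine card_biUnion_le.trans ?_
          rw [sum_congr rfl fun j _ => (hI j).2.1, sum_const, card_univ, Fintype.card_fin,
            smul_eq_mul]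
          exact Nat.mul_le_mul_right _ (Nat.le_succ J)
      · obtain ⟨I0, h1, h2, h3⟩ := exists_indep r v (S \ T) (not_lt.1 hlt)
        refine Or.inl ⟨Fin.cons I0 I, ?_, ?_⟩
        · intro j
          refine Fin.cases ?_ (fun j => ?_) j
          · exact ⟨h1.trans sdiff_subset, h2, h3⟩
          · exact hI j
        · have hdis : ∀ j, Disjoint I0 (I j) := by
            intro j
            rw [Finset.disjoint_left]
            intro i hi hij
            have h4 := mem_sdiff.1 (h1 hi)
            exact h4.2 (by rw [hT]; exact mem_biUnion.2 ⟨j, mem_univ j, hij⟩)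
          intro j j'
          refine Fin.cases ?_ (fun j => ?_) j
          · refine Fin.cases (fun h => absurd rfl h) (fun j' _ => ?_) j'
            exact hdis j'
          · refine Fin.cases (fun _ => ?_) (fun j' h => ?_) j'
            · exact (hdis j).symm
            · exact hd fun h' => h (congrArg Fin.succ h')
    · refine Or.inr ⟨T, hT, hTc.trans ?_, hTf⟩
      exact Nat.mul_le_mul_right _ (Nat.le_succ J)

end Pool.Agent.K6.H81.PF
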