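import Pool.Agent.K6.H81.PF.Stm

/-! Piece LO for MP_86f7a7_co: the combinatorial theorem (Littlewood-Offord). -/

set_option autoImplicit false

namespace Pool.Agent.K6.H81.PF

open scoped BigOperators
open Finset

section Basic

variable {G : Type} [AddCommGroup G] [Module ℝ G]

open Classical in
theorem lo_coset (A D : Finset G) (hAD : ∀ x ∈ A, ∀ y ∈ A, x - y ∈ D) (M : ℝ)
    (U : Submodule ℝ G) (hM : ((D.filter fun x => x ∈ U).card : ℝ) ≤ M) (x₀ : G) :
    ((A.filter fun x => x - x₀ ∈ U).card : ℝ) ≤ M := by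
  rcases (A.filter fun x => x - x₀ ∈ U).eq_empty_or_nonempty with h | ⟨z, hz⟩
  · rw [h]
    simp only [Finset.card_empty, Nat.cast_zero]
    exact le_trans (Nat.cast_nonneg _) hM
  · refine le_trans (Nat.cast_le.2 ?_) hM
    have hz' := Finset.mem_filter.1 hz
    refine Finset.card_le_card_of_injOn (fun x => x - z) ?_ ?_
    · intro x hx
      have hx' := Finset.mem_filter.1 (Finset.mem_coe.1 hx)
      refine Finset.mem_coe.2 (Finset.mem_filter.2 ⟨hAD x hx'.1 z hz'.1, ?_⟩)
      have h1 := U.sub_mem hx'.2 hz'.2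
      rwa [sub_sub_sub_cancel_right] at h1
    · intro x _ y _ hxy
      exact sub_left_injective hxy

open Classical in
/-- Case 1: many large independent directions. -/
theorem lo_big (A D : Finset G) (hAD : ∀ x ∈ A, ∀ y ∈ A, x - y ∈ D) (M : ℝ) (hM0 : 0 ≤ M)
    (r Ns : ℕ) (hNs : 1 ≤ Ns) {d : ℕ} (a : G) (v : Fin d → G) (N : Fin d → ℕ)
    (I : Finset (Fin d)) (hI : I.card = r) (hv : LinearIndepOn ℝ v (I : Set (Fin d)))
    (hbig : ∀ i ∈ I, Ns ≤ N i)
    (hM : ((D.filter fun x => x ∈ Submodule.span ℝ (v '' (I : Set (Fin d)))).card : ℝ) ≤ M) :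
    (((Fintype.piFinset fun i => Finset.range (N i)).filter fun m : Fin d → ℕ =>
      a + ∑ i, m i • v i ∈ A).card : ℝ) ≤ M / (Ns : ℝ) ^ r * ∏ i, (N i : ℝ) := by
  set S := (Fintype.piFinset fun i => Finset.range (N i)).filter fun m : Fin d → ℕ =>
      a + ∑ i, m i • v i ∈ A with hS
  set φ : (Fin d → ℕ) → (Fin d → ℕ) := fun m i => if i ∈ I then 0 else m i with hφ
  set Q : Finset (Fin d → ℕ) := Fintype.piFinset fun i => if i ∈ I then {0} else Finset.range (N i)
    with hQ
  have hmaps : (S : Set (Fin d → ℕ)).MapsTo φ Q := by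
    intro m hm
    have hm' := Fintype.mem_piFinset.1 (Finset.mem_filter.1 (Finset.mem_coe.1 hm)).1
    refine Finset.mem_coe.2 (Fintype.mem_piFinset.2 fun i => ?_)
    by_cases hi : i ∈ I
    · simp [hφ, hi]
    · simpa [hφ, hi] using hm' i
  have hfib : ∀ c ∈ Q, ((S.filter fun m => φ m = c).card : ℝ) ≤ M := by
    intro c _
    refine le_trans (Nat.cast_le.2 ?_) (lo_coset A D hAD M _ hM (a + ∑ i, c i • v i))
    refine Finset.card_le_card_of_injOn (fun m => a + ∑ i, m i • v i) ?_ ?_
    · intro m hm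
      have hm1 := Finset.mem_filter.1 (Finset.mem_coe.1 hm)
      have hm2 := Finset.mem_filter.1 hm1.1
      refine Finset.mem_coe.2 (Finset.mem_filter.2 ⟨hm2.2, ?_⟩)
      rw [add_sub_add_left_eq_sub, ← Finset.sum_sub_distrib]
      refine Submodule.sum_mem _ fun i _ => ?_
      by_cases hi : i ∈ I
      · have h1 : v i ∈ Submodule.span ℝ (v '' (I : Set (Fin d))) :=
          Submodule.subset_span ⟨i, hi, rfl⟩
        exact Submodule.sub_mem _ (Submodule.smul_of_tower_mem _ _ h1)
          (Submodule.smul_of_tower_mem _ _ h1)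
      · have h1 : c i = m i := by
          rw [← hm1.2]
          simp [hφ, hi]
        rw [h1, sub_self]
        exact Submodule.zero_mem _
    · intro m hm m' hm' hmm
      have hm1 := (Finset.mem_filter.1 (Finset.mem_coe.1 hm)).2
      have hm1' := (Finset.mem_filter.1 (Finset.mem_coe.1 hm')).2
      have hoff : ∀ i, i ∉ I → m i = m' i := by
        intro i hi
        have h1 : φ m i = φ m' i := by rw [hm1, hm1']
        simpa [hφ, hi] using h1
      have h0 : ∑ i ∈ I, ((m i : ℝ) - (m' i : ℝ)) • v i = 0 := by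
        have h1 : ∑ i, m i • v i = ∑ i, m' i • v i := add_left_cancel hmm
        have h2 : ∑ i, ((m i : ℝ) - (m' i : ℝ)) • v i = 0 := by
          simp only [sub_smul, Finset.sum_sub_distrib, Nat.cast_smul_eq_nsmul]
          rw [h1, sub_self]
        rw [← h2]
        refine Finset.sum_subset (Finset.subset_univ _) fun i _ hi => ?_
        rw [hoff i hi, sub_self, zero_smul]
      funext i
      by_cases hi : i ∈ I
      · have h3 := (linearIndepOn_finset_iff.1 hv) _ h0 i hi
        exact_mod_cast sub_eq_zero.1 h3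
      · exact hoff i hi
  have hcard : (S.card : ℝ) ≤ Q.card * M := by
    rw [Finset.card_eq_sum_card_fiberwise hmaps]
    push_cast
    refine (Finset.sum_le_sum hfib).trans ?_
    rw [Finset.sum_const, nsmul_eq_mul]
  refine hcard.trans ?_
  have hQc : (Q.card : ℝ) = ∏ i, (if i ∈ I then (1 : ℝ) else N i) := by
    rw [hQ, Fintype.card_piFinset]
    push_cast
    refine Finset.prod_congr rfl fun i _ => ?_
    by_cases hi : i ∈ I <;> simp [hi]
  have hNpos : (0 : ℝ) < (Ns : ℝ) ^ r := by positivity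
  have hprod : (Ns : ℝ) ^ r * (Q.card : ℝ) ≤ ∏ i, (N i : ℝ) := by
    rw [hQc]
    have h1 : (Ns : ℝ) ^ r = ∏ i, (if i ∈ I then (Ns : ℝ) else 1) := by
      rw [Finset.prod_ite_mem, Finset.univ_inter, Finset.prod_const, hI]
    rw [h1, ← Finset.prod_mul_distrib]
    refine Finset.prod_le_prod (fun i _ => ?_) (fun i _ => ?_)
    · by_cases hi : i ∈ I <;> simp [hi]
    · by_cases hi : i ∈ I
      · simpa [hi] using hbig i hi
      · simp [hi]
  rw [div_mul_eq_mul_div, le_div_iff₀ hNpos]
  calc (Q.card : ℝ) * M * (Ns : ℝ) ^ r = M * ((Ns : ℝ) ^ r * (Q.card : ℝ)) := by ring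
    _ ≤ M * ∏ i, (N i : ℝ) := mul_le_mul_of_nonneg_left hprod hM0

open Classical in
/-- Case 2b: few large directions and a small exceptional set. -/
theorem lo_few (A D : Finset G) (hAD : ∀ x ∈ A, ∀ y ∈ A, x - y ∈ D) (M : ℝ) (hM0 : 0 ≤ M)
    (Ns b : ℕ) (hNs : 1 ≤ Ns) {d : ℕ} (a : G) (v : Fin d → G) (N : Fin d → ℕ)
    (T : Finset (Fin d)) (hT : T.card ≤ b) (hsmall : ∀ i ∈ T, N i ≤ Ns) (U : Submodule ℝ G)
    (hU : ∀ i, i ∉ T → v i ∈ U ∨ N i = 1)
    (hM : ((D.filter fun x => x ∈ U).card : ℝ) ≤ M) :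
    ((A.filter fun x => ∃ m : Fin d → ℕ,
      (∀ i, m i < N i) ∧ x = a + ∑ i, m i • v i).card : ℝ) ≤ (Ns : ℝ) ^ b * M := by
  set Q : Finset (Fin d → ℕ) := Fintype.piFinset fun i => if i ∈ T then Finset.range (N i) else {0}
    with hQ
  have hsub : (A.filter fun x => ∃ m : Fin d → ℕ,
      (∀ i, m i < N i) ∧ x = a + ∑ i, m i • v i) ⊆
      Q.biUnion fun c => A.filter fun x => x - (a + ∑ i, c i • v i) ∈ U := by
    intro x hx
    obtain ⟨hxA, m, hm, rfl⟩ := Finset.mem_filter.1 hx
    refine Finset.mem_biUnion.2 ⟨fun i => if i ∈ T then m i else 0, ?_, ?_⟩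
    · refine Fintype.mem_piFinset.2 fun i => ?_
      by_cases hi : i ∈ T <;> simp [hi, hm i]
    · refine Finset.mem_filter.2 ⟨hxA, ?_⟩
      rw [add_sub_add_left_eq_sub, ← Finset.sum_sub_distrib]
      refine Submodule.sum_mem _ fun i _ => ?_
      by_cases hi : i ∈ T
      · simp [hi]
      · simp only [hi, if_false, zero_smul, sub_zero]
        rcases hU i hi with h1 | h1
        · exact Submodule.smul_of_tower_mem _ _ h1
        · have h2 : m i = 0 := by
            have := hm i
            omega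
          rw [h2, zero_smul]
          exact Submodule.zero_mem _
  have h1 : ((A.filter fun x => ∃ m : Fin d → ℕ,
      (∀ i, m i < N i) ∧ x = a + ∑ i, m i • v i).card : ℝ) ≤ Q.card * M := by
    refine (Nat.cast_le.2 ((Finset.card_le_card hsub).trans Finset.card_biUnion_le)).trans ?_
    push_cast
    refine (Finset.sum_le_sum fun c _ => lo_coset A D hAD M U hM _).trans ?_
    rw [Finset.sum_const, nsmul_eq_mul]
  refine h1.trans (mul_le_mul_of_nonneg_right ?_ hM0)
  have hQc : (Q.card : ℝ) = ∏ i, (if i ∈ T then (N i : ℝ) else 1) := by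
    rw [hQ, Fintype.card_piFinset]
    push_cast
    refine Finset.prod_congr rfl fun i _ => ?_
    by_cases hi : i ∈ T <;> simp [hi]
  rw [hQc, Finset.prod_ite_mem, Finset.univ_inter]
  refine (Finset.prod_le_prod (fun i _ => Nat.cast_nonneg _)
    (fun i hi => (Nat.cast_le.2 (hsmall i hi) : (N i : ℝ) ≤ Ns))).trans ?_
  rw [Finset.prod_const]
  exact pow_le_pow_right₀ (by exact_mod_cast hNs) hT

end Basic

section Algebra

variable {G : Type} [AddCommGroup G]

theorem TB_eq [DecidableEq G] (B : Finset G) (μ : AddMonoidAlgebra ℝ G) :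
    TB B μ = Finsupp.linearCombination ℝ
      (fun x => ((B.filter fun b => x + b ∈ B).card : ℝ)) μ.coeff := by
  rw [Finsupp.linearCombination_apply]
  rfl

theorem prod_single {ι : Type} (s : Finset ι) (f : ι → G) :
    ∏ i ∈ s, (AddMonoidAlgebra.single (f i) (1 : ℝ)) =
      AddMonoidAlgebra.single (∑ i ∈ s, f i) (1 : ℝ) := by
  classical
  induction s using Finset.induction_on with
  | empty => simp [AddMonoidAlgebra.one_def]
  | insert a s ha ih =>
    rw [Finset.prod_insert ha, Finset.sum_insert ha, ih, AddMonoidAlgebra.single_mul_single,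
      one_mul]

/-- The measure `∏ (1/2) (δ_0 + δ_{v i})`. -/
noncomputable def cube {ι : Type} [Fintype ι] (v : ι → G) : AddMonoidAlgebra ℝ G :=
  ∏ i, ((1 / 2 : ℝ) • (AddMonoidAlgebra.single 0 1 + AddMonoidAlgebra.single (v i) 1) :
    AddMonoidAlgebra ℝ G)

theorem cube_eq {ι : Type} [Fintype ι] [DecidableEq ι] (v : ι → G) :
    cube v = ∑ ε : ι → Bool, (1 / 2 : ℝ) ^ (Fintype.card ι) •
      (AddMonoidAlgebra.single (∑ i, if ε i = true then v i else 0) 1 :
        AddMonoidAlgebra ℝ G) := by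
  have h1 : ∀ i, ((1 / 2 : ℝ) • (AddMonoidAlgebra.single 0 1 +
      AddMonoidAlgebra.single (v i) 1) : AddMonoidAlgebra ℝ G) =
      ∑ b : Bool, (1 / 2 : ℝ) • AddMonoidAlgebra.single (if b = true then v i else 0) 1 := by
    intro i
    rw [Fintype.sum_bool, smul_add, add_comm]
    simp
  unfold cube
  rw [Finset.prod_congr rfl fun i _ => h1 i, Finset.prod_univ_sum]
  rw [Fintype.piFinset_univ]
  refine Finset.sum_congr rfl fun ε _ => ?_
  rw [Finset.prod_smul, Finset.prod_const, prod_single, Finset.card_univ]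

theorem coeff_cube_nonneg {ι : Type} [Fintype ι] (v : ι → G) (x : G) : 0 ≤ (cube v).coeff x := by
  classical
  rw [cube_eq, AddMonoidAlgebra.coeff_sum, Finsupp.finsetSum_apply]
  refine Finset.sum_nonneg fun ε _ => ?_
  rw [AddMonoidAlgebra.coeff_smul, Finsupp.smul_apply, AddMonoidAlgebra.coeff_single,
    Finsupp.single_apply, smul_eq_mul]
  split_ifs <;> positivity

theorem TB_cube [DecidableEq G] {ι : Type} [Fintype ι] [DecidableEq ι] (B : Finset G) (v : ι → G)
    (t : G) :
    TB B (cube v * AddMonoidAlgebra.single t 1) = ∑ ε : ι → Bool, (1 / 2 : ℝ) ^ (Fintype.card ι) *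
      ((B.filter fun b => (∑ i, if ε i = true then v i else 0) + t + b ∈ B).card : ℝ) := by
  rw [cube_eq, Finset.sum_mul, TB_eq, AddMonoidAlgebra.coeff_sum, map_sum]
  refine Finset.sum_congr rfl fun ε _ => ?_
  rw [smul_mul_assoc, AddMonoidAlgebra.single_mul_single, AddMonoidAlgebra.coeff_smul, map_smul,
    AddMonoidAlgebra.coeff_single, Finsupp.linearCombination_single, smul_eq_mul, smul_eq_mul,
    mul_one, one_mul]

/-- All elements of the support are in `U`. -/
def InU (U : AddSubgroup G) (μ : AddMonoidAlgebra ℝ G) : Prop := ∀ x, μ.coeff x ≠ 0 → x ∈ U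

theorem InU.mul {U : AddSubgroup G} {μ ν : AddMonoidAlgebra ℝ G} (h1 : InU U μ) (h2 : InU U ν) :
    InU U (μ * ν) := by
  classical
  intro x hx
  have h3 := AddMonoidAlgebra.support_coeff_mul_subset μ ν (Finsupp.mem_support_iff.2 hx)
  obtain ⟨y, hy, z, hz, rfl⟩ := Finset.mem_add.1 h3
  exact U.add_mem (h1 y (Finsupp.mem_support_iff.1 hy)) (h2 z (Finsupp.mem_support_iff.1 hz))

theorem InU.pow {U : AddSubgroup G} {μ : AddMonoidAlgebra ℝ G} (h1 : InU U μ) (k : ℕ) :
    InU U (μ ^ k) := by
  classical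
  induction k with
  | zero =>
    intro x hx
    rw [pow_zero, AddMonoidAlgebra.one_def, AddMonoidAlgebra.coeff_single,
      Finsupp.single_apply] at hx
    by_cases h : (0 : G) = x
    · rw [← h]
      exact U.zero_mem
    · exact absurd (if_neg h) hx
  | succ k ih =>
    rw [pow_succ]
    exact ih.mul h1

theorem InU.rev {U : AddSubgroup G} {μ : AddMonoidAlgebra ℝ G} (h1 : InU U μ) :
    InU U (rev μ) := by
  classical
  intro x hx
  have h3 : x ∈ (Finsupp.mapDomain (fun x : G => -x) μ.coeff).support :=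
    Finsupp.mem_support_iff.2 hx
  obtain ⟨y, hy, rfl⟩ := Finset.mem_image.1 (Finsupp.mapDomain_support h3)
  exact U.neg_mem (h1 y (Finsupp.mem_support_iff.1 hy))

theorem InU.cube {U : AddSubgroup G} {ι : Type} [Fintype ι] {v : ι → G} (hv : ∀ i, v i ∈ U) :
    InU U (cube v) := by
  classical
  intro x hx
  by_contra hxU
  apply hx
  rw [cube_eq, AddMonoidAlgebra.coeff_sum, Finsupp.finsetSum_apply]
  refine Finset.sum_eq_zero fun ε _ => ?_
  rw [AddMonoidAlgebra.coeff_smul, Finsupp.smul_apply, AddMonoidAlgebra.coeff_single,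
    Finsupp.single_apply, if_neg, smul_zero]
  rintro rfl
  exact hxU (sum_mem fun i _ => by
    split_ifs
    · exact hv i
    · exact U.zero_mem)

/-- All coefficients are nonnegative. -/
def NN (μ : AddMonoidAlgebra ℝ G) : Prop := ∀ x, 0 ≤ μ.coeff x

theorem NN.mul {μ ν : AddMonoidAlgebra ℝ G} (h1 : NN μ) (h2 : NN ν) : NN (μ * ν) := by
  classical
  intro x
  rw [AddMonoidAlgebra.mul_def, AddMonoidAlgebra.coeff_finsuppSum, Finsupp.sum,
    Finsupp.finsetSum_apply]
  refine Finset.sum_nonneg fun y _ => ?_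
  rw [AddMonoidAlgebra.coeff_finsuppSum, Finsupp.sum, Finsupp.finsetSum_apply]
  refine Finset.sum_nonneg fun z _ => ?_
  rw [AddMonoidAlgebra.coeff_single, Finsupp.single_apply]
  split_ifs
  · exact mul_nonneg (h1 y) (h2 z)
  · exact le_rfl

theorem NN.pow {μ : AddMonoidAlgebra ℝ G} (h1 : NN μ) (k : ℕ) : NN (μ ^ k) := by
  classical
  induction k with
  | zero =>
    intro x
    rw [pow_zero, AddMonoidAlgebra.one_def, AddMonoidAlgebra.coeff_single, Finsupp.single_apply]
    split_ifs <;> norm_num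
  | succ k ih =>
    rw [pow_succ]
    exact ih.mul h1

theorem NN.rev {μ : AddMonoidAlgebra ℝ G} (h1 : NN μ) : NN (rev μ) := by
  intro x
  have h2 : (PF.rev μ).coeff x = μ.coeff (-x) := by
    have h3 := Finsupp.mapDomain_apply (f := fun x : G => -x) neg_injective μ.coeff (-x)
    simp only [neg_neg] at h3
    exact h3
  rw [h2]
  exact h1 _

theorem NN.TB [DecidableEq G] {μ : AddMonoidAlgebra ℝ G} (h1 : NN μ) (B : Finset G) :
    0 ≤ TB B μ := by
  unfold PF.TB
  exact Finset.sum_nonneg fun x _ => mul_nonneg (h1 x) (Nat.cast_nonneg _)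

end Algebra

section Main

variable {G : Type} [AddCommGroup G] [Module ℝ G]

open Classical in
/-- The sum over the copies for a power of the symmetrised cube. -/
theorem lo_TB (h2 : S_K2) (B D : Finset G) (hBD : ∀ x ∈ B, ∀ y ∈ B, x - y ∈ D)
    (M : ℝ) (r l : ℕ) (v : Fin r → G) (hv : LinearIndependent ℝ v)
    (hM : ((D.filter fun x => x ∈ Submodule.span ℝ (Set.range v)).card : ℝ) ≤ M) :
    TB B ((cube v * rev (cube v)) ^ (2 ^ l)) ≤
      B.card * (M * (((2 ^ l).centralBinom : ℝ) / 4 ^ (2 ^ l)) ^ r) := by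
  set β : ℝ := ((2 ^ l).centralBinom : ℝ) / 4 ^ (2 ^ l) with hβ
  have hβ0 : 0 ≤ β := by positivity
  set ν := (cube v * rev (cube v)) ^ (2 ^ l) with hν
  have hcoeff : ∀ x, ν.coeff x ≤ β ^ r := h2 G r l v hv (cube v) rfl
  have hin : InU (Submodule.span ℝ (Set.range v)).toAddSubgroup ν := by
    have h1 : InU (Submodule.span ℝ (Set.range v)).toAddSubgroup (cube v) :=
      InU.cube fun i => Submodule.subset_span ⟨i, rfl⟩
    exact (h1.mul h1.rev).pow _
  have hzero : ∀ x ∉ (D.filter fun x => x ∈ Submodule.span ℝ (Set.range v)),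
      ν.coeff x * ((B.filter fun b => x + b ∈ B).card : ℝ) = 0 := by
    intro x hx
    by_cases hν0 : ν.coeff x = 0
    · rw [hν0, zero_mul]
    · have hxU := hin x hν0
      have hxD : x ∉ D := fun h => hx (Finset.mem_filter.2 ⟨h, hxU⟩)
      have h3 : (B.filter fun b => x + b ∈ B) = ∅ := by
        refine Finset.filter_eq_empty_iff.2 fun b hb hb' => hxD ?_
        have := hBD _ hb' b hb
        rwa [add_sub_cancel_right] at this
      rw [h3, Finset.card_empty, Nat.cast_zero, mul_zero]
  have h4 : TB B ν = ∑ x ∈ (D.filter fun x => x ∈ Submodule.span ℝ (Set.range v)),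
      ν.coeff x * ((B.filter fun b => x + b ∈ B).card : ℝ) := by
    unfold TB
    rw [Finsupp.sum]
    have h5 : ∑ x ∈ ν.coeff.support, ν.coeff x * ((B.filter fun b => x + b ∈ B).card : ℝ) =
      ∑ x ∈ ν.coeff.support ∪ (D.filter fun x => x ∈ Submodule.span ℝ (Set.range v)),
        ν.coeff x * ((B.filter fun b => x + b ∈ B).card : ℝ) := by
      refine Finset.sum_subset Finset.subset_union_left fun x _ hx => ?_
      rw [Finsupp.notMem_support_iff.1 hx, zero_mul]
    rw [h5]
    exact (Finset.sum_subset Finset.subset_union_right fun x _ hx => hzero x hx).symm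
  rw [h4]
  calc _ ≤ ∑ x ∈ (D.filter fun x => x ∈ Submodule.span ℝ (Set.range v)),
      β ^ r * (B.card : ℝ) := by
        refine Finset.sum_le_sum fun x _ => ?_
        refine (mul_le_mul_of_nonneg_right (hcoeff x) (Nat.cast_nonneg _)).trans ?_
        exact mul_le_mul_of_nonneg_left (Nat.cast_le.2 (Finset.card_filter_le _ _)) (by positivity)
    _ = ((D.filter fun x => x ∈ Submodule.span ℝ (Set.range v)).card : ℝ) *
        (β ^ r * (B.card : ℝ)) := by rw [Finset.sum_const, nsmul_eq_mul]
    _ ≤ M * (β ^ r * (B.card : ℝ)) := mul_le_mul_of_nonneg_right hM (by positivity)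
    _ = _ := by ring

open Classical in
/-- The number of the points of a cube in `A`. -/
theorem lo_cube (h1 : S_K1) (h2 : S_K2) (A B D : Finset G) (K M : ℝ) (r l : ℕ)
    (hA : A.Nonempty) (hA0 : 0 ∈ A) (hAB : ∀ x ∈ A, ∀ y ∈ A, x + y ∈ B)
    (hBD : ∀ x ∈ B, ∀ y ∈ B, x - y ∈ D) (hK : (B.card : ℝ) ≤ K * A.card) (hM0 : 0 ≤ M)
    (w : Fin (2 ^ (l + 1)) → Fin r → G) (hw : ∀ j, LinearIndependent ℝ (w j))
    (hM : ∀ j, ((D.filter fun x => x ∈ Submodule.span ℝ (Set.range (w j))).card : ℝ) ≤ M)
    (t : G) :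
    (((Finset.univ : Finset (Fin (2 ^ (l + 1)) × Fin r → Bool)).filter fun ε =>
      (∑ p, if ε p = true then w p.1 p.2 else 0) + t ∈ A).card : ℝ) ≤
      (K * M * (((2 ^ l).centralBinom : ℝ) / 4 ^ (2 ^ l)) ^ r) *
        2 ^ (Fintype.card (Fin (2 ^ (l + 1)) × Fin r)) := by
  set β : ℝ := ((2 ^ l).centralBinom : ℝ) / 4 ^ (2 ^ l) with hβ
  have hβ0 : 0 ≤ β := by positivity
  have hApos : (0 : ℝ) < A.card := Nat.cast_pos.2 (Finset.card_pos.2 hA)
  set τ := TB B ((∏ j, cube (w j)) * AddMonoidAlgebra.single t 1) with hτ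
  have hprod : ∏ j, cube (w j) = cube (fun p : Fin (2 ^ (l + 1)) × Fin r => w p.1 p.2) := by
    unfold cube
    rw [Fintype.prod_prod_type]
  have hlow : (((Finset.univ : Finset (Fin (2 ^ (l + 1)) × Fin r → Bool)).filter fun ε =>
      (∑ p, if ε p = true then w p.1 p.2 else 0) + t ∈ A).card : ℝ) * A.card ≤
      2 ^ (Fintype.card (Fin (2 ^ (l + 1)) × Fin r)) * τ := by
    rw [hτ, hprod, TB_cube, Finset.mul_sum, Finset.card_filter]
    push_cast
    rw [Finset.sum_mul]
    refine Finset.sum_le_sum fun ε _ => ?_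
    rw [← mul_assoc, ← mul_pow, show (2 : ℝ) * (1 / 2) = 1 by norm_num, one_pow, one_mul]
    split_ifs with hε
    · rw [one_mul]
      refine Nat.cast_le.2 (Finset.card_le_card fun b hb => Finset.mem_filter.2 ⟨?_, ?_⟩)
      · have := hAB 0 hA0 b hb
        rwa [zero_add] at this
      · exact hAB _ hε b hb
    · rw [zero_mul]
      exact Nat.cast_nonneg _
  have hup : τ ≤ B.card * (M * β ^ r) := by
    have h3 := h1 G B l t (fun j => cube (w j)) (fun j x => coeff_cube_nonneg _ _)
    have h4 : ∏ j, TB B ((cube (w j) * rev (cube (w j))) ^ (2 ^ l)) ≤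
        (B.card * (M * β ^ r)) ^ (2 ^ (l + 1)) := by
      refine (Finset.prod_le_prod (fun j _ => ?_) (fun j _ => lo_TB h2 B D hBD M r l (w j) (hw j)
        (hM j))).trans ?_
      · have h5 : NN (cube (w j)) := coeff_cube_nonneg _
        exact ((h5.mul h5.rev).pow _).TB B
      · rw [Finset.prod_const, Finset.card_univ, Fintype.card_fin]
    exact le_of_pow_le_pow_left₀ (by positivity) (by positivity) (h3.trans h4)
  have h5 : (((Finset.univ : Finset (Fin (2 ^ (l + 1)) × Fin r → Bool)).filter fun ε =>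
      (∑ p, if ε p = true then w p.1 p.2 else 0) + t ∈ A).card : ℝ) * A.card ≤
      (K * M * β ^ r) * 2 ^ (Fintype.card (Fin (2 ^ (l + 1)) × Fin r)) * A.card := by
    refine hlow.trans ?_
    calc _ ≤ (2 : ℝ) ^ (Fintype.card (Fin (2 ^ (l + 1)) × Fin r)) * (B.card * (M * β ^ r)) :=
          mul_le_mul_of_nonneg_left hup (by positivity)
      _ ≤ (2 : ℝ) ^ (Fintype.card (Fin (2 ^ (l + 1)) × Fin r)) * (K * A.card * (M * β ^ r)) := by
          refine mul_le_mul_of_nonneg_left ?_ (by positivity)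
          exact mul_le_mul_of_nonneg_right hK (by positivity)
      _ = _ := by ring
  exact le_of_mul_le_mul_right h5 hApos

open Classical in
/-- The shift of some of the coordinates of a box. -/
noncomputable def shift {d : ℕ} {ι : Type} (N : Fin d → ℕ) (idx : ι → Fin d) (ε : ι → Bool)
    (m : Fin d → ℕ) : Fin d → ℕ := fun i =>
  if ∃ p, idx p = i ∧ ε p = true then (m i + 1) % N i else m i

open Classical in
/-- The inverse shift. -/
noncomputable def unshift {d : ℕ} {ι : Type} (N : Fin d → ℕ) (idx : ι → Fin d) (ε : ι → Bool)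
    (m : Fin d → ℕ) : Fin d → ℕ := fun i =>
  if ∃ p, idx p = i ∧ ε p = true then (m i + (N i - 1)) % N i else m i

theorem shift_unshift {d : ℕ} {ι : Type} (N : Fin d → ℕ) (hN : ∀ i, 1 ≤ N i) (idx : ι → Fin d)
    (ε : ι → Bool) (m : Fin d → ℕ) (hm : ∀ i, m i < N i) :
    shift N idx ε (unshift N idx ε m) = m := by
  funext i
  unfold shift unshift
  by_cases h : ∃ p, idx p = i ∧ ε p = true
  · simp only [h, if_true]
    rw [Nat.mod_add_mod, show m i + (N i - 1) + 1 = m i + N i by have := hN i; omega,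
      Nat.add_mod_right, Nat.mod_eq_of_lt (hm i)]
  · simp only [h, if_false]

theorem unshift_lt {d : ℕ} {ι : Type} (N : Fin d → ℕ) (hN : ∀ i, 1 ≤ N i) (idx : ι → Fin d)
    (ε : ι → Bool) (m : Fin d → ℕ) (hm : ∀ i, m i < N i) (i : Fin d) :
    unshift N idx ε m i < N i := by
  unfold unshift
  split_ifs
  · exact Nat.mod_lt _ (hN i)
  · exact hm i

theorem shift_sum {d : ℕ} {ι : Type} [Fintype ι] (N : Fin d → ℕ) (idx : ι → Fin d)
    (hidx : Function.Injective idx) (ε : ι → Bool) (m : Fin d → ℕ) (v : Fin d → G) :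
    ∑ i, shift N idx ε m i • v i = (∑ p, if ε p = true then
      ((((m (idx p) + 1) % N (idx p) : ℕ) : ℝ) - (m (idx p) : ℝ)) • v (idx p) else 0) +
      ∑ i, m i • v i := by
  classical
  rw [← sub_eq_iff_eq_add, ← Finset.sum_sub_distrib]
  symm
  refine Fintype.sum_of_injective idx hidx _ _ ?_ ?_
  · intro i hi
    have h1 : ¬ ∃ p, idx p = i ∧ ε p = true := by
      rintro ⟨p, hp, _⟩
      exact hi ⟨p, hp⟩
    simp [shift, h1]
  · intro p
    by_cases hp : ε p = true
    · have h1 : ∃ p', idx p' = idx p ∧ ε p' = true := ⟨p, rfl, hp⟩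
      simp only [hp, if_true, shift, h1, sub_smul, Nat.cast_smul_eq_nsmul]
    · have h1 : ¬ ∃ p', idx p' = idx p ∧ ε p' = true := by
        rintro ⟨p', h2, h3⟩
        rw [hidx h2] at h3
        exact hp h3
      simp only [hp, shift, h1, if_false, sub_self, Bool.false_eq_true]

open Classical in
/-- Case 2a: many small independent directions. -/
theorem lo_small (h1 : S_K1) (h2 : S_K2) (A B D : Finset G) (K M : ℝ) (r l : ℕ)
    (hA : A.Nonempty) (hA0 : 0 ∈ A) (hAB : ∀ x ∈ A, ∀ y ∈ A, x + y ∈ B)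
    (hBD : ∀ x ∈ B, ∀ y ∈ B, x - y ∈ D) (hK : (B.card : ℝ) ≤ K * A.card) (hM0 : 0 ≤ M)
    {d : ℕ} (a : G) (v : Fin d → G) (N : Fin d → ℕ) (hN : ∀ i, 1 ≤ N i)
    (e : Fin (2 ^ (l + 1)) × Fin r → Fin d) (he : Function.Injective e)
    (hN2 : ∀ p, 2 ≤ N (e p)) (hv : ∀ j, LinearIndependent ℝ fun i => v (e (j, i)))
    (hM : ∀ j, ((D.filter fun x => x ∈
      Submodule.span ℝ (Set.range fun i => v (e (j, i)))).card : ℝ) ≤ M) :
    (((Fintype.piFinset fun i => Finset.range (N i)).filter fun m : Fin d → ℕ =>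
      a + ∑ i, m i • v i ∈ A).card : ℝ) ≤
      (K * M * (((2 ^ l).centralBinom : ℝ) / 4 ^ (2 ^ l)) ^ r) * ∏ i, (N i : ℝ) := by
  set β : ℝ := ((2 ^ l).centralBinom : ℝ) / 4 ^ (2 ^ l) with hβ
  set S := Fintype.piFinset fun i => Finset.range (N i) with hS
  set n := Fintype.card (Fin (2 ^ (l + 1)) × Fin r) with hn
  have hmemS : ∀ m, m ∈ S ↔ ∀ i, m i < N i := by
    intro m
    simp [hS, Fintype.mem_piFinset]
  -- the bound for one cube
  have hcube : ∀ m ∈ S, (((Finset.univ : Finset (Fin (2 ^ (l + 1)) × Fin r → Bool)).filter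
      fun ε => a + ∑ i, shift N e ε m i • v i ∈ A).card : ℝ) ≤ (K * M * β ^ r) * 2 ^ n := by
    intro m hm
    have hm' := (hmemS m).1 hm
    set c : Fin (2 ^ (l + 1)) → Fin r → ℝ := fun j i =>
      (((m (e (j, i)) + 1) % N (e (j, i)) : ℕ) : ℝ) - (m (e (j, i)) : ℝ) with hc
    have hc0 : ∀ j i, c j i ≠ 0 := by
      intro j i h0
      have h3 : (m (e (j, i)) + 1) % N (e (j, i)) = m (e (j, i)) := by
        exact_mod_cast sub_eq_zero.1 h0
      have h4 := hN2 (j, i)
      have h5 := hm' (e (j, i))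
      rcases Nat.lt_or_ge (m (e (j, i)) + 1) (N (e (j, i))) with h6 | h6
      · rw [Nat.mod_eq_of_lt h6] at h3
        omega
      · have h7 : m (e (j, i)) + 1 = N (e (j, i)) := by omega
        rw [h7, Nat.mod_self] at h3
        omega
    set w : Fin (2 ^ (l + 1)) → Fin r → G := fun j i => c j i • v (e (j, i)) with hw
    have hwli : ∀ j, LinearIndependent ℝ (w j) := by
      intro j
      exact (hv j).units_smul fun i => Units.mk0 (c j i) (hc0 j i)
    have hspan : ∀ j, Submodule.span ℝ (Set.range (w j)) ≤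
        Submodule.span ℝ (Set.range fun i => v (e (j, i))) := by
      intro j
      refine Submodule.span_le.2 ?_
      rintro x ⟨i, rfl⟩
      exact Submodule.smul_mem _ _ (Submodule.subset_span ⟨i, rfl⟩)
    have h3 := lo_cube h1 h2 A B D K M r l hA hA0 hAB hBD hK hM0 w hwli (fun j => by
      refine le_trans (Nat.cast_le.2 (Finset.card_le_card ?_)) (hM j)
      exact Finset.monotone_filter_right _ fun x _ hx => hspan j hx) (∑ i, m i • v i + a)
    refine le_trans (le_of_eq ?_) h3
    congr 2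
    refine Finset.filter_congr fun ε _ => ?_
    have h7 : a + ∑ i, shift N e ε m i • v i =
        (∑ p, if ε p = true then w p.1 p.2 else 0) + (∑ i, m i • v i + a) := by
      rw [shift_sum N e he ε m v]
      simp only [hw, hc, Prod.mk.eta]
      abel
    rw [h7]
  -- double counting
  have hdc : (2 : ℝ) ^ n * ((S.filter fun m : Fin d → ℕ => a + ∑ i, m i • v i ∈ A).card : ℝ) ≤
      ∑ m ∈ S, (((Finset.univ : Finset (Fin (2 ^ (l + 1)) × Fin r → Bool)).filter
      fun ε => a + ∑ i, shift N e ε m i • v i ∈ A).card : ℝ) := by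
    have h3 : ∀ ε : Fin (2 ^ (l + 1)) × Fin r → Bool,
        (S.filter fun m : Fin d → ℕ => a + ∑ i, m i • v i ∈ A).card ≤
        (S.filter fun m : Fin d → ℕ => a + ∑ i, shift N e ε m i • v i ∈ A).card := by
      intro ε
      refine Finset.card_le_card_of_injOn (unshift N e ε) ?_ ?_
      · intro m hm
        obtain ⟨hm1, hm2⟩ := Finset.mem_filter.1 (Finset.mem_coe.1 hm)
        have hm' := (hmemS m).1 hm1
        refine Finset.mem_coe.2 (Finset.mem_filter.2 ⟨(hmemS _).2 (unshift_lt N hN e ε m hm'), ?_⟩)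
        rw [shift_unshift N hN e ε m hm']
        exact hm2
      · intro m hm m' hm' hmm
        have hm1 := (hmemS m).1 (Finset.mem_filter.1 (Finset.mem_coe.1 hm)).1
        have hm1' := (hmemS m').1 (Finset.mem_filter.1 (Finset.mem_coe.1 hm')).1
        rw [← shift_unshift N hN e ε m hm1, hmm, shift_unshift N hN e ε m' hm1']
    have h4 : ∑ m ∈ S, (((Finset.univ : Finset (Fin (2 ^ (l + 1)) × Fin r → Bool)).filter
      fun ε => a + ∑ i, shift N e ε m i • v i ∈ A).card : ℝ) =
      ∑ ε : Fin (2 ^ (l + 1)) × Fin r → Bool,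
        ((S.filter fun m : Fin d → ℕ => a + ∑ i, shift N e ε m i • v i ∈ A).card : ℝ) := by
      simp only [Finset.card_filter]
      push_cast
      exact Finset.sum_comm
    rw [h4]
    have h5 : (2 : ℝ) ^ n * ((S.filter fun m : Fin d → ℕ => a + ∑ i, m i • v i ∈ A).card : ℝ) =
        ∑ _ε : Fin (2 ^ (l + 1)) × Fin r → Bool,
          ((S.filter fun m : Fin d → ℕ => a + ∑ i, m i • v i ∈ A).card : ℝ) := by
      rw [Finset.sum_const, nsmul_eq_mul, Finset.card_univ, Fintype.card_fun, Fintype.card_bool]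
      push_cast
      rfl
    rw [h5]
    exact Finset.sum_le_sum fun ε _ => Nat.cast_le.2 (h3 ε)
  have hSc : (S.card : ℝ) = ∏ i, (N i : ℝ) := by
    rw [hS, Fintype.card_piFinset]
    push_cast
    simp
  have h6 : (2 : ℝ) ^ n * ((S.filter fun m : Fin d → ℕ => a + ∑ i, m i • v i ∈ A).card : ℝ) ≤
      2 ^ n * ((K * M * β ^ r) * ∏ i, (N i : ℝ)) := by
    refine hdc.trans ((Finset.sum_le_sum hcube).trans (le_of_eq ?_))
    rw [Finset.sum_const, nsmul_eq_mul, hSc]
    ring
  exact le_of_mul_le_mul_left h6 (by positivity)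

/-- Piece LO: the combinatorial theorem. -/
theorem pieceLO (h1 : S_K1) (h2 : S_K2) (h4 : S_K4) : S_LO := by
  classical
  intro G _ _ A B D K M r l Ns hA hA0 hAB hBD hK hM hNs hr d a v N hN hmany
  have hAsub : ∀ x ∈ A, x ∈ B := fun x hx => by
    have := hAB 0 hA0 x hx
    rwa [zero_add] at this
  have hAD : ∀ x ∈ A, ∀ y ∈ A, x - y ∈ D := fun x hx y hy => hBD x (hAsub x hx) y (hAsub y hy)
  have hM' : ∀ U : Submodule ℝ G, FiniteDimensional ℝ U → Module.finrank ℝ U ≤ 2 * r →
      ((D.filter fun x => x ∈ U).card : ℝ) ≤ M := by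
    intro U hU hU'
    refine le_trans (le_of_eq ?_) (hM U hU hU')
    congr 2
  have hM0 : 0 ≤ M := le_trans (Nat.cast_nonneg _) (hM' ⊥ inferInstance (by simp))
  have hspanfin : ∀ s : Finset (Fin d),
      FiniteDimensional ℝ (Submodule.span ℝ (v '' (s : Set (Fin d)))) := fun s =>
    FiniteDimensional.span_of_finite ℝ (s.finite_toSet.image v)
  have hspancard : ∀ s : Finset (Fin d),
      Module.finrank ℝ (Submodule.span ℝ (v '' (s : Set (Fin d)))) ≤ s.card := fun s => by
    rw [← Finset.coe_image]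
    exact (finrank_span_finset_le_card _).trans Finset.card_image_le
  -- the large directions
  set big : Finset (Fin d) := Finset.univ.filter fun i => Ns ≤ N i with hbig
  set small : Finset (Fin d) := Finset.univ.filter fun i => 2 ≤ N i ∧ N i < Ns with hsmall
  obtain ⟨b, hbt, -, hbspan, hbli⟩ := exists_linearIndepOn_extension
    (linearIndepOn_empty ℝ v) (Set.empty_subset (big : Set (Fin d)))
  set b' : Finset (Fin d) := (Set.toFinite b).toFinset with hb'
  have hb'c : (b' : Set (Fin d)) = b := Set.Finite.coe_toFinset _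
  by_cases hcase : r ≤ b'.card
  · -- case 1
    obtain ⟨I, hIb, hIc⟩ := Finset.exists_subset_card_eq hcase
    have hIb' : (I : Set (Fin d)) ⊆ b := by
      rw [← hb'c]
      exact_mod_cast hIb
    have h5 := lo_big A D hAD M hM0 r Ns (by omega) a v N I hIc (hbli.mono hIb')
      (fun i hi => (Finset.mem_filter.1 (Finset.mem_coe.1 (hbt (hIb' hi)))).2)
      (hM' _ (hspanfin I) ((hspancard I).trans (by omega)))
    refine (le_trans (le_of_eq ?_) h5).trans
      (mul_le_mul_of_nonneg_right (le_max_left _ _) (by positivity))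
    congr 2
  · have hbrank : Module.finrank ℝ (Submodule.span ℝ (v '' (big : Set (Fin d)))) < r := by
      have h5 : Submodule.span ℝ (v '' (big : Set (Fin d))) ≤
          Submodule.span ℝ (v '' (b' : Set (Fin d))) := by
        rw [hb'c]
        exact Submodule.span_le.2 hbspan
      have := hspanfin b'
      have h6 := (Submodule.finrank_mono h5).trans (hspancard b')
      omega
    rcases h4 G d r (2 ^ (l + 1)) v small hr with ⟨I, hI, hdis⟩ | ⟨T, hTs, hTc, hTr⟩
    · -- case 2a
      have hIcard : ∀ j, Fintype.card (I j) = r := fun j => by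
        rw [Fintype.card_coe]
        exact (hI j).2.1
      set eq : ∀ j, Fin r ≃ I j := fun j => (Fintype.equivFinOfCardEq (hIcard j)).symm with heq
      set e : Fin (2 ^ (l + 1)) × Fin r → Fin d := fun p => (eq p.1 p.2 : Fin d) with he
      have hinj : Function.Injective e := by
        rintro ⟨j, i⟩ ⟨j', i'⟩ h
        have hj : j = j' := by
          by_contra hne
          exact Finset.disjoint_left.1 (hdis hne) (eq j i).2 (by
            have h' : ((eq j i : I j) : Fin d) = eq j' i' := h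
            rw [h']
            exact (eq j' i').2)
        subst hj
        have h' : ((eq j i : I j) : Fin d) = eq j i' := h
        rw [(eq j).injective (Subtype.ext h')]
      have h5 := lo_small h1 h2 A B D K M r l hA hA0 hAB hBD hK hM0 a v N hN e hinj
        (fun p => (Finset.mem_filter.1 ((hI p.1).1 (eq p.1 p.2).2)).2.1)
        (fun j => (hI j).2.2.comp (eq j) (eq j).injective)
        (fun j => by
          refine hM' _ (FiniteDimensional.span_of_finite ℝ (Set.finite_range _)) ?_
          refine (finrank_range_le_card _).trans ?_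
          rw [Fintype.card_fin]
          omega)
      refine (le_trans (le_of_eq ?_) h5).trans
        (mul_le_mul_of_nonneg_right (le_max_right _ _) (by positivity))
      congr 2
    · -- case 2b
      exfalso
      have hfin1 := hspanfin big
      have hfin2 := hspanfin (small \ T)
      have h5 := lo_few A D hAD M hM0 Ns (2 ^ (l + 1) * r) (by omega) a v N T hTc
        (fun i hi => (Finset.mem_filter.1 (hTs hi)).2.2.le)
        (Submodule.span ℝ (v '' (big : Set (Fin d))) ⊔
          Submodule.span ℝ (v '' ((small \ T : Finset (Fin d)) : Set (Fin d))))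
        (fun i hi => by
          by_cases h6 : Ns ≤ N i
          · left
            refine Submodule.mem_sup_left (Submodule.subset_span ⟨i, ?_, rfl⟩)
            simpa [hbig] using h6
          · by_cases h7 : 2 ≤ N i
            · left
              refine Submodule.mem_sup_right (Submodule.subset_span ⟨i, ?_, rfl⟩)
              simp [hsmall, h7, hi]
              omega
            · right
              have := hN i
              omega)
        (hM' _ inferInstance (by
          refine (Submodule.finrank_add_le_finrank_add_finrank _ _).trans ?_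
          omega))
      refine absurd (lt_of_lt_of_le hmany ?_) (lt_irrefl _)
      refine le_trans (le_of_eq ?_) h5
      congr 2

end Main

end Pool.Agent.K6.H81.PF
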