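import Pool.Agent.K6.H81.PF.Stm

/-! Piece P: pigeonhole (helper30). -/

set_option autoImplicit false

namespace Pool.Agent.K6.H81.PF

open Finset

open Classical in
theorem pieceP : S_P := by
  intro n p R _ u
  let f : V n → ZMod p := fun x => ∑ j, u j * (x j : ZMod p)
  let A : Finset (V n) := Fintype.piFinset fun _ => Finset.Icc (0 : ℤ) R
  have hA : A.card = (R + 1) ^ n := by
    simp [A, Fintype.card_piFinset]
  have hfib : ∀ v ∈ (univ : Finset (ZMod p)), (A.filter fun x => f x = v).card ≤
      ((Box n R).filter fun x => x ∈ Lu u).card := by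
    intro v _
    rcases (A.filter fun x => f x = v).eq_empty_or_nonempty with h | ⟨x0, hx0⟩
    · rw [h, card_empty]
      exact Nat.zero_le _
    · rw [mem_filter] at hx0
      obtain ⟨hx0A, hx0v⟩ := hx0
      refine card_le_card_of_injOn (fun x => x - x0) ?_ ?_
      · intro x hx
        rw [mem_coe, mem_filter] at hx
        obtain ⟨hxA, hxv⟩ := hx
        rw [mem_coe, mem_filter]
        refine ⟨?_, ?_⟩
        · rw [mem_Box]
          intro i
          have h1 := mem_Icc.1 ((Fintype.mem_piFinset.1 hxA) i)
          have h2 := mem_Icc.1 ((Fintype.mem_piFinset.1 hx0A) i)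
          change |x i - x0 i| ≤ (R : ℤ)
          rw [abs_le]
          constructor <;> linarith [h1.1, h1.2, h2.1, h2.2]
        · show ∑ j, u j * (((x - x0) j : ℤ) : ZMod p) = 0
          have h3 : ∀ j, u j * (((x - x0) j : ℤ) : ZMod p) =
              u j * (x j : ZMod p) - u j * (x0 j : ZMod p) := by
            intro j
            rw [Pi.sub_apply, Int.cast_sub, mul_sub]
          rw [sum_congr rfl fun j _ => h3 j, sum_sub_distrib]
          change f x - f x0 = 0
          rw [hxv, hx0v, sub_self]
      · intro x _ y _ hxy
        exact sub_left_injective hxy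
  have h1 : A.card = ∑ v : ZMod p, (A.filter fun x => f x = v).card :=
    card_eq_sum_card_fiberwise fun x _ => mem_univ _
  rw [← hA, h1]
  refine (sum_le_card_nsmul _ _ _ hfib).trans (le_of_eq ?_)
  rw [smul_eq_mul, card_univ, ZMod.card]

end Pool.Agent.K6.H81.PF
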