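import Pool.Agent.K6.H81.PF.Stm

set_option autoImplicit false

namespace Pool.Agent.K6.H81.PF

theorem card_Box_T (n R : ℕ) : (Box n R).card = (2 * R + 1) ^ n := by
  have h : (((R : ℤ) + 1 + (R : ℤ))).toNat = 2 * R + 1 := by omega
  simp [Box, Fintype.card_piFinset, Int.card_Icc, h]

theorem Sp_cons_T {n k : ℕ} (y : V n) (w : Fin k → V n) :
    Sp (Fin.cons y w : Fin (k + 1) → V n) = Sp w ⊔ Submodule.span ℝ {toE n y} := by
  have h : (Set.range fun i => toE n ((Fin.cons y w : Fin (k + 1) → V n) i)) =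
      insert (toE n y) (Set.range fun i => toE n (w i)) := by
    have : (fun i => toE n ((Fin.cons y w : Fin (k + 1) → V n) i)) =
        (Fin.cons (toE n y) (fun i => toE n (w i)) : Fin (k + 1) → E n) := by
      funext i
      refine Fin.cases ?_ (fun j => ?_) i <;> simp
    rw [this, Fin.range_cons]
  rw [Sp, h, Submodule.span_insert, sup_comm]
  rfl

theorem li_cons_T {n k : ℕ} (y : V n) (w : Fin k → V n) :
    LinearIndependent ℝ (fun i => toE n ((Fin.cons y w : Fin (k + 1) → V n) i)) ↔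
      LinearIndependent ℝ (fun i => toE n (w i)) ∧ toE n y ∉ Sp w := by
  have : (fun i => toE n ((Fin.cons y w : Fin (k + 1) → V n) i)) =
      (Fin.cons (toE n y) (fun i => toE n (w i)) : Fin (k + 1) → E n) := by
    funext i
    refine Fin.cases ?_ (fun j => ?_) i <;> simp
  rw [this, linearIndependent_finCons]
  rfl

theorem TH_nonneg_T {n : ℕ} (L : AddSubgroup (V n)) (t : ℝ) (x : E n) : 0 ≤ TH L t x :=
  tsum_nonneg fun _ => (Real.exp_pos _).le

theorem toE_inj_T {n : ℕ} {x : V n} (h : toE n x = 0) : x = 0 := by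
  funext i
  have : (toE n x) i = 0 := by rw [h]; rfl
  rw [toE_apply] at this
  have h1 : ((x i : ℤ) : ℝ) = (0 : ℝ) := this
  have h2 : x i = 0 := by exact_mod_cast h1
  exact h2

theorem TH_zero_T {n : ℕ} (w : Fin 0 → V n) (t : ℝ) : TH (LL (Sp w)) t 0 = 1 := by
  have hbot : LL (Sp w) = ⊥ := by
    rw [eq_bot_iff]
    intro x hx
    rw [mem_LL] at hx
    have : Sp w = ⊥ := by simp [Sp]
    rw [this, Submodule.mem_bot] at hx
    exact toE_inj_T hx
  rw [hbot, TH, tsum_fintype]
  have hd : ((default : (⊥ : AddSubgroup (V n))) : V n) = 0 := rfl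
  simp [hd]

theorem piFinset_mem_T {n k R : ℕ} {w : Fin k → V n} :
    w ∈ (Fintype.piFinset fun _ : Fin k => Box n R) ↔ ∀ i, w i ∈ Box n R := by
  simp

open Classical in
theorem claimT (hC : S_C) (hE : S_E) (hG : S_G) (n : ℕ) (hn : 8 ≤ n) (hn8 : 8 ∣ n) :
    ∀ k : ℕ, 8 * k ≤ n → ∃ C : ℝ, 0 ≤ C ∧ ∀ R : ℕ, 1 ≤ R → ∃ Gd : Finset (Fin k → V n),
      ((((Fintype.piFinset fun _ : Fin k => Box n (4 * R)).filter fun w : Fin k → V n =>
        LinearIndependent ℝ (fun i => toE n (w i)) ∧ w ∉ Gd).card : ℝ) * R ≤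
          C * (R : ℝ) ^ (n * k)) ∧
      (∀ w ∈ Gd, (∀ i, w i ∈ Box n (4 * R)) ∧ LinearIndependent ℝ (fun i => toE n (w i))) ∧
      ∑ w ∈ Gd, TH (LL (Sp w)) (Real.pi / ((R : ℝ) ^ 2 * n)) 0 ^ (n / 8) ≤
        (Real.exp 58 * R) ^ (n * k) := by
  intro k
  induction k with
  | zero =>
    intro _
    refine ⟨0, le_refl _, fun R hR => ⟨{fun i => i.elim0}, ?_, ?_, ?_⟩⟩
    · have : ((Fintype.piFinset fun _ : Fin 0 => Box n (4 * R)).filter fun w : Fin 0 → V n =>
        LinearIndependent ℝ (fun i => toE n (w i)) ∧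
          w ∉ ({fun i => i.elim0} : Finset (Fin 0 → V n))) = ∅ := by
        rw [Finset.filter_eq_empty_iff]
        intro w _ h
        exact h.2 (Finset.mem_singleton.2 (funext fun i => i.elim0))
      rw [this]
      simp
    · intro w _
      exact ⟨fun i => i.elim0, linearIndependent_empty_type⟩
    · rw [Finset.sum_singleton, TH_zero_T]
      simp
  | succ k ih =>
    intro hk
    obtain ⟨Ck, hCk, ihR⟩ := ih (by omega)
    obtain ⟨CE, hCE⟩ := hE n k (by omega)
    refine ⟨Ck * 9 ^ n + 9 ^ (n * k) * max CE 0, by positivity, fun R hR => ?_⟩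
    obtain ⟨Gd, hbad, hGd, hsum⟩ := ihR R hR
    have hR0 : (0 : ℝ) < R := by exact_mod_cast hR
    have hn0 : (0 : ℝ) < n := by exact_mod_cast (by omega : 0 < n)
    -- the contents
    have hcc : ∀ (w : Fin k → V n) (y : V n), ∃ c : ℕ, toE n y ∉ Sp w →
        (1 ≤ c ∧ (∃ z l : V n, l ∈ LL (Sp w) ∧ y = c • z + l) ∧ ∀ t : ℝ, 0 < t →
          TH (LL (Sp w ⊔ Submodule.span ℝ {toE n y})) t 0 ≤
            TH (LL (Sp w)) t 0 * (1 + √(Real.pi / t) * c / dd (Sp w) (toE n y))) := by
      intro w y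
      by_cases h : toE n y ∉ Sp w
      · obtain ⟨c, z, l, h1, h2, h3, h4⟩ := hC n k w y h
        exact ⟨c, fun _ => ⟨h1, ⟨z, l, h2, h3⟩, h4⟩⟩
      · exact ⟨0, fun h' => absurd h' h⟩
    choose cc hcc using hcc
    set Fw : (Fin k → V n) → Finset (V n) := fun w =>
      (Box n (4 * R)).filter fun y => toE n y ∉ Sp w ∧ √n ≤ dd (Sp w) (toE n y) ∧
        cc w y ≤ 8 * R with hFw
    set Ew : (Fin k → V n) → Finset (V n) := fun w =>
      (Box n (4 * R)).filter fun y => toE n y ∉ Sp w ∧ (dd (Sp w) (toE n y) < √n ∨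
        ∃ (c : ℕ) (z l : V n), 8 * R < c ∧ l ∈ LL (Sp w) ∧ y = c • z + l) with hEw
    set Gd' : Finset (Fin (k + 1) → V n) :=
      (Gd.sigma Fw).image (fun p => (Fin.cons p.2 p.1 : Fin (k + 1) → V n)) with hGd'
    have hinj : ∀ p ∈ Gd.sigma Fw, ∀ q ∈ Gd.sigma Fw,
        (Fin.cons p.2 p.1 : Fin (k + 1) → V n) = Fin.cons q.2 q.1 → p = q := by
      intro p _ q _ h
      obtain ⟨h1, h2⟩ := Fin.cons_injective2 h
      rcases p with ⟨p1, p2⟩
      rcases q with ⟨q1, q2⟩
      simp only at h1 h2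
      subst h1 h2
      rfl
    refine ⟨Gd', ?_, ?_, ?_⟩
    · -- the bad tuples
      set bad : Finset (Fin k → V n) :=
        (Fintype.piFinset fun _ : Fin k => Box n (4 * R)).filter fun w : Fin k → V n =>
          LinearIndependent ℝ (fun i => toE n (w i)) ∧ w ∉ Gd with hbaddef
      have hsub : ((Fintype.piFinset fun _ : Fin (k + 1) => Box n (4 * R)).filter
          fun w : Fin (k + 1) → V n => LinearIndependent ℝ (fun i => toE n (w i)) ∧ w ∉ Gd') ⊆
          ((bad.sigma fun _ => Box n (4 * R)) ∪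
            ((Fintype.piFinset fun _ : Fin k => Box n (4 * R)).sigma Ew)).image
              (fun p => (Fin.cons p.2 p.1 : Fin (k + 1) → V n)) := by
        intro w' hw'
        rw [Finset.mem_filter, piFinset_mem_T] at hw'
        obtain ⟨hbox, hli, hnG⟩ := hw'
        rw [Finset.mem_image]
        refine ⟨⟨Fin.tail w', w' 0⟩, ?_, Fin.cons_self_tail w'⟩
        have hli' := hli
        rw [← Fin.cons_self_tail w', li_cons_T] at hli'
        have hboxt : Fin.tail w' ∈ (Fintype.piFinset fun _ : Fin k => Box n (4 * R)) := by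
          rw [piFinset_mem_T]
          exact fun i => hbox i.succ
        rw [Finset.mem_union, Finset.mem_sigma, Finset.mem_sigma]
        by_cases hG1 : Fin.tail w' ∈ Gd
        · right
          refine ⟨hboxt, ?_⟩
          have hnF : w' 0 ∉ Fw (Fin.tail w') := by
            intro hF
            apply hnG
            rw [hGd', Finset.mem_image]
            exact ⟨⟨Fin.tail w', w' 0⟩, Finset.mem_sigma.2 ⟨hG1, hF⟩, Fin.cons_self_tail w'⟩
          simp only [hEw, Finset.mem_filter]
          refine ⟨hbox 0, hli'.2, ?_⟩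
          by_contra hcon
          push Not at hcon
          obtain ⟨hc1, hc2⟩ := hcon
          apply hnF
          simp only [hFw, Finset.mem_filter]
          refine ⟨hbox 0, hli'.2, hc1, ?_⟩
          obtain ⟨-, ⟨z, l, hl, hy⟩, -⟩ := hcc (Fin.tail w') (w' 0) hli'.2
          by_contra hlt
          push Not at hlt
          exact hc2 _ z l hlt hl hy
        · left
          refine ⟨?_, hbox 0⟩
          rw [hbaddef, Finset.mem_filter]
          exact ⟨hboxt, hli'.1, hG1⟩
      have hcard : (((Fintype.piFinset fun _ : Fin (k + 1) => Box n (4 * R)).filter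
          fun w : Fin (k + 1) → V n =>
            LinearIndependent ℝ (fun i => toE n (w i)) ∧ w ∉ Gd').card : ℝ) ≤
          (bad.card : ℝ) * (Box n (4 * R)).card +
            ∑ w ∈ (Fintype.piFinset fun _ : Fin k => Box n (4 * R)), ((Ew w).card : ℝ) := by
        have h1 := Finset.card_le_card hsub
        have h2 := Finset.card_image_le (s := ((bad.sigma fun _ => Box n (4 * R)) ∪
            ((Fintype.piFinset fun _ : Fin k => Box n (4 * R)).sigma Ew)))
              (f := fun p => (Fin.cons p.2 p.1 : Fin (k + 1) → V n))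
        have h3 := Finset.card_union_le (bad.sigma fun _ => Box n (4 * R))
          ((Fintype.piFinset fun _ : Fin k => Box n (4 * R)).sigma Ew)
        rw [Finset.card_sigma, Finset.card_sigma, Finset.sum_const, smul_eq_mul] at h3
        have h4 := (h1.trans h2).trans h3
        exact_mod_cast h4
      have hb9 : ((Box n (4 * R)).card : ℝ) ≤ (9 * R) ^ n := by
        rw [card_Box_T]
        push_cast
        refine pow_le_pow_left₀ (by positivity) ?_ n
        have : (1 : ℝ) ≤ R := by exact_mod_cast hR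
        linarith
      have hpi : ((Fintype.piFinset fun _ : Fin k => Box n (4 * R)).card : ℝ) ≤
          (9 * R) ^ (n * k) := by
        rw [Fintype.card_piFinset, Finset.prod_const, Finset.card_univ, Fintype.card_fin, pow_mul]
        push_cast
        exact pow_le_pow_left₀ (by positivity) hb9 k
      have hEs : ∑ w ∈ (Fintype.piFinset fun _ : Fin k => Box n (4 * R)), ((Ew w).card : ℝ) ≤
          (9 * R) ^ (n * k) * (max CE 0 * (R : ℝ) ^ (n - 1)) := by
        calc _ ≤ ∑ w ∈ (Fintype.piFinset fun _ : Fin k => Box n (4 * R)),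
              (max CE 0 * (R : ℝ) ^ (n - 1)) := by
              refine Finset.sum_le_sum fun w hw => ?_
              rw [piFinset_mem_T] at hw
              have := hCE R hR w hw
              refine this.trans ?_
              exact mul_le_mul_of_nonneg_right (le_max_left _ _) (by positivity)
          _ = ((Fintype.piFinset fun _ : Fin k => Box n (4 * R)).card : ℝ) *
              (max CE 0 * (R : ℝ) ^ (n - 1)) := by rw [Finset.sum_const, nsmul_eq_mul]
          _ ≤ _ := mul_le_mul_of_nonneg_right hpi (by positivity)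
      have hRn : (R : ℝ) ^ (n - 1) * R = R ^ n := by
        rw [← pow_succ]
        congr 1
        omega
      calc _ ≤ ((bad.card : ℝ) * (Box n (4 * R)).card +
            ∑ w ∈ (Fintype.piFinset fun _ : Fin k => Box n (4 * R)), ((Ew w).card : ℝ)) * R :=
            mul_le_mul_of_nonneg_right hcard hR0.le
        _ ≤ (bad.card : ℝ) * (9 * R) ^ n * R +
            (9 * R) ^ (n * k) * (max CE 0 * (R : ℝ) ^ (n - 1)) * R := by
            rw [add_mul]
            refine add_le_add ?_ (mul_le_mul_of_nonneg_right hEs hR0.le)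
            refine mul_le_mul_of_nonneg_right ?_ hR0.le
            exact mul_le_mul_of_nonneg_left hb9 (by positivity)
        _ = ((bad.card : ℝ) * R) * (9 * R) ^ n +
            (9 * R) ^ (n * k) * max CE 0 * ((R : ℝ) ^ (n - 1) * R) := by ring
        _ ≤ (Ck * (R : ℝ) ^ (n * k)) * (9 * R) ^ n +
            (9 * R) ^ (n * k) * max CE 0 * (R : ℝ) ^ n := by
            rw [hRn]
            have := mul_le_mul_of_nonneg_right hbad (by positivity : (0 : ℝ) ≤ (9 * R) ^ n)
            linarith
        _ = (Ck * 9 ^ n + 9 ^ (n * k) * max CE 0) * (R : ℝ) ^ (n * (k + 1)) := by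
            rw [mul_pow, mul_pow, mul_add, mul_one, pow_add]
            ring
    · intro w' hw'
      rw [hGd', Finset.mem_image] at hw'
      obtain ⟨⟨w, y⟩, hp, rfl⟩ := hw'
      rw [Finset.mem_sigma] at hp
      obtain ⟨hw, hy⟩ := hp
      simp only [hFw, Finset.mem_filter] at hy
      simp only at hw
      refine ⟨fun i => ?_, ?_⟩
      · refine Fin.cases ?_ (fun j => ?_) i
        · simpa using hy.1
        · simpa using (hGd w hw).1 j
      · exact (li_cons_T y w).2 ⟨(hGd w hw).2, hy.2.1⟩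
    · rw [hGd', Finset.sum_image hinj, Finset.sum_sigma]
      have ht0 : (0 : ℝ) < Real.pi / ((R : ℝ) ^ 2 * n) := by positivity
      have hsq : √(Real.pi / (Real.pi / ((R : ℝ) ^ 2 * n))) = R * √n := by
        rw [div_div_cancel₀ Real.pi_ne_zero, Real.sqrt_mul (by positivity),
          Real.sqrt_sq hR0.le]
      calc ∑ w ∈ Gd, ∑ y ∈ Fw w, TH (LL (Sp (Fin.cons y w : Fin (k + 1) → V n)))
              (Real.pi / ((R : ℝ) ^ 2 * n)) 0 ^ (n / 8)
          ≤ ∑ w ∈ Gd, TH (LL (Sp w)) (Real.pi / ((R : ℝ) ^ 2 * n)) 0 ^ (n / 8) *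
              (Real.exp 58 * R) ^ n := by
            refine Finset.sum_le_sum fun w hw => ?_
            have hg := hG n k R hn hn8 (by omega) hR w (hGd w hw).2 (cc w)
              (fun y hy => ⟨(hcc w y hy).1, (hcc w y hy).2.1⟩)
            calc ∑ y ∈ Fw w, TH (LL (Sp (Fin.cons y w : Fin (k + 1) → V n)))
                  (Real.pi / ((R : ℝ) ^ 2 * n)) 0 ^ (n / 8)
                ≤ ∑ y ∈ Fw w, TH (LL (Sp w)) (Real.pi / ((R : ℝ) ^ 2 * n)) 0 ^ (n / 8) *
                    (1 + R * √n * cc w y / dd (Sp w) (toE n y)) ^ (n / 8) := by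
                  refine Finset.sum_le_sum fun y hy => ?_
                  simp only [hFw, Finset.mem_filter] at hy
                  have h4 := (hcc w y hy.2.1).2.2 _ ht0
                  rw [hsq] at h4
                  rw [Sp_cons_T, ← mul_pow]
                  exact pow_le_pow_left₀ (TH_nonneg_T _ _ _) h4 _
              _ = TH (LL (Sp w)) (Real.pi / ((R : ℝ) ^ 2 * n)) 0 ^ (n / 8) *
                    ∑ y ∈ Fw w, (1 + R * √n * cc w y / dd (Sp w) (toE n y)) ^ (n / 8) := by
                  rw [Finset.mul_sum]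
              _ ≤ _ := mul_le_mul_of_nonneg_left hg (pow_nonneg (TH_nonneg_T _ _ _) _)
        _ = (∑ w ∈ Gd, TH (LL (Sp w)) (Real.pi / ((R : ℝ) ^ 2 * n)) 0 ^ (n / 8)) *
              (Real.exp 58 * R) ^ n := by rw [Finset.sum_mul]
        _ ≤ (Real.exp 58 * R) ^ (n * k) * (Real.exp 58 * R) ^ n :=
              mul_le_mul_of_nonneg_right hsum (by positivity)
        _ = (Real.exp 58 * R) ^ (n * (k + 1)) := by rw [mul_add, mul_one, pow_add]

/-- Piece T. -/
theorem pieceT (hC : S_C) (hE : S_E) (hG : S_G) : S_T := by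
  classical
  intro n k hn hn8 hk
  obtain ⟨C, hC0, hR⟩ := claimT hC hE hG n hn hn8 k hk
  refine ⟨C, fun R Y hR1 hY => ?_⟩
  obtain ⟨Gd, hbad, hGd, hsum⟩ := hR R hR1
  have hR0 : (0 : ℝ) < R := by exact_mod_cast hR1
  have hY0 : (0 : ℝ) < Y := by linarith
  set t := Real.pi / ((R : ℝ) ^ 2 * n) with ht
  set bad : Finset (Fin k → V n) :=
    (Fintype.piFinset fun _ : Fin k => Box n (4 * R)).filter fun w : Fin k → V n =>
      LinearIndependent ℝ (fun i => toE n (w i)) ∧ w ∉ Gd with hbaddef
  have hsub : ((Fintype.piFinset fun _ : Fin k => Box n (4 * R)).filter fun w : Fin k → V n =>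
      LinearIndependent ℝ (fun i => toE n (w i)) ∧ Y < TH (LL (Sp w)) t 0) ⊆
      bad ∪ Gd.filter fun w => Y < TH (LL (Sp w)) t 0 := by
    intro w hw
    rw [Finset.mem_filter] at hw
    rw [Finset.mem_union]
    by_cases h : w ∈ Gd
    · right
      exact Finset.mem_filter.2 ⟨h, hw.2.2⟩
    · left
      rw [hbaddef, Finset.mem_filter]
      exact ⟨hw.1, hw.2.1, h⟩
  have h1 : (((Fintype.piFinset fun _ : Fin k => Box n (4 * R)).filter fun w : Fin k → V n =>
      LinearIndependent ℝ (fun i => toE n (w i)) ∧ Y < TH (LL (Sp w)) t 0).card : ℝ) ≤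
      bad.card + (Gd.filter fun w => Y < TH (LL (Sp w)) t 0).card := by
    exact_mod_cast (Finset.card_le_card hsub).trans (Finset.card_union_le _ _)
  have h2 : (bad.card : ℝ) ≤ C * (R : ℝ) ^ (n * k - 1) := by
    rcases Nat.eq_zero_or_pos (n * k) with h0 | h0
    · rw [h0] at hbad ⊢
      simp only [pow_zero, mul_one, zero_le, Nat.sub_eq_zero_of_le] at hbad ⊢
      have : (1 : ℝ) ≤ R := by exact_mod_cast hR1
      have hb0 : (0 : ℝ) ≤ bad.card := by positivity
      nlinarith
    · have : (R : ℝ) ^ (n * k) = R ^ (n * k - 1) * R := by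
        rw [← pow_succ]
        congr 1
        omega
      rw [this, ← mul_assoc] at hbad
      exact le_of_mul_le_mul_right hbad hR0
  have h3 : ((Gd.filter fun w => Y < TH (LL (Sp w)) t 0).card : ℝ) ≤
      (Real.exp 58 * R) ^ (n * k) / Y ^ (n / 8) := by
    rw [le_div_iff₀ (by positivity)]
    calc ((Gd.filter fun w => Y < TH (LL (Sp w)) t 0).card : ℝ) * Y ^ (n / 8)
        = ∑ w ∈ Gd.filter fun w => Y < TH (LL (Sp w)) t 0, Y ^ (n / 8) := by
          rw [Finset.sum_const, nsmul_eq_mul]
      _ ≤ ∑ w ∈ Gd.filter fun w => Y < TH (LL (Sp w)) t 0, TH (LL (Sp w)) t 0 ^ (n / 8) := by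
          refine Finset.sum_le_sum fun w hw => ?_
          rw [Finset.mem_filter] at hw
          exact pow_le_pow_left₀ hY0.le hw.2.le _
      _ ≤ ∑ w ∈ Gd, TH (LL (Sp w)) t 0 ^ (n / 8) :=
          Finset.sum_le_sum_of_subset_of_nonneg (Finset.filter_subset _ _)
            fun w _ _ => pow_nonneg (TH_nonneg_T _ _ _) _
      _ ≤ _ := hsum
  linarith

end Pool.Agent.K6.H81.PF
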