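import Mathlib

/-! Statements of the pieces for MP_86f7a7_co (polynomial Freiman-Ruzsa with proper progressions of
arbitrary rank, torsion-free groups). -/

set_option autoImplicit false

namespace Pool.Agent.K6.H81.PF

open scoped BigOperators

/-- The Euclidean space of dimension `n`. -/
abbrev E (n : ℕ) := EuclideanSpace ℝ (Fin n)

/-- The group of the integer vectors. -/
abbrev V (n : ℕ) := Fin n → ℤ

/-- The inclusion of the integer vectors in the Euclidean space. -/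
noncomputable def toE (n : ℕ) : V n →+ E n where
  toFun x := WithLp.toLp 2 (fun i => (x i : ℝ))
  map_zero' := by
    ext i
    simp
  map_add' x y := by
    ext i
    simp

@[simp] theorem toE_apply {n : ℕ} (x : V n) (i : Fin n) : toE n x i = (x i : ℝ) := rfl

/-- The integer vectors with coordinates between `-R` and `R`. -/
noncomputable def Box (n R : ℕ) : Finset (V n) := Fintype.piFinset fun _ => Finset.Icc (-(R : ℤ)) R

theorem mem_Box {n R : ℕ} {x : V n} : x ∈ Box n R ↔ ∀ i, |x i| ≤ R := by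
  simp [Box, abs_le]

/-- The integer vectors in a subspace. -/
noncomputable def LL {n : ℕ} (U : Submodule ℝ (E n)) : AddSubgroup (V n) :=
  U.toAddSubgroup.comap (toE n)

theorem mem_LL {n : ℕ} {U : Submodule ℝ (E n)} {x : V n} : x ∈ LL U ↔ toE n x ∈ U := Iff.rfl

/-- The Gaussian sum `∑ exp (-t |v + x|²)` over a subgroup `L` of the integer vectors. -/
noncomputable def TH {n : ℕ} (L : AddSubgroup (V n)) (t : ℝ) (x : E n) : ℝ :=
  ∑' v : L, Real.exp (-t * ‖toE n (v : V n) + x‖ ^ 2)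

/-- The distance of `x` from the subspace `U`. -/
noncomputable def dd {n : ℕ} (U : Submodule ℝ (E n)) (x : E n) : ℝ := ‖x - U.starProjection x‖

/-- The real span of integer vectors. -/
noncomputable def Sp {n k : ℕ} (w : Fin k → V n) : Submodule ℝ (E n) :=
  Submodule.span ℝ (Set.range fun i => toE n (w i))

/-- Piece A: the sum of the Gaussian over a coset is at most its sum over the subgroup. -/
def S_A : Prop := ∀ (n : ℕ) (L : AddSubgroup (V n)) (t : ℝ), 0 < t →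
  (∀ x : E n, Summable fun v : L => Real.exp (-t * ‖toE n (v : V n) + x‖ ^ 2)) ∧
  ∀ x : E n, TH L t x ≤ TH L t 0

/-- Piece B: logarithmic convexity of the Gaussian sum. -/
def S_B : Prop := ∀ (n : ℕ) (L : AddSubgroup (V n)) (t : ℝ), 0 < t →
  TH L (2 * t) 0 ^ 2 ≤ TH L t 0 * TH L (4 * t) 0

/-- Piece C: adding one integer vector `y` to the subspace spanned by integer vectors `w`. -/
def S_C : Prop := ∀ (n k : ℕ) (w : Fin k → V n) (y : V n), toE n y ∉ Sp w →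
  ∃ (c : ℕ) (z l : V n), 1 ≤ c ∧ l ∈ LL (Sp w) ∧ y = c • z + l ∧ ∀ t : ℝ, 0 < t →
    TH (LL (Sp w ⊔ Submodule.span ℝ {toE n y})) t 0 ≤
      TH (LL (Sp w)) t 0 * (1 + √(Real.pi / t) * c / dd (Sp w) (toE n y))

open Classical in
/-- Piece D: the number of the integer vectors near a subspace. -/
def S_D : Prop := ∀ (n R : ℕ), 1 ≤ n → 1 ≤ R → ∀ (U : Submodule ℝ (E n)) (β : ℝ), √n ≤ β →
  (((Box n (4 * R)).filter fun y => dd U (toE n y) ≤ β).card : ℝ) ≤
    Real.exp (55 * n) * (R : ℝ) ^ (Module.finrank ℝ U) *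
      (β / √n) ^ (n - Module.finrank ℝ U)

open Classical in
/-- Piece E: there are few integer vectors too near to a subspace spanned by vectors of the box, or
with too large content modulo the subspace. -/
def S_E : Prop := ∀ (n k : ℕ), 2 * k + 2 ≤ n → ∃ C : ℝ, ∀ R : ℕ, 1 ≤ R → ∀ w : Fin k → V n,
  (∀ i, w i ∈ Box n (4 * R)) →
  (((Box n (4 * R)).filter fun y => toE n y ∉ Sp w ∧ (dd (Sp w) (toE n y) < √n ∨
    ∃ (c : ℕ) (z l : V n), 8 * R < c ∧ l ∈ LL (Sp w) ∧ y = c • z + l)).card : ℝ) ≤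
      C * (R : ℝ) ^ (n - 1)

open Classical in
/-- Piece F: there are few integer vectors in the box that are in `c Z^n + LL (Sp w)`. -/
def S_F : Prop := ∀ (n R k c : ℕ), k ≤ n → 1 ≤ c → c ≤ 8 * R → ∀ w : Fin k → V n,
  ((Box n (4 * R)).filter fun y => ∃ z l : V n, l ∈ LL (Sp w) ∧ y = c • z + l).card *
    c ^ (n - k) ≤ (16 * R) ^ n

open Classical in
/-- Piece G: the moment. -/
def S_G : Prop := ∀ (n k R : ℕ), 8 ≤ n → 8 ∣ n → 8 * k ≤ n → 1 ≤ R → ∀ w : Fin k → V n,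
  LinearIndependent ℝ (fun i => toE n (w i)) → ∀ c : V n → ℕ,
  (∀ y, toE n y ∉ Sp w → 1 ≤ c y ∧ ∃ z l : V n, l ∈ LL (Sp w) ∧ y = c y • z + l) →
  ∑ y ∈ (Box n (4 * R)).filter fun y => toE n y ∉ Sp w ∧ √n ≤ dd (Sp w) (toE n y) ∧
      c y ≤ 8 * R,
    (1 + R * √n * c y / dd (Sp w) (toE n y)) ^ (n / 8) ≤ (Real.exp 58 * R) ^ n

open Classical in
/-- Piece H: the number of the `u` modulo `p` orthogonal to linearly independent short vectors. -/
def S_H : Prop := ∀ (n k R p : ℕ) [Fact p.Prime], k ≤ n → k.factorial * R ^ k < p →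
  ∀ w : Fin k → V n, (∀ i, w i ∈ Box n R) → LinearIndependent ℝ (fun i => toE n (w i)) →
  (Finset.univ.filter fun u : Fin n → ZMod p => ∀ i, ∑ j, u j * (w i j : ZMod p) = 0).card *
    p ^ k ≤ p ^ n

/-- The integer vectors orthogonal to `u` modulo `p`. -/
def Lu {n p : ℕ} (u : Fin n → ZMod p) : AddSubgroup (V n) where
  carrier := {x | ∑ j, u j * (x j : ZMod p) = 0}
  zero_mem' := by simp
  add_mem' {x y} hx hy := by
    simp only [Set.mem_ofPred_eq] at hx hy ⊢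
    simp [mul_add, Finset.sum_add_distrib, hx, hy]
  neg_mem' {x} hx := by
    simp only [Set.mem_ofPred_eq] at hx ⊢
    simp [Finset.sum_neg_distrib, hx]

/-- Piece I: the mean of the Gaussian sum of `Lu u`. -/
def S_I : Prop := ∀ (n p : ℕ) [Fact p.Prime] (t : ℝ), 0 < t →
  ∑ u : Fin n → ZMod p, TH (Lu u) t 0 ≤
    (p : ℝ) ^ n * (1 + √(Real.pi / t) / p) ^ n + (p : ℝ) ^ (n - 1) * (1 + √(Real.pi / t)) ^ n

open Classical in
/-- Piece P: pigeonhole. -/
def S_P : Prop := ∀ (n p R : ℕ) [Fact p.Prime] (u : Fin n → ZMod p),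
  (R + 1) ^ n ≤ p * ((Box n R).filter fun x => x ∈ Lu u).card

open Classical in
/-- Piece T: the number of the bad tuples. -/
def S_T : Prop := ∀ (n k : ℕ), 8 ≤ n → 8 ∣ n → 8 * k ≤ n → ∃ C : ℝ, ∀ (R : ℕ) (Y : ℝ), 1 ≤ R →
  1 ≤ Y →
  (((Fintype.piFinset fun _ : Fin k => Box n (4 * R)).filter fun w : Fin k → V n =>
    LinearIndependent ℝ (fun i => toE n (w i)) ∧
      Y < TH (LL (Sp w)) (Real.pi / ((R : ℝ) ^ 2 * n)) 0).card : ℝ) ≤
    C * (R : ℝ) ^ (n * k - 1) + (Real.exp 58 * R) ^ (n * k) / Y ^ (n / 8)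

open Classical in
/-- The lattices. -/
def S_LAT : Prop := ∀ H : ℕ, ∃ e₀ : ℕ, ∀ e : ℕ, e₀ ≤ e →
  ∃ (R : ℕ) (L : AddSubgroup (V (2 ^ e))), 1 ≤ R ∧
    4 ^ (H * 2 ^ e) ≤ ((Box (2 ^ e) R).filter fun x => x ∈ L).card ∧
    ∀ U : Submodule ℝ (E (2 ^ e)), 8 * Module.finrank ℝ U ≤ 2 ^ e →
      (((Box (2 ^ e) (4 * R)).filter fun x => x ∈ L ∧ toE _ x ∈ U).card : ℝ) ≤
        Real.exp (53 * 2 ^ e)

/-! The combinatorial part. -/

/-- The sum over the copies: `φ_B (μ) = ∑ μ x |{b ∈ B : x + b ∈ B}|`. -/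
noncomputable def TB {G : Type} [AddCommGroup G] [DecidableEq G] (B : Finset G)
    (μ : AddMonoidAlgebra ℝ G) : ℝ :=
  μ.coeff.sum fun x m => m * ((B.filter fun b => x + b ∈ B).card : ℝ)

/-- The reflection `x ↦ -x`. -/
noncomputable def rev {G : Type} [AddCommGroup G] (μ : AddMonoidAlgebra ℝ G) :
    AddMonoidAlgebra ℝ G :=
  AddMonoidAlgebra.mapDomain (fun x : G => -x) μ

/-- Piece K1: Hölder's inequality, by repeated Cauchy-Schwarz. -/
def S_K1 : Prop := ∀ (G : Type) [AddCommGroup G] [DecidableEq G] (B : Finset G) (l : ℕ) (t : G)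
  (μ : Fin (2 ^ (l + 1)) → AddMonoidAlgebra ℝ G), (∀ j x, 0 ≤ (μ j).coeff x) →
  TB B ((∏ j, μ j) * AddMonoidAlgebra.single t 1) ^ (2 ^ (l + 1)) ≤
    ∏ j, TB B ((μ j * rev (μ j)) ^ (2 ^ l))

/-- Piece K2: the coefficients of powers of `(1 + X) (1 + X⁻¹) / 4` in independent directions. -/
def S_K2 : Prop := ∀ (G : Type) [AddCommGroup G] [Module ℝ G] (r l : ℕ) (v : Fin r → G),
  LinearIndependent ℝ v → ∀ (μ : AddMonoidAlgebra ℝ G),
  μ = ∏ i, ((1 / 2 : ℝ) • (AddMonoidAlgebra.single 0 1 + AddMonoidAlgebra.single (v i) 1) :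
    AddMonoidAlgebra ℝ G) →
  ∀ x : G, ((μ * rev μ) ^ (2 ^ l)).coeff x ≤
    (((2 ^ l).centralBinom : ℝ) / 4 ^ (2 ^ l)) ^ r

open Classical in
/-- Piece K4: extraction of disjoint independent subsets. -/
def S_K4 : Prop := ∀ (G : Type) [AddCommGroup G] [Module ℝ G] (d r J : ℕ) (v : Fin d → G)
  (S : Finset (Fin d)), 1 ≤ r →
  (∃ I : Fin J → Finset (Fin d), (∀ j, I j ⊆ S ∧ (I j).card = r ∧
      LinearIndependent ℝ (fun i : I j => v i)) ∧ Pairwise fun j j' => Disjoint (I j) (I j')) ∨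
  ∃ T ⊆ S, T.card ≤ J * r ∧
    Module.finrank ℝ (Submodule.span ℝ (v '' ((S \ T : Finset (Fin d)) : Set (Fin d)))) < r

open Classical in
/-- The combinatorial theorem. -/
def S_LO : Prop := ∀ (G : Type) [AddCommGroup G] [Module ℝ G] (A B D : Finset G) (K M : ℝ)
  (r l Ns : ℕ), A.Nonempty → 0 ∈ A → (∀ x ∈ A, ∀ y ∈ A, x + y ∈ B) →
  (∀ x ∈ B, ∀ y ∈ B, x - y ∈ D) → (B.card : ℝ) ≤ K * A.card →
  (∀ U : Submodule ℝ G, FiniteDimensional ℝ U → Module.finrank ℝ U ≤ 2 * r →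
    ((D.filter fun x => x ∈ U).card : ℝ) ≤ M) →
  2 ≤ Ns → 1 ≤ r →
  ∀ (d : ℕ) (a : G) (v : Fin d → G) (N : Fin d → ℕ), (∀ i, 1 ≤ N i) →
    (Ns : ℝ) ^ (2 ^ (l + 1) * r) * M < ((A.filter fun x => ∃ m : Fin d → ℕ,
      (∀ i, m i < N i) ∧ x = a + ∑ i, m i • v i).card : ℝ) →
    (((Fintype.piFinset fun i => Finset.range (N i)).filter fun m : Fin d → ℕ =>
      a + ∑ i, m i • v i ∈ A).card : ℝ) ≤
      max (M / (Ns : ℝ) ^ r) (K * M * (((2 ^ l).centralBinom : ℝ) / 4 ^ (2 ^ l)) ^ r) *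
        ∏ i, (N i : ℝ)

end Pool.Agent.K6.H81.PF
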